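import Pool.Agent.Lib.Helper20.D1.Geo

/-!
# Columns: links
-/

open Set Filter Topology

namespace Pool.Agent.H20.D1

namespace Par

variable (P : Par)

/-! ### L2: pieces of the column -/

theorem l2_arm_sub (X : Set ℂ) {m : ℕ} (hm : m < P.K) (σ : Bool) {j : ℕ} (hj : j ≤ P.N) :
    P.arm m σ j ⊆ P.col X := by
  intro z hz
  left; right; left
  rw [mem_iUnion]
  exact ⟨(⟨m, hm⟩, σ, ⟨j, Nat.lt_succ_of_le hj⟩), hz⟩

theorem l2_rect_sub (X : Set ℂ) {m : ℕ} (hm : m < P.K) (σ : Bool) {j : ℕ} (hj : j < P.N) :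
    P.rect m σ j ⊆ P.col X := by
  intro z hz
  left; right; right
  rw [mem_iUnion]
  exact ⟨(⟨m, hm⟩, σ, ⟨j, hj⟩), hz⟩

theorem l2_copy_sub (X : Set ℂ) {m : ℕ} (hm : m < P.K) (σ : Bool) {j : ℕ} (hj : j < P.N) {i : ℕ}
    (hi : i < (P.T - 1) * P.M) : P.copy X m σ j i ⊆ P.col X := by
  intro z hz
  right
  rw [mem_iUnion]
  exact ⟨(⟨m, hm⟩, σ, ⟨j, hj⟩, ⟨i, hi⟩), hz⟩

theorem l2_roadL_sub (X : Set ℂ) : P.roadL ⊆ P.col X := fun _ hz => Or.inl (Or.inl (Or.inl hz))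

theorem l2_roadR_sub (X : Set ℂ) : P.roadR ⊆ P.col X := fun _ hz => Or.inl (Or.inl (Or.inr hz))

theorem l2_mem_arm (m : ℕ) (σ : Bool) (j : ℕ) {t : ℝ} (h0 : 0 ≤ t) (h1 : t ≤ P.T) :
    P.q m σ j t 0 ∈ P.arm m σ j := ⟨t, ⟨h0, h1⟩, rfl⟩

theorem l2_mem_rect (m : ℕ) (σ : Bool) (j : ℕ) {t r : ℝ} (h0 : 0 ≤ t) (h1 : t ≤ P.T - 1)
    (h2 : 0 ≤ r) (h3 : r ≤ P.s / 2) : P.q m σ j t r ∈ P.rect m σ j :=
  ⟨t, ⟨h0, h1⟩, r, ⟨h2, h3⟩, rfl⟩

theorem l2_comb (m : ℕ) (σ : Bool) (j : ℕ) {t t' r r' a b : ℝ} (hab : a + b = 1) :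
    a • P.q m σ j t r + b • P.q m σ j t' r' = P.q m σ j (a * t + b * t') (a * r + b * r') := by
  have hb : b = 1 - a := by linarith
  subst hb
  apply Complex.ext
  · simp only [Complex.add_re, Complex.real_smul, Complex.mul_re, Complex.ofReal_re,
      Complex.ofReal_im, q_re]
    ring
  · simp only [Complex.add_im, Complex.real_smul, Complex.mul_im, Complex.ofReal_re,
      Complex.ofReal_im, q_im]
    ring

theorem l2_arm_convex (m : ℕ) (σ : Bool) (j : ℕ) : Convex ℝ (P.arm m σ j) := by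
  rintro _ ⟨t, ht, rfl⟩ _ ⟨t', ht', rfl⟩ a b ha hb hab
  refine ⟨a * t + b * t', convex_Icc _ _ ht ht' ha hb hab, ?_⟩
  show P.q m σ j (a * t + b * t') 0 = a • P.q m σ j t 0 + b • P.q m σ j t' 0
  rw [P.l2_comb m σ j hab]
  congr 1
  ring

theorem l2_rect_convex (m : ℕ) (σ : Bool) (j : ℕ) : Convex ℝ (P.rect m σ j) := by
  rintro _ ⟨t, ht, r, hr, rfl⟩ _ ⟨t', ht', r', hr', rfl⟩ a b ha hb hab
  exact ⟨a * t + b * t', convex_Icc _ _ ht ht' ha hb hab, a * r + b * r',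
    convex_Icc _ _ hr hr' ha hb hab, P.l2_comb m σ j hab⟩

theorem l2_roadL_convex : Convex ℝ P.roadL := by
  rintro z ⟨h1, h2, h3⟩ w ⟨h4, h5, h6⟩ a b ha hb hab
  have hb' : b = 1 - a := by linarith
  subst hb'
  refine ⟨?_, ?_, ?_⟩
  · simp [h1, h4]
  · simp only [Complex.add_im, Complex.real_smul, Complex.mul_im, Complex.ofReal_re,
      Complex.ofReal_im]
    nlinarith
  · simp only [Complex.add_im, Complex.real_smul, Complex.mul_im, Complex.ofReal_re,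
      Complex.ofReal_im]
    nlinarith

theorem l2_roadR_convex : Convex ℝ P.roadR := by
  rintro z ⟨h1, h2, h3⟩ w ⟨h4, h5, h6⟩ a b ha hb hab
  have hb' : b = 1 - a := by linarith
  subst hb'
  refine ⟨?_, ?_, ?_⟩
  · simp only [Complex.add_re, Complex.real_smul, Complex.mul_re, Complex.ofReal_re,
      Complex.ofReal_im, h1, h4]
    ring
  · simp only [Complex.add_im, Complex.real_smul, Complex.mul_im, Complex.ofReal_re,
      Complex.ofReal_im]
    nlinarith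
  · simp only [Complex.add_im, Complex.real_smul, Complex.mul_im, Complex.ofReal_re,
      Complex.ofReal_im]
    nlinarith

/-- L2: distance of two points with the same real part -/
theorem l2_dist_vert {z w : ℂ} (h : z.re = w.re) : dist z w = |z.im - w.im| := by
  rw [Complex.dist_eq_re_im, h, sub_self, zero_pow two_ne_zero, zero_add, Real.sqrt_sq_eq_abs]

theorem l2_dist_q_le (m : ℕ) (σ : Bool) (j : ℕ) (t t' r r' : ℝ) :
    dist (P.q m σ j t r) (P.q m σ j t' r') ≤ |t - t'| + |r - r'| := by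
  calc dist (P.q m σ j t r) (P.q m σ j t' r')
      ≤ dist (P.q m σ j t r) (P.q m σ j t' r) + dist (P.q m σ j t' r) (P.q m σ j t' r') :=
        dist_triangle _ _ _
    _ = _ := by rw [P.dist_q_t, P.dist_q_r]

/-! ### L2: reachable sets -/

/-- L2: all the points of `S` are linked to `0` with bounded cost -/
def l2Good (Y S : Set ℂ) : Prop := ∃ C : ℝ, ∀ z ∈ S, Lk Y 0 z C

theorem l2Good.union {Y S T : Set ℂ} (h : l2Good Y S) (h' : l2Good Y T) : l2Good Y (S ∪ T) := by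
  obtain ⟨C, hC⟩ := h
  obtain ⟨C', hC'⟩ := h'
  refine ⟨max C C', ?_⟩
  rintro z (hz | hz)
  · exact (hC z hz).mono (le_max_left _ _)
  · exact (hC' z hz).mono (le_max_right _ _)

theorem l2Good.iUnion {ι : Type*} [Finite ι] {Y : Set ℂ} {S : ι → Set ℂ}
    (h : ∀ i, l2Good Y (S i)) : l2Good Y (⋃ i, S i) := by
  choose C hC using h
  obtain ⟨B, hB⟩ : ∃ B : ℝ, ∀ i, C i ≤ B := by
    rcases isEmpty_or_nonempty ι with he | he
    · exact ⟨0, fun i => he.elim i⟩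
    · obtain ⟨i₀, hi₀⟩ := Finite.exists_max C
      exact ⟨C i₀, hi₀⟩
  refine ⟨B, fun z hz => ?_⟩
  obtain ⟨i, hi⟩ := mem_iUnion.mp hz
  exact (hC i z hi).mono (hB i)

/-- L2: a convex set of bounded size which contains a good point is good -/
theorem l2Good.convex {Y S : Set ℂ} {C B : ℝ} (hS : Convex ℝ S) (hSY : S ⊆ Y) {p : ℂ} (hp : p ∈ S)
    (hC : Lk Y 0 p C) (hB : ∀ z ∈ S, dist p z ≤ B) : l2Good Y S :=
  ⟨C + B, fun z hz => (hC.trans (Lk.of_convex hS hSY hp hz)).mono (by linarith [hB z hz])⟩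

theorem l2_hW_tip (m : ℕ) (σ : Bool) :
    P.hW m σ + sg σ * (P.s * P.T + P.c * 0) = (2 * (m : ℝ) + 1) * (P.T * P.s) := by
  unfold hW
  cases σ <;> simp <;> ring

theorem l2_hW_bounds {m : ℕ} (hm : m < P.K) (σ : Bool) :
    0 ≤ P.hW m σ ∧ P.hW m σ ≤ P.b := by
  have h1 := P.Ts_pos
  have h2 : (m : ℝ) + 1 ≤ P.K := by exact_mod_cast hm
  have h3 : (0 : ℝ) ≤ m := Nat.cast_nonneg _
  unfold hW b
  cases σ
  · simp only [Bool.false_eq_true, if_false]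
    constructor
    · positivity
    · nlinarith
  · simp only [if_true, add_zero]
    constructor
    · positivity
    · nlinarith

theorem l2_good_roadL (X : Set ℂ) : l2Good (P.col X) P.roadL := by
  have h0 : (0 : ℂ) ∈ P.roadL := ⟨rfl, le_rfl, P.b_pos.le⟩
  refine ⟨P.b, fun z hz => ?_⟩
  refine (Lk.of_convex P.l2_roadL_convex (P.l2_roadL_sub X) h0 hz).mono ?_
  rw [l2_dist_vert (by rw [hz.1]; rfl), Complex.zero_im, zero_sub, abs_neg, abs_of_nonneg hz.2.1]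
  exact hz.2.2

theorem l2_good_arm_of {X : Set ℂ} {m : ℕ} (hm : m < P.K) (σ : Bool) {j : ℕ} (hj : j ≤ P.N)
    {t C : ℝ} (h0 : 0 ≤ t) (h1 : t ≤ P.T) (h : Lk (P.col X) 0 (P.q m σ j t 0) C) :
    l2Good (P.col X) (P.arm m σ j) := by
  refine l2Good.convex (B := P.T) (P.l2_arm_convex m σ j) (P.l2_arm_sub X hm σ hj)
    (P.l2_mem_arm m σ j h0 h1) h ?_
  rintro _ ⟨t', ht', rfl⟩
  rw [P.dist_q_t, abs_le]
  constructor <;> linarith [ht'.1, ht'.2]

theorem l2_good_arm_zero (X : Set ℂ) {m : ℕ} (hm : m < P.K) (σ : Bool) :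
    l2Good (P.col X) (P.arm m σ 0) := by
  obtain ⟨C, hC⟩ := P.l2_good_roadL X
  have htip : P.q m σ 0 P.T 0 ∈ P.roadL := by
    refine ⟨?_, ?_, ?_⟩
    · rw [q_re]; simp
    · rw [q_im, P.l2_hW_tip]
      have := P.Ts_pos
      positivity
    · rw [q_im, P.l2_hW_tip]
      have h1 := P.Ts_pos
      have h2 : (m : ℝ) + 1 ≤ P.K := by exact_mod_cast hm
      unfold b
      nlinarith
  exact P.l2_good_arm_of hm σ (Nat.zero_le _) (by linarith [P.Tpos]) le_rfl (hC _ htip)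

theorem l2_good_rect {X : Set ℂ} {m : ℕ} (hm : m < P.K) (σ : Bool) {j : ℕ} (hj : j < P.N)
    (h : l2Good (P.col X) (P.arm m σ j)) : l2Good (P.col X) (P.rect m σ j) := by
  obtain ⟨C, hC⟩ := h
  have hT := P.Tpos
  have hs := P.hs
  refine l2Good.convex (B := P.T + P.s) (P.l2_rect_convex m σ j) (P.l2_rect_sub X hm σ hj)
    (P.l2_mem_rect m σ j (t := 0) (r := 0) le_rfl (by linarith) le_rfl (by linarith))
    (hC _ (P.l2_mem_arm m σ j le_rfl (by linarith))) ?_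
  rintro _ ⟨t', ht', r', hr', rfl⟩
  refine (P.l2_dist_q_le m σ j _ _ _ _).trans ?_
  rw [zero_sub, zero_sub, abs_neg, abs_neg, abs_of_nonneg ht'.1, abs_of_nonneg hr'.1]
  linarith [ht'.2, hr'.2]

theorem l2_grid {i : ℕ} (hi : i < (P.T - 1) * P.M) :
    0 ≤ ((i + 1 : ℝ) / P.M) ∧ ((i + 1 : ℝ) / P.M) ≤ P.T - 1 := by
  have hM : (0 : ℝ) < P.M := by linarith [P.Mpos]
  have hT : 1 ≤ P.T := by have := P.hT; omega
  constructor
  · positivity
  · rw [div_le_iff₀ hM]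
    have h1 : (i : ℝ) + 1 ≤ ((P.T - 1 : ℕ) : ℝ) * P.M := by exact_mod_cast hi
    rw [Nat.cast_sub hT, Nat.cast_one] at h1
    exact h1

theorem l2_good_copy {A D : ℝ} {X : Set ℂ} (hX : Fake A D (P.s / (4 * P.M)) X) {m : ℕ}
    (hm : m < P.K) (σ : Bool) {j : ℕ} (hj : j < P.N) {i : ℕ} (hi : i < (P.T - 1) * P.M)
    (h : l2Good (P.col X) (P.rect m σ j)) : l2Good (P.col X) (P.copy X m σ j i) := by
  obtain ⟨C, hC⟩ := h
  have hs := P.hs
  have hg := P.l2_grid hi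
  refine ⟨C + ‖P.wv σ‖ * (A + 1), ?_⟩
  rintro _ ⟨ξ, hξ, rfl⟩
  have h1 := (hX.osc ξ hξ).affine (Y := P.col X) (P.q m σ j ((i + 1 : ℝ) / P.M) (P.s / 2))
    (P.wv σ) (P.wv_ne σ) (fun z hz => P.l2_copy_sub X hm σ hj hi ⟨z, hz, rfl⟩)
  rw [mul_zero, add_zero] at h1
  exact (hC _ (P.l2_mem_rect m σ j hg.1 hg.2 (by linarith) le_rfl)).trans h1

theorem l2_good_next {A D : ℝ} {X : Set ℂ} (hX : Fake A D (P.s / (4 * P.M)) X) {m : ℕ}
    (hm : m < P.K) (σ : Bool) {j : ℕ} (hj : j < P.N) {i : ℕ} (hi : i < (P.T - 1) * P.M)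
    (h : l2Good (P.col X) (P.copy X m σ j i)) : l2Good (P.col X) (P.arm m σ (j + 1)) := by
  obtain ⟨C, hC⟩ := h
  have hg := P.l2_grid hi
  have h1 := hC _ ⟨1, hX.one, rfl⟩
  simp only [mul_one] at h1
  rw [P.copy_end] at h1
  exact P.l2_good_arm_of hm σ hj hg.1 (by linarith) h1

theorem l2_good_arm {A D : ℝ} {X : Set ℂ} (hX : Fake A D (P.s / (4 * P.M)) X) {m : ℕ}
    (hm : m < P.K) (σ : Bool) {j : ℕ} (hj : j ≤ P.N) : l2Good (P.col X) (P.arm m σ j) := by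
  induction j with
  | zero => exact P.l2_good_arm_zero X hm σ
  | succ j ih =>
    have hj' : j < P.N := hj
    have h0 : 0 < (P.T - 1) * P.M := by
      have := P.hT
      have := P.hM
      exact Nat.mul_pos (by omega) (by omega)
    exact P.l2_good_next hX hm σ hj' h0
      (P.l2_good_copy hX hm σ hj' h0 (P.l2_good_rect hm σ hj' (ih hj'.le)))

theorem l2_good_roadR {A D : ℝ} {X : Set ℂ} (hX : Fake A D (P.s / (4 * P.M)) X) :
    l2Good (P.col X) P.roadR := by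
  have hK : 0 < P.K := by have := P.hK; omega
  obtain ⟨C, hC⟩ := P.l2_good_arm hX hK true (j := P.N) le_rfl
  have hb := P.l2_hW_bounds hK true
  have hp : P.q 0 true P.N 0 0 ∈ P.roadR := by
    refine ⟨?_, ?_, ?_⟩
    · rw [q_re]; unfold wd; ring
    · rw [q_im]; simpa using hb.1
    · rw [q_im]; simpa using hb.2
  refine l2Good.convex (B := P.b) P.l2_roadR_convex (P.l2_roadR_sub X) hp
    (hC _ (P.l2_mem_arm 0 true P.N le_rfl (by linarith [P.Tpos]))) ?_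
  intro z hz
  rw [l2_dist_vert (by rw [hz.1, hp.1]), abs_le]
  constructor <;> linarith [hz.2.1, hz.2.2, hp.2.1, hp.2.2]

theorem col_link {A D : ℝ} {X : Set ℂ} (hA : 1 ≤ A) (hX : Fake A D (P.s / (4 * P.M)) X) :
    ∃ C : ℝ, ∀ z ∈ P.col X, Lk (P.col X) 0 z C := by
  have _ := hA
  refine l2Good.union (l2Good.union (l2Good.union (P.l2_good_roadL X) (P.l2_good_roadR hX))
    (l2Good.union ?_ ?_)) ?_
  · refine l2Good.iUnion fun i => ?_
    exact P.l2_good_arm hX i.1.2 i.2.1 (Nat.le_of_lt_succ i.2.2.2)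
  · refine l2Good.iUnion fun i => ?_
    exact P.l2_good_rect i.1.2 i.2.1 i.2.2.2 (P.l2_good_arm hX i.1.2 i.2.1 i.2.2.2.le)
  · refine l2Good.iUnion fun i => ?_
    exact P.l2_good_copy hX i.1.2 i.2.1 i.2.2.1.2 i.2.2.2.2
      (P.l2_good_rect i.1.2 i.2.1 i.2.2.1.2 (P.l2_good_arm hX i.1.2 i.2.1 i.2.2.1.2.le))

end Par

end Pool.Agent.H20.D1
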