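import Pool.Agent.Lib.Helper20.D1.Rect
import Pool.Agent.Lib.Helper20.D1.Links2

/-!
# One step on one arm
-/

open Set Filter Topology MeasureTheory

namespace Pool.Agent.H20.D1

namespace Par

variable (P : Par)

/-- A1: the point of the grid next to `t` -/
theorem a1_grid {t : ℝ} (h0 : 0 ≤ t) (h1 : t ≤ P.T - 1) :
    ∃ i : ℕ, i < (P.T - 1) * P.M ∧ |t - (i + 1 : ℝ) / P.M| ≤ 1 / P.M := by
  have hM : (0 : ℝ) < P.M := by linarith [P.Mpos]
  have hT : 1 ≤ P.T := by have := P.hT; omega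
  have hpos : 0 < (P.T - 1) * P.M := by
    have := P.hT
    have := P.hM
    exact Nat.mul_pos (by omega) (by omega)
  have htM : 0 ≤ t * P.M := mul_nonneg h0 hM.le
  have hfl := Nat.floor_le htM
  have hfl2 := Nat.lt_floor_add_one (t * P.M)
  have key : ∀ i : ℕ, (i : ℝ) ≤ t * P.M → t * P.M ≤ (i : ℝ) + 2 →
      |t - (i + 1 : ℝ) / P.M| ≤ 1 / P.M := by
    intro i h2 h3
    have e : t - (i + 1 : ℝ) / P.M = (t * P.M - (i + 1)) / P.M := by
      field_simp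
    rw [e, abs_div, abs_of_pos hM]
    refine div_le_div_of_nonneg_right ?_ hM.le
    rw [abs_le]
    constructor <;> linarith
  by_cases hi : ⌊t * P.M⌋₊ < (P.T - 1) * P.M
  · exact ⟨_, hi, key _ hfl (by linarith)⟩
  · refine ⟨(P.T - 1) * P.M - 1, by omega, ?_⟩
    have h4 : t * P.M ≤ ((P.T - 1) * P.M : ℕ) := by
      push_cast [Nat.cast_sub hT]
      exact mul_le_mul_of_nonneg_right h1 hM.le
    have h5 : (((P.T - 1) * P.M : ℕ) : ℝ) ≤ t * P.M := by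
      refine le_trans ?_ hfl
      exact_mod_cast not_lt.mp hi
    have h6 : (((P.T - 1) * P.M - 1 : ℕ) : ℝ) = (((P.T - 1) * P.M : ℕ) : ℝ) - 1 := by
      rw [Nat.cast_sub hpos]; simp
    exact key _ (by rw [h6]; linarith) (by rw [h6]; linarith)

/-- A1: cost of a copy -/
theorem a1_copy {A D : ℝ} {X : Set ℂ} (hA : 1 ≤ A) (hX : Fake A D (P.s / (4 * P.M)) X)
    {f : ℂ → ℂ} (hf : D1b (P.col X) f) {m : ℕ} (hm : m < P.K) (σ : Bool) {j : ℕ} (hj : j < P.N)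
    {i : ℕ} (hi : i < (P.T - 1) * P.M) :
    ‖f (P.q m σ j ((i + 1 : ℝ) / P.M) (P.s / 2)) - f (P.q m σ (j + 1) ((i + 1 : ℝ) / P.M) 0)‖ ≤
      A := by
  have h1 := hX.link.affine (Y := P.col X) (P.q m σ j ((i + 1 : ℝ) / P.M) (P.s / 2))
    (P.wv σ) (P.wv_ne σ) (fun z hz => P.l2_copy_sub X hm σ hj hi ⟨z, hz, rfl⟩)
  rw [mul_zero, add_zero, mul_one, P.copy_end, P.norm_wv] at h1
  refine (h1.2 f hf).trans ?_
  nlinarith [P.el_le_one, P.el_nonneg]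

/-- A1: difference along an arm -/
theorem a1_arm {X : Set ℂ} {f : ℂ → ℂ} (hf : D1b (P.col X) f) {m : ℕ} (hm : m < P.K) (σ : Bool)
    {j : ℕ} (hj : j ≤ P.N) {t t' : ℝ} (h0 : 0 ≤ t) (h1 : t ≤ P.T) (h0' : 0 ≤ t') (h1' : t' ≤ P.T) :
    ‖f (P.q m σ j t 0) - f (P.q m σ j t' 0)‖ ≤ |t - t'| := by
  have := hf.convex (P.l2_arm_convex m σ j) (P.l2_arm_sub X hm σ hj)
    (P.l2_mem_arm m σ j h0 h1) (P.l2_mem_arm m σ j h0' h1')
  rwa [P.dist_q_t] at this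

/-- A1: difference on a rectangle -/
theorem a1_rect {X : Set ℂ} {f : ℂ → ℂ} (hf : D1b (P.col X) f) {m : ℕ} (hm : m < P.K) (σ : Bool)
    {j : ℕ} (hj : j < P.N) {t t' r r' : ℝ} (h0 : 0 ≤ t) (h1 : t ≤ P.T - 1) (h0' : 0 ≤ t')
    (h1' : t' ≤ P.T - 1) (h2 : 0 ≤ r) (h3 : r ≤ P.s / 2) (h2' : 0 ≤ r') (h3' : r' ≤ P.s / 2) :
    ‖f (P.q m σ j t r) - f (P.q m σ j t' r')‖ ≤ |t - t'| + |r - r'| :=
  (hf.convex (P.l2_rect_convex m σ j) (P.l2_rect_sub X hm σ hj)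
    (P.l2_mem_rect m σ j h0 h1 h2 h3) (P.l2_mem_rect m σ j h0' h1' h2' h3')).trans
    (P.l2_dist_q_le m σ j _ _ _ _)

/-- A1: one step at the parameter `t` -/
theorem a1_step {A D : ℝ} {X : Set ℂ} (hA : 1 ≤ A) (hX : Fake A D (P.s / (4 * P.M)) X)
    {f : ℂ → ℂ} (hf : D1b (P.col X) f) {m : ℕ} (hm : m < P.K) (σ : Bool) {j : ℕ} (hj : j < P.N)
    {t : ℝ} (h0 : 0 ≤ t) (h1 : t ≤ P.T - 1) :
    ‖f (P.q m σ (j + 1) t 0) - f (P.q m σ j t (P.s / 2))‖ ≤ A + 2 / P.M := by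
  obtain ⟨i, hi, hti⟩ := P.a1_grid h0 h1
  have hg := P.l2_grid hi
  have hs := P.hs
  have e1 := P.a1_arm hf hm σ (j := j + 1) hj h0 (by linarith) hg.1 (t' := (i + 1 : ℝ) / P.M)
    (by linarith)
  have e2 := P.a1_copy hA hX hf hm σ hj hi
  rw [norm_sub_rev] at e2
  have e3 := P.a1_rect hf hm σ hj (r := P.s / 2) (r' := P.s / 2) hg.1 hg.2 h0 h1 (by linarith)
    le_rfl (by linarith) le_rfl
  rw [sub_self, abs_zero, add_zero, abs_sub_comm] at e3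
  have e4 : f (P.q m σ (j + 1) t 0) - f (P.q m σ j t (P.s / 2)) =
      (f (P.q m σ (j + 1) t 0) - f (P.q m σ (j + 1) ((i + 1 : ℝ) / P.M) 0)) +
      (f (P.q m σ (j + 1) ((i + 1 : ℝ) / P.M) 0) -
        f (P.q m σ j ((i + 1 : ℝ) / P.M) (P.s / 2))) +
      (f (P.q m σ j ((i + 1 : ℝ) / P.M) (P.s / 2)) - f (P.q m σ j t (P.s / 2))) := by ring
  rw [e4]
  refine (norm_add₃_le).trans ?_
  have e5 : (2 : ℝ) / P.M = 1 / P.M + 1 / P.M := by ring
  rw [e5]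
  linarith

/-- A1: the last piece of an arm -/
theorem a1_last {A D : ℝ} {X : Set ℂ} (hA : 1 ≤ A) (hX : Fake A D (P.s / (4 * P.M)) X)
    {f : ℂ → ℂ} (hf : D1b (P.col X) f) {m : ℕ} (hm : m < P.K) (σ : Bool) {j : ℕ} (hj : j < P.N)
    {t : ℝ} (h0 : (P.T : ℝ) - 1 ≤ t) (h1 : t ≤ P.T) :
    ‖f (P.q m σ (j + 1) t 0) - f (P.q m σ j t 0)‖ ≤ A + 3 := by
  have hT := P.Tpos
  have hs := P.hs
  have hs' := P.hs'
  have hM : (0 : ℝ) < P.M := by linarith [P.Mpos]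
  obtain ⟨i, hi, hti⟩ : ∃ i : ℕ, i < (P.T - 1) * P.M ∧ (i + 1 : ℝ) / P.M = (P.T : ℝ) - 1 := by
    have hT1 : 1 ≤ P.T := by have := P.hT; omega
    have hpos : 0 < (P.T - 1) * P.M := by
      have := P.hT
      have := P.hM
      exact Nat.mul_pos (by omega) (by omega)
    refine ⟨(P.T - 1) * P.M - 1, by omega, ?_⟩
    rw [Nat.cast_sub hpos]
    push_cast [Nat.cast_sub hT1]
    field_simp
    ring
  have e2 := P.a1_copy hA hX hf hm σ hj hi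
  rw [hti, norm_sub_rev] at e2
  have e1 := P.a1_arm hf hm σ (j := j + 1) hj (t := t) (t' := (P.T : ℝ) - 1) (by linarith) h1
    (by linarith) (by linarith)
  have e3 := P.a1_rect hf hm σ hj (t := (P.T : ℝ) - 1) (t' := (P.T : ℝ) - 1) (r := P.s / 2) (r' := 0)
    (by linarith) le_rfl (by linarith) le_rfl (by linarith) le_rfl le_rfl (by linarith)
  have e4 := P.a1_arm hf hm σ (j := j) hj.le (t := (P.T : ℝ) - 1) (t' := t) (by linarith)
    (by linarith) (by linarith) h1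
  have e5 : f (P.q m σ (j + 1) t 0) - f (P.q m σ j t 0) =
      (f (P.q m σ (j + 1) t 0) - f (P.q m σ (j + 1) ((P.T : ℝ) - 1) 0)) +
      (f (P.q m σ (j + 1) ((P.T : ℝ) - 1) 0) - f (P.q m σ j ((P.T : ℝ) - 1) (P.s / 2))) +
      ((f (P.q m σ j ((P.T : ℝ) - 1) (P.s / 2)) - f (P.q m σ j ((P.T : ℝ) - 1) 0)) +
      (f (P.q m σ j ((P.T : ℝ) - 1) 0) - f (P.q m σ j t 0))) := by ring
  rw [e5]
  have a1 : |t - ((P.T : ℝ) - 1)| ≤ 1 := by rw [abs_le]; constructor <;> linarith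
  have a2 : |(P.T : ℝ) - 1 - t| ≤ 1 := by rw [abs_le]; constructor <;> linarith
  rw [sub_self, abs_zero, zero_add, sub_zero, abs_of_nonneg (by linarith : (0 : ℝ) ≤ P.s / 2)] at e3
  refine (norm_add₃_le).trans ?_
  refine (add_le_add le_rfl (norm_add_le _ _)).trans ?_
  linarith

theorem a1_cont_q (m : ℕ) (σ : Bool) (j : ℕ) : Continuous fun p : ℝ × ℝ => P.q m σ j p.1 p.2 := by
  have e : (fun p : ℝ × ℝ => P.q m σ j p.1 p.2) = fun p : ℝ × ℝ =>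
      ((((j : ℝ) + P.c * (P.T - p.1) + P.s * p.2 : ℝ) : ℂ) +
        ((P.hW m σ + sg σ * (P.s * p.1 + P.c * p.2) : ℝ) : ℂ) * Complex.I) := by
    funext p
    apply Complex.ext
    · simp [q_re]
    · simp [q_im]
  rw [e]
  fun_prop

/-- A1: integrability along an arm -/
theorem a1_int_arm {X : Set ℂ} {f : ℂ → ℂ} (hf : D1b (P.col X) f) {m : ℕ} (hm : m < P.K)
    (σ : Bool) {j : ℕ} (hj : j ≤ P.N) {a b : ℝ} (h0 : 0 ≤ a) (hab : a ≤ b) (h1 : b ≤ P.T) :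
    IntervalIntegrable (fun t => f (P.q m σ j t 0)) volume a b := by
  apply ContinuousOn.intervalIntegrable
  rw [uIcc_of_le hab]
  refine hf.contOn.comp (t := P.col X) ?_ ?_
  · exact ((P.a1_cont_q m σ j).comp (by fun_prop : Continuous fun t : ℝ => (t, (0 : ℝ)))).continuousOn
  · intro t ht
    exact P.l2_arm_sub X hm σ hj (P.l2_mem_arm m σ j (h0.trans ht.1) (ht.2.trans h1))

theorem a1_int_rect_t {X : Set ℂ} {f : ℂ → ℂ} (hf : D1b (P.col X) f) {m : ℕ} (hm : m < P.K)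
    (σ : Bool) {j : ℕ} (hj : j < P.N) {r : ℝ} (hr : 0 ≤ r) (hr' : r ≤ P.s / 2) :
    IntervalIntegrable (fun t => f (P.q m σ j t r)) volume 0 (P.T - 1) := by
  have hT := P.Tpos
  apply ContinuousOn.intervalIntegrable
  rw [uIcc_of_le (by linarith)]
  refine hf.contOn.comp (t := P.col X) ?_ ?_
  · exact ((P.a1_cont_q m σ j).comp (by fun_prop : Continuous fun t : ℝ => (t, r))).continuousOn
  · intro t ht
    exact P.l2_rect_sub X hm σ hj (P.l2_mem_rect m σ j ht.1 ht.2 hr hr')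

theorem a1_int_rect_r {X : Set ℂ} {f : ℂ → ℂ} (hf : D1b (P.col X) f) {m : ℕ} (hm : m < P.K)
    (σ : Bool) {j : ℕ} (hj : j < P.N) {t : ℝ} (ht : 0 ≤ t) (ht' : t ≤ P.T - 1) :
    IntervalIntegrable (fun r => f (P.q m σ j t r)) volume 0 (P.s / 2) := by
  have hs := P.hs
  apply ContinuousOn.intervalIntegrable
  rw [uIcc_of_le (by linarith)]
  refine hf.contOn.comp (t := P.col X) ?_ ?_
  · exact ((P.a1_cont_q m σ j).comp (by fun_prop : Continuous fun r : ℝ => (t, r))).continuousOn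
  · intro r hr
    exact P.l2_rect_sub X hm σ hj (P.l2_mem_rect m σ j ht ht' hr.1 hr.2)

/-- A1: norm of an integral of a function close to a constant -/
theorem a1_near_const {g : ℝ → ℂ} {c : ℂ} {b C : ℝ} (hb : 0 ≤ b)
    (hg : IntervalIntegrable g volume 0 b) (h : ∀ r ∈ Icc (0 : ℝ) b, ‖g r - c‖ ≤ C) :
    ‖(∫ r in (0 : ℝ)..b, g r) - (b : ℝ) * c‖ ≤ C * b := by
  have e : (∫ r in (0 : ℝ)..b, g r) - (b : ℝ) * c = ∫ r in (0 : ℝ)..b, (g r - c) := by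
    rw [intervalIntegral.integral_sub hg intervalIntegrable_const]
    simp
  rw [e]
  have := intervalIntegral.norm_integral_le_of_norm_le_const (a := 0) (b := b) (C := C)
    (f := fun r => g r - c) (fun r hr => h r (by
      rw [uIoc_of_le hb] at hr
      exact ⟨hr.1.le, hr.2⟩))
  rwa [sub_zero, abs_of_nonneg hb] at this

theorem a1_norm_sgI (σ : Bool) : ‖((sg σ : ℝ) : ℂ) * Complex.I‖ = 1 := by
  cases σ <;> simp

/-- One step on one arm. -/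
theorem arm_step {A D : ℝ} {X : Set ℂ} (hA : 1 ≤ A) (hX : Fake A D (P.s / (4 * P.M)) X)
    {f : ℂ → ℂ} (hf : D1b (P.col X) f) {m : ℕ} (hm : m < P.K) (σ : Bool) {j : ℕ} (hj : j < P.N) :
    ‖(∫ t in (0 : ℝ)..P.T, f (P.q m σ (j + 1) t 0)) - (∫ t in (0 : ℝ)..P.T, f (P.q m σ j t 0)) +
        (P.s / 2 : ℝ) * ((sg σ : ℂ) * Complex.I) * (f (P.q m σ j P.T 0) - f (P.q m σ j 0 0))‖ ≤
      (P.T - 1) * (A + 2 / P.M) + (A + 4) := by
  have hT := P.Tpos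
  have hs := P.hs
  have hs' := P.hs'
  have hT1 : (0 : ℝ) ≤ P.T - 1 := by linarith
  have hTT : (P.T : ℝ) - 1 ≤ P.T := by linarith
  -- split the integrals
  have s1 : (∫ t in (0 : ℝ)..P.T, f (P.q m σ (j + 1) t 0)) =
      (∫ t in (0 : ℝ)..((P.T : ℝ) - 1), f (P.q m σ (j + 1) t 0)) +
      ∫ t in ((P.T : ℝ) - 1)..P.T, f (P.q m σ (j + 1) t 0) :=
    (intervalIntegral.integral_add_adjacent_intervals
      (P.a1_int_arm hf hm σ (j := j + 1) hj le_rfl hT1 hTT)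
      (P.a1_int_arm hf hm σ (j := j + 1) hj hT1 hTT le_rfl)).symm
  have s0 : (∫ t in (0 : ℝ)..P.T, f (P.q m σ j t 0)) =
      (∫ t in (0 : ℝ)..((P.T : ℝ) - 1), f (P.q m σ j t 0)) +
      ∫ t in ((P.T : ℝ) - 1)..P.T, f (P.q m σ j t 0) :=
    (intervalIntegral.integral_add_adjacent_intervals
      (P.a1_int_arm hf hm σ hj.le le_rfl hT1 hTT)
      (P.a1_int_arm hf hm σ hj.le hT1 hTT le_rfl)).symm
  have hcau := P.rect_cauchy hf m σ j (P.l2_rect_sub X hm σ hj)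
  -- first piece
  have b1 : ‖(∫ t in (0 : ℝ)..((P.T : ℝ) - 1), f (P.q m σ (j + 1) t 0)) -
      ∫ t in (0 : ℝ)..((P.T : ℝ) - 1), f (P.q m σ j t (P.s / 2))‖ ≤ (A + 2 / P.M) * (P.T - 1) := by
    rw [← intervalIntegral.integral_sub (P.a1_int_arm hf hm σ (j := j + 1) hj le_rfl hT1 hTT)
      (P.a1_int_rect_t hf hm σ hj (by linarith) le_rfl)]
    have := intervalIntegral.norm_integral_le_of_norm_le_const (a := 0) (b := (P.T : ℝ) - 1)
      (C := A + 2 / P.M)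
      (f := fun t => f (P.q m σ (j + 1) t 0) - f (P.q m σ j t (P.s / 2))) (fun t ht => by
        rw [uIoc_of_le hT1] at ht
        exact P.a1_step hA hX hf hm σ hj ht.1.le ht.2)
    rwa [sub_zero, abs_of_nonneg hT1] at this
  -- last piece
  have b2 : ‖(∫ t in ((P.T : ℝ) - 1)..P.T, f (P.q m σ (j + 1) t 0)) -
      ∫ t in ((P.T : ℝ) - 1)..P.T, f (P.q m σ j t 0)‖ ≤ A + 3 := by
    rw [← intervalIntegral.integral_sub (P.a1_int_arm hf hm σ (j := j + 1) hj hT1 hTT le_rfl)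
      (P.a1_int_arm hf hm σ hj.le hT1 hTT le_rfl)]
    have := intervalIntegral.norm_integral_le_of_norm_le_const (a := (P.T : ℝ) - 1) (b := P.T)
      (C := A + 3)
      (f := fun t => f (P.q m σ (j + 1) t 0) - f (P.q m σ j t 0)) (fun t ht => by
        rw [uIoc_of_le hTT] at ht
        exact P.a1_last hA hX hf hm σ hj ht.1.le ht.2)
    rwa [sub_sub_cancel, abs_one, mul_one] at this
  -- end corrections
  have b3 : ‖(∫ r in (0 : ℝ)..(P.s / 2), f (P.q m σ j ((P.T : ℝ) - 1) r)) -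
      ((P.s / 2 : ℝ) : ℂ) * f (P.q m σ j P.T 0)‖ ≤ (1 + P.s / 2) * (P.s / 2) := by
    refine a1_near_const (by linarith) (P.a1_int_rect_r hf hm σ hj hT1 le_rfl) ?_
    intro r hr
    have e1 := P.a1_rect hf hm σ hj (t := (P.T : ℝ) - 1) (t' := (P.T : ℝ) - 1) (r := r) (r' := 0)
      hT1 le_rfl hT1 le_rfl hr.1 hr.2 le_rfl (by linarith)
    have e2 := P.a1_arm hf hm σ (j := j) hj.le (t := (P.T : ℝ) - 1) (t' := P.T) hT1
      hTT (by linarith) le_rfl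
    rw [sub_self, abs_zero, zero_add, sub_zero, abs_of_nonneg hr.1] at e1
    have a2 : |(P.T : ℝ) - 1 - P.T| ≤ 1 := by rw [abs_le]; constructor <;> linarith
    have e3 : f (P.q m σ j ((P.T : ℝ) - 1) r) - f (P.q m σ j P.T 0) =
      (f (P.q m σ j ((P.T : ℝ) - 1) r) - f (P.q m σ j ((P.T : ℝ) - 1) 0)) +
      (f (P.q m σ j ((P.T : ℝ) - 1) 0) - f (P.q m σ j P.T 0)) := by ring
    rw [e3]
    refine (norm_add_le _ _).trans ?_
    linarith [hr.2]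
  have b4 : ‖(∫ r in (0 : ℝ)..(P.s / 2), f (P.q m σ j 0 r)) -
      ((P.s / 2 : ℝ) : ℂ) * f (P.q m σ j 0 0)‖ ≤ (P.s / 2) * (P.s / 2) := by
    refine a1_near_const (by linarith) (P.a1_int_rect_r hf hm σ hj le_rfl hT1) ?_
    intro r hr
    have e1 := P.a1_rect hf hm σ hj (t := 0) (t' := 0) (r := r) (r' := 0)
      le_rfl hT1 le_rfl hT1 hr.1 hr.2 le_rfl (by linarith)
    rw [sub_self, abs_zero, zero_add, sub_zero, abs_of_nonneg hr.1] at e1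
    linarith [hr.2]
  set I1 := ∫ t in (0 : ℝ)..((P.T : ℝ) - 1), f (P.q m σ (j + 1) t 0)
  set I1' := ∫ t in ((P.T : ℝ) - 1)..P.T, f (P.q m σ (j + 1) t 0)
  set I0 := ∫ t in (0 : ℝ)..((P.T : ℝ) - 1), f (P.q m σ j t 0)
  set I0' := ∫ t in ((P.T : ℝ) - 1)..P.T, f (P.q m σ j t 0)
  set I2 := ∫ t in (0 : ℝ)..((P.T : ℝ) - 1), f (P.q m σ j t (P.s / 2))
  set J1 := ∫ r in (0 : ℝ)..(P.s / 2), f (P.q m σ j ((P.T : ℝ) - 1) r)
  set J0 := ∫ r in (0 : ℝ)..(P.s / 2), f (P.q m σ j 0 r)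
  set u := ((sg σ : ℝ) : ℂ) * Complex.I with hu
  rw [s1, s0]
  have e : I1 + I1' - (I0 + I0') +
      ((P.s / 2 : ℝ) : ℂ) * u * (f (P.q m σ j P.T 0) - f (P.q m σ j 0 0)) =
      (I1 - I2) + (I1' - I0') + (u * (((P.s / 2 : ℝ) : ℂ) * f (P.q m σ j P.T 0) - J1) +
        u * (J0 - ((P.s / 2 : ℝ) : ℂ) * f (P.q m σ j 0 0))) := by
    linear_combination hcau
  rw [e]
  have n3 : ‖u * (((P.s / 2 : ℝ) : ℂ) * f (P.q m σ j P.T 0) - J1)‖ ≤ (1 + P.s / 2) * (P.s / 2) := by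
    rw [norm_mul, hu, a1_norm_sgI, one_mul, norm_sub_rev]
    exact b3
  have n4 : ‖u * (J0 - ((P.s / 2 : ℝ) : ℂ) * f (P.q m σ j 0 0))‖ ≤ (P.s / 2) * (P.s / 2) := by
    rw [norm_mul, hu, a1_norm_sgI, one_mul]
    exact b4
  refine (norm_add₃_le).trans ?_
  refine (add_le_add le_rfl (norm_add_le _ _)).trans ?_
  nlinarith

end Par

end Pool.Agent.H20.D1
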