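import Pool.Agent.Lib.Helper20.D1.Arm

/-!
# The averages over the two roads
-/

open Set Filter Topology MeasureTheory

namespace Pool.Agent.H20.D1

namespace Par

variable (P : Par)

/-! ### Pieces and convexity -/

theorem avg_q_comb (m : ℕ) (σ : Bool) (j : ℕ) {x y : ℝ} (hxy : x + y = 1) (t r t' r' : ℝ) :
    x • P.q m σ j t r + y • P.q m σ j t' r' = P.q m σ j (x * t + y * t') (x * r + y * r') := by
  have hy : y = 1 - x := by linarith
  subst hy
  apply Complex.ext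
  · simp only [Complex.add_re, Complex.real_smul, Complex.re_ofReal_mul, q_re]
    ring
  · simp only [Complex.add_im, Complex.real_smul, Complex.im_ofReal_mul, q_im]
    ring

theorem avg_arm_convex (m : ℕ) (σ : Bool) (j : ℕ) : Convex ℝ (P.arm m σ j) := by
  rintro _ ⟨t, ht, rfl⟩ _ ⟨t', ht', rfl⟩ x y hx hy hxy
  refine ⟨x * t + y * t', (convex_Icc 0 (P.T : ℝ)) ht ht' hx hy hxy, ?_⟩
  have := P.avg_q_comb m σ j hxy t 0 t' 0
  simp only [mul_zero, add_zero] at this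
  exact this.symm

theorem avg_rect_convex (m : ℕ) (σ : Bool) (j : ℕ) : Convex ℝ (P.rect m σ j) := by
  rintro _ ⟨t, ht, r, hr, rfl⟩ _ ⟨t', ht', r', hr', rfl⟩ x y hx hy hxy
  exact ⟨x * t + y * t', (convex_Icc 0 ((P.T : ℝ) - 1)) ht ht' hx hy hxy,
    x * r + y * r', (convex_Icc 0 (P.s / 2)) hr hr' hx hy hxy, P.avg_q_comb m σ j hxy t r t' r'⟩

theorem avg_vert_convex (p b : ℝ) : Convex ℝ {z : ℂ | z.re = p ∧ 0 ≤ z.im ∧ z.im ≤ b} := by
  rintro x ⟨hx1, hx2, hx3⟩ y ⟨hy1, hy2, hy3⟩ s t h1 h2 h3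
  have e1 : (s • x + t • y).im = s * x.im + t * y.im := by simp
  have e2 : (s • x + t • y).re = s * x.re + t * y.re := by simp
  refine ⟨?_, ?_, ?_⟩
  · rw [e2, hx1, hy1, ← add_mul, h3, one_mul]
  · rw [e1]; positivity
  · rw [e1]
    calc _ ≤ s * b + t * b := add_le_add (mul_le_mul_of_nonneg_left hx3 h1) (mul_le_mul_of_nonneg_left hy3 h2)
      _ = b := by rw [← add_mul, h3, one_mul]

variable {X : Set ℂ}

theorem avg_roadL_sub : P.roadL ⊆ P.col X :=
  (subset_union_left.trans subset_union_left).trans subset_union_left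

theorem avg_roadR_sub : P.roadR ⊆ P.col X :=
  (subset_union_right.trans subset_union_left).trans subset_union_left

theorem avg_arm_sub {m : ℕ} (hm : m < P.K) (σ : Bool) {j : ℕ} (hj : j ≤ P.N) : P.arm m σ j ⊆ P.col X := by
  refine Subset.trans ?_ (((subset_union_left (t := ⋃ i : Fin P.K × Bool × Fin P.N, P.rect i.1 i.2.1 i.2.2)).trans
    (subset_union_right (s := P.roadL ∪ P.roadR))).trans subset_union_left)
  exact subset_iUnion (fun i : Fin P.K × Bool × Fin (P.N + 1) => P.arm i.1 i.2.1 i.2.2)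
    (⟨m, hm⟩, σ, ⟨j, Nat.lt_succ_of_le hj⟩)

theorem avg_rect_sub {m : ℕ} (hm : m < P.K) (σ : Bool) {j : ℕ} (hj : j < P.N) : P.rect m σ j ⊆ P.col X := by
  refine Subset.trans ?_ (((subset_union_right (s := ⋃ i : Fin P.K × Bool × Fin (P.N + 1), P.arm i.1 i.2.1 i.2.2)).trans
    (subset_union_right (s := P.roadL ∪ P.roadR))).trans subset_union_left)
  exact subset_iUnion (fun i : Fin P.K × Bool × Fin P.N => P.rect i.1 i.2.1 i.2.2) (⟨m, hm⟩, σ, ⟨j, hj⟩)

theorem avg_copy_sub {m : ℕ} (hm : m < P.K) (σ : Bool) {j : ℕ} (hj : j < P.N) {i : ℕ} (hi : i < (P.T - 1) * P.M) :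
    P.copy X m σ j i ⊆ P.col X :=
  (subset_iUnion (fun i : P.CI => P.cop X i) (⟨m, hm⟩, σ, ⟨j, hj⟩, ⟨i, hi⟩)).trans subset_union_right

theorem avg_arm_mem (m : ℕ) (σ : Bool) (j : ℕ) {t : ℝ} (ht : t ∈ Icc 0 (P.T : ℝ)) : P.q m σ j t 0 ∈ P.arm m σ j :=
  ⟨t, ht, rfl⟩

/-- heights stay in the box. -/
theorem avg_ht {m : ℕ} (hm : m < P.K) (σ : Bool) {t : ℝ} (ht : t ∈ Icc 0 (P.T : ℝ)) :
    0 ≤ P.hW m σ + sg σ * (P.s * t) ∧ P.hW m σ + sg σ * (P.s * t) ≤ P.b := by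
  have hTs := P.Ts_pos
  have h1 : P.s * t ≤ P.T * P.s := by nlinarith [P.hs, ht.2]
  have h2 : 0 ≤ P.s * t := mul_nonneg P.hs.le ht.1
  have h3 : ((m : ℝ) + 1) * (P.T * P.s) ≤ P.K * (P.T * P.s) := by
    apply mul_le_mul_of_nonneg_right _ hTs.le
    exact_mod_cast hm
  have h4 : 0 ≤ (m : ℝ) * (P.T * P.s) := by positivity
  unfold hW b
  cases σ
  · simp only [sg_false, Bool.false_eq_true, if_false]
    constructor <;> nlinarith
  · simp only [sg_true, if_true]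
    constructor <;> nlinarith

/-! ### Integrals over the roads -/

theorem avg_road_int (g : ℝ → ℂ) (hg : ContinuousOn g (Icc 0 P.b)) :
    ∫ y in (0 : ℝ)..P.b, g y = ∑ m ∈ Finset.range P.K, ∑ σ : Bool,
      (P.s : ℂ) * ∫ t in (0 : ℝ)..P.T, g (P.hW m σ + sg σ * (P.s * t)) := by
  have hTs := P.Ts_pos
  have hint : ∀ x y : ℝ, 0 ≤ x → x ≤ y → y ≤ P.b → IntervalIntegrable g volume x y := by
    intro x y hx hxy hy
    apply ContinuousOn.intervalIntegrable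
    rw [uIcc_of_le hxy]
    exact hg.mono (Icc_subset_Icc hx hy)
  have hle : ∀ m < P.K, 2 * ((m + 1 : ℕ) : ℝ) * (P.T * P.s) ≤ P.b := by
    intro m hm
    unfold b
    apply mul_le_mul_of_nonneg_right _ hTs.le
    have : ((m + 1 : ℕ) : ℝ) ≤ P.K := by exact_mod_cast hm
    linarith
  have h1 := intervalIntegral.sum_integral_adjacent_intervals (f := g) (μ := volume)
    (a := fun m : ℕ => 2 * (m : ℝ) * (P.T * P.s)) (n := P.K) (fun m hm => hint _ _ (by positivity)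
      (by push_cast; nlinarith) (hle m hm))
  simp only [Nat.cast_zero, mul_zero, zero_mul] at h1
  have hb : P.b = 2 * (P.K : ℝ) * (P.T * P.s) := rfl
  rw [hb, ← h1]
  apply Finset.sum_congr rfl
  intro m hm
  rw [Finset.mem_range] at hm
  rw [Fintype.sum_bool]
  have hle' := hle m hm
  have e1 : (∫ y in (2 * (m : ℝ) * (P.T * P.s))..(2 * ((m + 1 : ℕ) : ℝ) * (P.T * P.s)), g y)
      = (∫ y in (2 * (m : ℝ) * (P.T * P.s))..((2 * (m : ℝ) + 1) * (P.T * P.s)), g y)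
        + ∫ y in ((2 * (m : ℝ) + 1) * (P.T * P.s))..(2 * ((m + 1 : ℕ) : ℝ) * (P.T * P.s)), g y := by
    rw [intervalIntegral.integral_add_adjacent_intervals]
    · refine hint _ _ (by positivity) (by nlinarith) ?_
      push_cast at hle'
      nlinarith
    · exact hint _ _ (by positivity) (by push_cast; nlinarith) hle'
  rw [e1]
  congr 1
  · have h2 := intervalIntegral.smul_integral_comp_mul_add (f := g) (a := 0) (b := (P.T : ℝ)) P.s (P.hW m true)
    simp only [Complex.real_smul] at h2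
    have e2 : P.s * 0 + P.hW m true = 2 * (m : ℝ) * (P.T * P.s) := by simp [hW]
    have e3 : P.s * P.T + P.hW m true = (2 * (m : ℝ) + 1) * (P.T * P.s) := by simp [hW]; ring
    rw [e2, e3] at h2
    rw [← h2]
    congr 1
    apply intervalIntegral.integral_congr
    intro t _
    simp only [sg_true, one_mul]
    rw [add_comm]
  · have h2 := intervalIntegral.smul_integral_comp_sub_mul (f := g) (a := 0) (b := (P.T : ℝ)) P.s (P.hW m false)
    simp only [Complex.real_smul] at h2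
    have e2 : P.hW m false - P.s * P.T = (2 * (m : ℝ) + 1) * (P.T * P.s) := by simp [hW]; ring
    have e3 : P.hW m false - P.s * 0 = 2 * ((m + 1 : ℕ) : ℝ) * (P.T * P.s) := by simp [hW]
    rw [e2, e3] at h2
    rw [← h2]
    congr 1
    apply intervalIntegral.integral_congr
    intro t _
    simp only [sg_false]
    congr 1
    ring

section
variable {f : ℂ → ℂ} (hf : D1b (P.col X) f)
include hf

theorem avg_arm_integrable {m : ℕ} (hm : m < P.K) (σ : Bool) {j : ℕ} (hj : j ≤ P.N) :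
    IntervalIntegrable (fun t : ℝ => f (P.q m σ j t 0)) volume 0 P.T := by
  apply ContinuousOn.intervalIntegrable
  rw [uIcc_of_le (Nat.cast_nonneg _)]
  refine hf.contOn.comp (Continuous.continuousOn ?_) (fun t ht => P.avg_arm_sub hm σ hj (P.avg_arm_mem m σ j ht))
  have : (fun t : ℝ => P.q m σ j t 0) = fun t : ℝ => (((j : ℝ) + P.c * (P.T - t) + P.s * 0 : ℝ) : ℂ)
      + ((P.hW m σ + sg σ * (P.s * t + P.c * 0) : ℝ) : ℂ) * Complex.I := by
    funext t
    apply Complex.ext <;> simp [q]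
  rw [this]
  fun_prop

/-- comparison of the left road with the arm `0`. -/
theorem avg_ptL {m : ℕ} (hm : m < P.K) (σ : Bool) {t : ℝ} (ht : t ∈ Icc 0 (P.T : ℝ)) :
    ‖f (((P.hW m σ + sg σ * (P.s * t) : ℝ) : ℂ) * Complex.I) - f (P.q m σ 0 t 0)‖ ≤ 2 * P.T := by
  have hT : (P.T : ℝ) ∈ Icc 0 (P.T : ℝ) := ⟨Nat.cast_nonneg _, le_rfl⟩
  have z1 : (((P.hW m σ + sg σ * (P.s * t) : ℝ) : ℂ) * Complex.I) ∈ P.roadL := by
    refine ⟨by simp, ?_, ?_⟩
    · simpa using (P.avg_ht hm σ ht).1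
    · simpa using (P.avg_ht hm σ ht).2
  have z2 : P.q m σ 0 P.T 0 ∈ P.roadL := by
    refine ⟨by rw [q_re]; simp, ?_, ?_⟩
    · rw [q_im, mul_zero, add_zero]; exact (P.avg_ht hm σ hT).1
    · rw [q_im, mul_zero, add_zero]; exact (P.avg_ht hm σ hT).2
  have h1 := hf.convex (P.avg_arm_convex m σ 0) (P.avg_arm_sub hm σ (Nat.zero_le _)) (P.avg_arm_mem m σ 0 hT)
    (P.avg_arm_mem m σ 0 ht)
  rw [P.dist_q_t, abs_of_nonneg (by linarith [ht.2])] at h1
  have h2 := hf.convex (K := P.roadL) (avg_vert_convex 0 P.b) P.avg_roadL_sub z1 z2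
  have h3 : dist (((P.hW m σ + sg σ * (P.s * t) : ℝ) : ℂ) * Complex.I) (P.q m σ 0 P.T 0) ≤ P.s * (P.T - t) := by
    rw [dist_eq_norm]
    refine (Complex.norm_le_abs_re_add_abs_im _).trans ?_
    rw [Complex.sub_re, Complex.sub_im, q_re, q_im]
    have e1 : (((P.hW m σ + sg σ * (P.s * t) : ℝ) : ℂ) * Complex.I).re = 0 := by simp
    have e2 : (((P.hW m σ + sg σ * (P.s * t) : ℝ) : ℂ) * Complex.I).im = P.hW m σ + sg σ * (P.s * t) := by simp
    rw [e1, e2]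
    have e3 : (0 : ℝ) - (((0 : ℕ) : ℝ) + P.c * (P.T - P.T) + P.s * 0) = 0 := by simp
    have e4 : P.hW m σ + sg σ * (P.s * t) - (P.hW m σ + sg σ * (P.s * P.T + P.c * 0)) = sg σ * (P.s * (t - P.T)) := by ring
    rw [e3, e4, abs_zero, zero_add, abs_mul]
    have e5 : |sg σ| = 1 := by cases σ <;> simp
    rw [e5, one_mul, abs_of_nonpos (mul_nonpos_of_nonneg_of_nonpos P.hs.le (by linarith [ht.2]))]
    linarith
  have h4 := norm_add_le (f (((P.hW m σ + sg σ * (P.s * t) : ℝ) : ℂ) * Complex.I) - f (P.q m σ 0 P.T 0))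
    (f (P.q m σ 0 P.T 0) - f (P.q m σ 0 t 0))
  rw [sub_add_sub_cancel] at h4
  have h5 := P.hs'
  have h6 : P.s * (P.T - t) ≤ 1 * (P.T - t) := mul_le_mul_of_nonneg_right (by linarith) (by linarith [ht.2])
  linarith [ht.1]

/-- comparison of the right road with the arm `N`. -/
theorem avg_ptR {m : ℕ} (hm : m < P.K) (σ : Bool) {t : ℝ} (ht : t ∈ Icc 0 (P.T : ℝ)) :
    ‖f ((P.wd : ℂ) + ((P.hW m σ + sg σ * (P.s * t) : ℝ) : ℂ) * Complex.I) - f (P.q m σ P.N t 0)‖ ≤ 2 * P.T := by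
  have hT : (0 : ℝ) ∈ Icc 0 (P.T : ℝ) := ⟨le_rfl, Nat.cast_nonneg _⟩
  have z1 : ((P.wd : ℂ) + ((P.hW m σ + sg σ * (P.s * t) : ℝ) : ℂ) * Complex.I) ∈ P.roadR := by
    refine ⟨by simp, ?_, ?_⟩
    · simpa using (P.avg_ht hm σ ht).1
    · simpa using (P.avg_ht hm σ ht).2
  have z2 : P.q m σ P.N 0 0 ∈ P.roadR := by
    refine ⟨by rw [q_re, wd]; ring, ?_, ?_⟩
    · rw [q_im, mul_zero (P.c), add_zero]; exact (P.avg_ht hm σ hT).1
    · rw [q_im, mul_zero (P.c), add_zero]; exact (P.avg_ht hm σ hT).2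
  have h1 := hf.convex (P.avg_arm_convex m σ P.N) (P.avg_arm_sub hm σ le_rfl) (P.avg_arm_mem m σ P.N hT)
    (P.avg_arm_mem m σ P.N ht)
  rw [P.dist_q_t, zero_sub, abs_neg, abs_of_nonneg ht.1] at h1
  have h2 := hf.convex (K := P.roadR) (avg_vert_convex P.wd P.b) P.avg_roadR_sub z1 z2
  have h3 : dist ((P.wd : ℂ) + ((P.hW m σ + sg σ * (P.s * t) : ℝ) : ℂ) * Complex.I) (P.q m σ P.N 0 0) ≤ P.s * t := by
    rw [dist_eq_norm]
    refine (Complex.norm_le_abs_re_add_abs_im _).trans ?_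
    rw [Complex.sub_re, Complex.sub_im, q_re, q_im]
    have e1 : ((P.wd : ℂ) + ((P.hW m σ + sg σ * (P.s * t) : ℝ) : ℂ) * Complex.I).re = P.wd := by simp
    have e2 : ((P.wd : ℂ) + ((P.hW m σ + sg σ * (P.s * t) : ℝ) : ℂ) * Complex.I).im = P.hW m σ + sg σ * (P.s * t) := by simp
    rw [e1, e2]
    have e3 : P.wd - ((P.N : ℝ) + P.c * (P.T - 0) + P.s * 0) = 0 := by rw [wd]; ring
    have e4 : P.hW m σ + sg σ * (P.s * t) - (P.hW m σ + sg σ * (P.s * 0 + P.c * 0)) = sg σ * (P.s * t) := by ring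
    rw [e3, e4, abs_zero, zero_add, abs_mul]
    have e5 : |sg σ| = 1 := by cases σ <;> simp
    rw [e5, one_mul, abs_of_nonneg (mul_nonneg P.hs.le ht.1)]
  have h4 := norm_add_le (f ((P.wd : ℂ) + ((P.hW m σ + sg σ * (P.s * t) : ℝ) : ℂ) * Complex.I) - f (P.q m σ P.N 0 0))
    (f (P.q m σ P.N 0 0) - f (P.q m σ P.N t 0))
  rw [sub_add_sub_cancel] at h4
  have h5 := P.hs'
  have h6 : P.s * t ≤ 1 * t := mul_le_mul_of_nonneg_right (by linarith) ht.1
  linarith [ht.2]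

/-- step of the tips. -/
theorem avg_tip_step {A D : ℝ} (hA : 1 ≤ A) (hX : Fake A D (P.s / (4 * P.M)) X) (hM3 : 3 ≤ P.M) {m : ℕ} (hm : m < P.K)
    (σ : Bool) {j : ℕ} (hj : j < P.N) : ‖f (P.q m σ j 0 0) - f (P.q m σ (j + 1) 0 0)‖ ≤ A + 1 := by
  have hM : (3 : ℝ) ≤ P.M := by exact_mod_cast hM3
  have hMi : 1 / (P.M : ℝ) ≤ 1 / 3 := one_div_le_one_div_of_le (by norm_num) hM
  have hMp : 0 < 1 / (P.M : ℝ) := by positivity
  have hT := P.Tpos
  have hs := P.hs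
  have hs' := P.hs'
  -- rectangle
  have h1 : ‖f (P.q m σ j 0 0) - f (P.q m σ j (1 / P.M) (P.s / 2))‖ ≤ 1 / P.M + P.s / 2 := by
    refine (hf.convex (P.avg_rect_convex m σ j) (P.avg_rect_sub hm σ hj)
      ⟨0, ⟨le_rfl, by linarith⟩, 0, ⟨le_rfl, by linarith⟩, rfl⟩
      ⟨1 / P.M, ⟨hMp.le, by linarith⟩, P.s / 2, ⟨by linarith, le_rfl⟩, rfl⟩).trans ?_
    refine (dist_triangle _ (P.q m σ j (1 / P.M) 0) _).trans ?_
    rw [P.dist_q_t, P.dist_q_r, zero_sub, zero_sub, abs_neg, abs_neg, abs_of_pos hMp, abs_of_pos (by linarith)]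
  -- copy
  have hi : 0 < (P.T - 1) * P.M := Nat.mul_pos (by have := P.hT; omega) (by omega)
  have h2 : ‖f (P.q m σ j (1 / P.M) (P.s / 2)) - f (P.q m σ (j + 1) (1 / P.M) 0)‖ ≤ A := by
    have hl := (hX.link.affine (Y := P.copy X m σ j 0) (P.q m σ j (((0 : ℕ) + 1 : ℝ) / P.M) (P.s / 2)) (P.wv σ) (P.wv_ne σ)
      (fun z hz => ⟨z, hz, rfl⟩)).2 f (hf.mono (P.avg_copy_sub hm σ hj hi))
    rw [mul_zero, add_zero, mul_one, P.copy_end, P.norm_wv] at hl
    simp only [Nat.cast_zero, zero_add] at hl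
    refine hl.trans ?_
    have := P.el_le_one
    nlinarith
  -- arm
  have h3 : ‖f (P.q m σ (j + 1) (1 / P.M) 0) - f (P.q m σ (j + 1) 0 0)‖ ≤ 1 / P.M := by
    refine (hf.convex (P.avg_arm_convex m σ (j + 1)) (P.avg_arm_sub hm σ hj)
      (P.avg_arm_mem m σ (j + 1) ⟨hMp.le, by linarith⟩)
      (P.avg_arm_mem m σ (j + 1) ⟨le_rfl, by linarith⟩)).trans ?_
    rw [P.dist_q_t, sub_zero, abs_of_pos hMp]
  have h4 : ‖f (P.q m σ j 0 0) - f (P.q m σ (j + 1) 0 0)‖ ≤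
      ‖f (P.q m σ j 0 0) - f (P.q m σ j (1 / P.M) (P.s / 2))‖
      + ‖f (P.q m σ j (1 / P.M) (P.s / 2)) - f (P.q m σ (j + 1) (1 / P.M) 0)‖
      + ‖f (P.q m σ (j + 1) (1 / P.M) 0) - f (P.q m σ (j + 1) 0 0)‖ := by
    have e : f (P.q m σ j 0 0) - f (P.q m σ (j + 1) 0 0) = (f (P.q m σ j 0 0) - f (P.q m σ j (1 / P.M) (P.s / 2)))
      + (f (P.q m σ j (1 / P.M) (P.s / 2)) - f (P.q m σ (j + 1) (1 / P.M) 0))
      + (f (P.q m σ (j + 1) (1 / P.M) 0) - f (P.q m σ (j + 1) 0 0)) := by ring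
    rw [e]
    exact norm_add₃_le
  linarith

theorem avg_tip {A D : ℝ} (hA : 1 ≤ A) (hX : Fake A D (P.s / (4 * P.M)) X) (hM3 : 3 ≤ P.M) {m : ℕ} (hm : m < P.K)
    (σ : Bool) : ∀ k : ℕ, k ≤ P.N →
    ‖f (P.q m σ (P.N - k) 0 0) - f (P.q m σ P.N 0 0)‖ ≤ k * (A + 1) := by
  intro k
  induction k with
  | zero => intro _; simp
  | succ k ih =>
    intro hk
    have h1 := ih (by omega)
    have h2 := P.avg_tip_step hf hA hX hM3 hm σ (j := P.N - (k + 1)) (by omega)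
    have e : P.N - (k + 1) + 1 = P.N - k := by omega
    rw [e] at h2
    have h3 := norm_add_le (f (P.q m σ (P.N - (k + 1)) 0 0) - f (P.q m σ (P.N - k) 0 0))
      (f (P.q m σ (P.N - k) 0 0) - f (P.q m σ P.N 0 0))
    rw [sub_add_sub_cancel] at h3
    push_cast
    linarith

/-- The end terms. -/
theorem avg_ends {A D : ℝ} (hA : 1 ≤ A) (hX : Fake A D (P.s / (4 * P.M)) X) (hM3 : 3 ≤ P.M)
    (hNb : 2 * (P.N : ℝ) ≤ P.b) {j : ℕ} (hj : j < P.N) :
    ‖∑ m ∈ Finset.range P.K, ∑ σ : Bool, ((sg σ : ℂ) * Complex.I) * (f (P.q m σ j P.T 0) - f (P.q m σ j 0 0))‖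
      ≤ (A + 2) * P.b := by
  have hK1 := P.hK
  have e1 : ∀ m ∈ Finset.range P.K, ∑ σ : Bool, ((sg σ : ℂ) * Complex.I) * (f (P.q m σ j P.T 0) - f (P.q m σ j 0 0))
      = Complex.I * f (P.q (m + 1) true j 0 0) - Complex.I * f (P.q m true j 0 0) := by
    intro m _
    have a1 : P.q m true j P.T 0 = P.q m false j P.T 0 := by
      apply Complex.ext
      · simp [q_re]
      · simp [q_im, hW]; ring
    have a2 : P.q m false j 0 0 = P.q (m + 1) true j 0 0 := by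
      apply Complex.ext
      · simp [q_re]
      · simp [q_im, hW]
    rw [Fintype.sum_bool, a1, a2]
    simp only [sg_true, sg_false, Complex.ofReal_one, Complex.ofReal_neg]
    ring
  rw [Finset.sum_congr rfl e1, Finset.sum_range_sub (fun m => Complex.I * f (P.q m true j 0 0)), ← mul_sub, norm_mul,
    Complex.norm_I, one_mul]
  obtain ⟨K', hK'⟩ : ∃ K', P.K = K' + 1 := ⟨P.K - 1, by omega⟩
  have a3 : ∀ i, P.q P.K true i 0 0 = P.q K' false i 0 0 := by
    intro i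
    rw [hK']
    apply Complex.ext
    · simp [q_re]
    · simp [q_im, hW]
  rw [a3]
  have b1 := P.avg_tip hf hA hX hM3 (m := K') (by omega) false (P.N - j) (by omega)
  have b2 := P.avg_tip hf hA hX hM3 (m := 0) (by omega) true (P.N - j) (by omega)
  have e2 : P.N - (P.N - j) = j := by omega
  rw [e2] at b1 b2
  have b0 := P.b_pos
  have b3 : ‖f (P.q K' false P.N 0 0) - f (P.q 0 true P.N 0 0)‖ ≤ P.b := by
    have y1 : P.q K' false P.N 0 0 = ⟨P.wd, P.b⟩ := by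
      rw [← a3]
      apply Complex.ext
      · simp [q_re, wd]; ring
      · simp [q_im, hW, b]
    have y2 : P.q 0 true P.N 0 0 = ⟨P.wd, 0⟩ := by
      apply Complex.ext
      · simp [q_re, wd]; ring
      · simp [q_im, hW]
    rw [y1, y2]
    refine (hf.convex (K := P.roadR) (avg_vert_convex P.wd P.b) P.avg_roadR_sub
      ⟨rfl, b0.le, le_rfl⟩ ⟨rfl, le_rfl, b0.le⟩).trans ?_
    rw [dist_eq_norm]
    refine (Complex.norm_le_abs_re_add_abs_im _).trans ?_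
    simp [abs_of_pos b0]
  have hk : ((P.N - j : ℕ) : ℝ) ≤ P.N := by exact_mod_cast Nat.sub_le _ _
  have b4 : ((P.N - j : ℕ) : ℝ) * (A + 1) ≤ P.N * (A + 1) := mul_le_mul_of_nonneg_right hk (by linarith)
  have b5 : ‖f (P.q K' false j 0 0) - f (P.q 0 true j 0 0)‖ ≤
      ‖f (P.q K' false j 0 0) - f (P.q K' false P.N 0 0)‖ + ‖f (P.q K' false P.N 0 0) - f (P.q 0 true P.N 0 0)‖
      + ‖f (P.q 0 true j 0 0) - f (P.q 0 true P.N 0 0)‖ := by
    have e : f (P.q K' false j 0 0) - f (P.q 0 true j 0 0) = (f (P.q K' false j 0 0) - f (P.q K' false P.N 0 0))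
      + (f (P.q K' false P.N 0 0) - f (P.q 0 true P.N 0 0)) - (f (P.q 0 true j 0 0) - f (P.q 0 true P.N 0 0)) := by ring
    rw [e]
    exact (norm_sub_le _ _).trans (add_le_add (norm_add_le _ _) le_rfl)
  have b6 : 2 * (P.N : ℝ) * (A + 1) ≤ P.b * (A + 1) := mul_le_mul_of_nonneg_right hNb (by linarith)
  linarith

end

/-- The road averages. -/
theorem col_avg {A D : ℝ} {X : Set ℂ} (hA : 1 ≤ A) (hX : Fake A D (P.s / (4 * P.M)) X) (hM3 : 3 ≤ P.M)
    (hNb : 2 * (P.N : ℝ) ≤ P.b) {f : ℂ → ℂ} (hf : D1b (P.col X) f) :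
    ‖(∫ y in (0 : ℝ)..P.b, f ((P.wd : ℂ) + (y : ℂ) * Complex.I)) -
      ∫ y in (0 : ℝ)..P.b, f ((y : ℂ) * Complex.I)‖ ≤
    P.b * (P.N * (A + 2 / P.M + (A + 4) / P.T + (A + 2) * P.s ^ 2 / 2) + 4 * P.T) := by
  have hs := P.hs
  have hT := P.Tpos
  have hb := P.b_pos
  have hMp := P.Mpos
  -- the roads as sums
  have cR : ContinuousOn (fun y : ℝ => f ((P.wd : ℂ) + (y : ℂ) * Complex.I)) (Icc 0 P.b) := by
    refine hf.contOn.comp (by fun_prop) (fun y hy => P.avg_roadR_sub ⟨by simp, ?_, ?_⟩)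
    · simpa using hy.1
    · simpa using hy.2
  have cL : ContinuousOn (fun y : ℝ => f ((y : ℂ) * Complex.I)) (Icc 0 P.b) := by
    refine hf.contOn.comp (by fun_prop) (fun y hy => P.avg_roadL_sub ⟨by simp, ?_, ?_⟩)
    · simpa using hy.1
    · simpa using hy.2
  have rR := P.avg_road_int _ cR
  have rL := P.avg_road_int _ cL
  rw [rR, rL]
  -- arm sums
  set I : ℕ → Bool → ℕ → ℂ := fun m σ j => ∫ t in (0 : ℝ)..P.T, f (P.q m σ j t 0) with hI
  have hRoad : ∀ (g : ℝ → ℂ), ContinuousOn g (Icc 0 P.b) → ∀ j ≤ P.N, (∀ m < P.K, ∀ σ : Bool, ∀ t ∈ Icc (0 : ℝ) P.T,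
      ‖g (P.hW m σ + sg σ * (P.s * t)) - f (P.q m σ j t 0)‖ ≤ 2 * P.T) →
      ‖(∑ m ∈ Finset.range P.K, ∑ σ : Bool, (P.s : ℂ) * ∫ t in (0 : ℝ)..P.T, g (P.hW m σ + sg σ * (P.s * t)))
        - ∑ m ∈ Finset.range P.K, ∑ σ : Bool, (P.s : ℂ) * I m σ j‖ ≤ P.b * (2 * P.T) := by
    intro g hg j hj H
    rw [← Finset.sum_sub_distrib]
    have h1 : ∀ m ∈ Finset.range P.K, ‖(∑ σ : Bool, (P.s : ℂ) * ∫ t in (0 : ℝ)..P.T, g (P.hW m σ + sg σ * (P.s * t)))
        - ∑ σ : Bool, (P.s : ℂ) * I m σ j‖ ≤ 2 * (P.s * (2 * P.T * P.T)) := by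
      intro m hm
      rw [Finset.mem_range] at hm
      rw [← Finset.sum_sub_distrib]
      have h2 : ∀ σ ∈ (Finset.univ : Finset Bool), ‖(P.s : ℂ) * (∫ t in (0 : ℝ)..P.T, g (P.hW m σ + sg σ * (P.s * t)))
          - (P.s : ℂ) * I m σ j‖ ≤ P.s * (2 * P.T * P.T) := by
        intro σ _
        rw [← mul_sub, norm_mul, Complex.norm_real, Real.norm_eq_abs, abs_of_pos hs]
        apply mul_le_mul_of_nonneg_left _ hs.le
        have ci : IntervalIntegrable (fun t : ℝ => g (P.hW m σ + sg σ * (P.s * t))) volume 0 P.T := by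
          apply ContinuousOn.intervalIntegrable
          rw [uIcc_of_le (Nat.cast_nonneg _)]
          exact hg.comp (by fun_prop) (fun t ht => P.avg_ht hm σ ht)
        rw [hI]
        simp only []
        rw [← intervalIntegral.integral_sub ci (P.avg_arm_integrable hf hm σ hj)]
        have h3 := intervalIntegral.norm_integral_le_of_norm_le_const (a := (0 : ℝ)) (b := (P.T : ℝ)) (C := 2 * P.T)
          (f := fun t : ℝ => g (P.hW m σ + sg σ * (P.s * t)) - f (P.q m σ j t 0)) (fun t ht => ?_)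
        · rwa [sub_zero, abs_of_pos (by linarith)] at h3
        · rw [uIoc_of_le (Nat.cast_nonneg _)] at ht
          exact H m hm σ t ⟨ht.1.le, ht.2⟩
      refine (norm_sum_le_of_le _ h2).trans ?_
      simp
    refine (norm_sum_le_of_le _ h1).trans ?_
    rw [Finset.sum_const, Finset.card_range, nsmul_eq_mul]
    apply le_of_eq
    unfold b; ring
  have hR := hRoad _ cR P.N le_rfl (fun m hm σ t ht => P.avg_ptR hf hm σ ht)
  have hL := hRoad _ cL 0 (Nat.zero_le _) (fun m hm σ t ht => P.avg_ptL hf hm σ ht)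
  set SR := ∑ m ∈ Finset.range P.K, ∑ σ : Bool,
    (P.s : ℂ) * ∫ t in (0 : ℝ)..P.T, f ((P.wd : ℂ) + ((P.hW m σ + sg σ * (P.s * t) : ℝ) : ℂ) * Complex.I) with hSR
  set SL := ∑ m ∈ Finset.range P.K, ∑ σ : Bool,
    (P.s : ℂ) * ∫ t in (0 : ℝ)..P.T, f (((P.hW m σ + sg σ * (P.s * t) : ℝ) : ℂ) * Complex.I) with hSL
  -- steps
  set J : ℕ → ℂ := fun j => ∑ m ∈ Finset.range P.K, ∑ σ : Bool, (P.s : ℂ) * I m σ j with hJ
  have hstep : ∀ j < P.N, ‖J (j + 1) - J j‖ ≤ P.b * (A + 2 / P.M + (A + 4) / P.T + (A + 2) * P.s ^ 2 / 2) := by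
    intro j hj
    set E : ℕ → Bool → ℂ := fun m σ => ((sg σ : ℂ) * Complex.I) * (f (P.q m σ j P.T 0) - f (P.q m σ j 0 0)) with hE
    have e1 : J (j + 1) - J j = ∑ m ∈ Finset.range P.K, ∑ σ : Bool,
          (P.s : ℂ) * (I m σ (j + 1) - I m σ j + (P.s / 2 : ℝ) * E m σ)
        - (P.s : ℂ) * (P.s / 2 : ℝ) * ∑ m ∈ Finset.range P.K, ∑ σ : Bool, E m σ := by
      simp only [hJ]
      rw [Finset.mul_sum, ← Finset.sum_sub_distrib, ← Finset.sum_sub_distrib]
      apply Finset.sum_congr rfl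
      intro m _
      rw [Finset.mul_sum, ← Finset.sum_sub_distrib, ← Finset.sum_sub_distrib]
      apply Finset.sum_congr rfl
      intro σ _
      ring
    have e2 := P.avg_ends hf hA hX hM3 hNb hj
    have e3 : ∀ m ∈ Finset.range P.K, ‖∑ σ : Bool, (P.s : ℂ) * (I m σ (j + 1) - I m σ j + (P.s / 2 : ℝ) * E m σ)‖
        ≤ 2 * (P.s * ((P.T - 1) * (A + 2 / P.M) + (A + 4))) := by
      intro m hm
      rw [Finset.mem_range] at hm
      have h2 : ∀ σ ∈ (Finset.univ : Finset Bool), ‖(P.s : ℂ) * (I m σ (j + 1) - I m σ j + (P.s / 2 : ℝ) * E m σ)‖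
          ≤ P.s * ((P.T - 1) * (A + 2 / P.M) + (A + 4)) := by
        intro σ _
        rw [norm_mul, Complex.norm_real, Real.norm_eq_abs, abs_of_pos hs]
        apply mul_le_mul_of_nonneg_left _ hs.le
        have := P.arm_step hA hX hf hm σ hj
        rw [mul_assoc] at this
        exact this
      refine (norm_sum_le_of_le _ h2).trans ?_
      simp
    rw [e1]
    refine (norm_sub_le _ _).trans ?_
    have e4 := norm_sum_le_of_le _ e3
    rw [Finset.sum_const, Finset.card_range, nsmul_eq_mul] at e4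
    have e5 : ‖(P.s : ℂ) * (P.s / 2 : ℝ) * ∑ m ∈ Finset.range P.K, ∑ σ : Bool, E m σ‖ ≤ P.s * (P.s / 2) * ((A + 2) * P.b) := by
      rw [norm_mul, norm_mul, Complex.norm_real, Complex.norm_real, Real.norm_eq_abs, Real.norm_eq_abs, abs_of_pos hs,
        abs_of_pos (by linarith)]
      exact mul_le_mul_of_nonneg_left e2 (by positivity)
    have e6 : (P.K : ℝ) * (2 * (P.s * ((P.T - 1) * (A + 2 / P.M) + (A + 4)))) ≤ P.b * (A + 2 / P.M + (A + 4) / P.T) := by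
      have h0 : 0 ≤ A + 2 / (P.M : ℝ) := by positivity
      have h1 : ((P.T : ℝ) - 1) * (A + 2 / P.M) + (A + 4) ≤ P.T * (A + 2 / P.M + (A + 4) / P.T) := by
        have : (P.T : ℝ) * ((A + 4) / P.T) = A + 4 := by field_simp
        rw [mul_add (P.T : ℝ), this]
        nlinarith
      have h2 : P.b * (A + 2 / P.M + (A + 4) / P.T) = (P.K : ℝ) * (2 * (P.s * (P.T * (A + 2 / P.M + (A + 4) / P.T)))) := by
        unfold b; ring
      rw [h2]
      apply mul_le_mul_of_nonneg_left _ (Nat.cast_nonneg _)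
      apply mul_le_mul_of_nonneg_left _ (by norm_num)
      exact mul_le_mul_of_nonneg_left h1 hs.le
    calc _ ≤ P.b * (A + 2 / P.M + (A + 4) / P.T) + P.s * (P.s / 2) * ((A + 2) * P.b) := add_le_add (e4.trans e6) e5
      _ = _ := by ring
  have htel : ‖J P.N - J 0‖ ≤ P.N * (P.b * (A + 2 / P.M + (A + 4) / P.T + (A + 2) * P.s ^ 2 / 2)) := by
    rw [← Finset.sum_range_sub]
    refine (norm_sum_le_of_le _ (fun j hj => hstep j (Finset.mem_range.mp hj))).trans ?_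
    rw [Finset.sum_const, Finset.card_range, nsmul_eq_mul]
  have e : SR - SL = (SR - J P.N) + (J P.N - J 0) - (SL - J 0) := by ring
  rw [e]
  refine (norm_sub_le _ _).trans ?_
  have e7 := norm_add_le (SR - J P.N) (J P.N - J 0)
  calc _ ≤ P.b * (2 * P.T) + P.N * (P.b * (A + 2 / P.M + (A + 4) / P.T + (A + 2) * P.s ^ 2 / 2)) + P.b * (2 * P.T) := by
        linarith
    _ = _ := by ring

end Par

end Pool.Agent.H20.D1
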