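import Mathlib

/-!
# Fake corridors: basic notions (MP_d30fbe_an)

`D1b X f`: `f` is in `D^(1)(X)` with derivative bounded by one.
`LocLip X h`: pointwise local Lipschitz constant at most one on `X`.
`Lk X z w c`: `z, w` are joined in `X` and `|f z - f w| <= c` for all `D1b` functions.
`Poly X`: finite union of nondegenerate compact convex sets.
-/

open Set Filter Topology

namespace Pool.Agent.H20.D1

/-- `f` is differentiable along `X`, with continuous derivative bounded by one. -/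
def D1b (X : Set ℂ) (f : ℂ → ℂ) : Prop :=
  ∃ g : ℂ → ℂ, ContinuousOn g X ∧ ∀ a ∈ X, HasDerivWithinAt f (g a) X a ∧ ‖g a‖ ≤ 1

/-- local Lipschitz constant at most one at every point of `X`. -/
def LocLip (X : Set ℂ) (h : ℂ → ℝ) : Prop :=
  ∀ z ∈ X, ∃ δ > 0, ∀ w ∈ X, dist w z < δ → |h w - h z| ≤ dist w z

/-- link with cost `c`. -/
def Lk (X : Set ℂ) (z w : ℂ) (c : ℝ) : Prop :=
  JoinedIn X z w ∧ ∀ f, D1b X f → ‖f z - f w‖ ≤ c

/-- finite union of nondegenerate compact convex sets. -/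
def Poly (X : Set ℂ) : Prop :=
  ∃ S : Set (Set ℂ), S.Finite ∧ ⋃₀ S = X ∧ ∀ K ∈ S, IsCompact K ∧ Convex ℝ K ∧ K.Nontrivial

theorem D1b.mono {X Y : Set ℂ} {f : ℂ → ℂ} (h : D1b Y f) (hXY : X ⊆ Y) : D1b X f := by
  obtain ⟨g, hg, hd⟩ := h
  exact ⟨g, hg.mono hXY, fun a ha => ⟨(hd a (hXY ha)).1.mono hXY, (hd a (hXY ha)).2⟩⟩

theorem D1b.affine {X Y : Set ℂ} {f : ℂ → ℂ} (h : D1b Y f) (a b : ℂ) (hb : b ≠ 0)
    (hXY : ∀ z ∈ X, a + b * z ∈ Y) : D1b X (fun z => f (a + b * z) / b) := by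
  obtain ⟨g, hg, hd⟩ := h
  refine ⟨fun z => g (a + b * z), ?_, ?_⟩
  · exact hg.comp (by fun_prop) hXY
  · intro z hz
    refine ⟨?_, (hd _ (hXY z hz)).2⟩
    have h1 : HasDerivWithinAt (fun z : ℂ => a + b * z) b X z := by
      simpa using (((hasDerivAt_id z).const_mul b).const_add a).hasDerivWithinAt
    have h2 := (hd _ (hXY z hz)).1.comp z h1 hXY
    have h3 := h2.div_const b
    have h4 : g (a + b * z) * b / b = g (a + b * z) := by field_simp
    rw [h4] at h3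
    exact h3

theorem D1b.contOn {X : Set ℂ} {f : ℂ → ℂ} (h : D1b X f) : ContinuousOn f X := by
  obtain ⟨g, -, hd⟩ := h
  exact fun a ha => (hd a ha).1.continuousWithinAt

theorem D1b.convex {X K : Set ℂ} {f : ℂ → ℂ} (h : D1b X f) (hK : Convex ℝ K) (hKX : K ⊆ X)
    {z w : ℂ} (hz : z ∈ K) (hw : w ∈ K) : ‖f z - f w‖ ≤ dist z w := by
  obtain ⟨g, -, hd⟩ := h.mono hKX
  have := Convex.norm_image_sub_le_of_norm_hasDerivWithin_le (f := f) (f' := g) (C := 1) (s := K)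
    (fun x hx => (hd x hx).1) (fun x hx => (hd x hx).2) hK hw hz
  rw [dist_eq_norm]
  linarith

namespace Lk

variable {X Y : Set ℂ} {z w v : ℂ} {c c' : ℝ}

theorem symm (h : Lk X z w c) : Lk X w z c :=
  ⟨h.1.symm, fun f hf => by rw [norm_sub_rev]; exact h.2 f hf⟩

theorem trans (h : Lk X z w c) (h' : Lk X w v c') : Lk X z v (c + c') :=
  ⟨h.1.trans h'.1, fun f hf => by
    calc ‖f z - f v‖ = ‖(f z - f w) + (f w - f v)‖ := by ring_nf
      _ ≤ ‖f z - f w‖ + ‖f w - f v‖ := norm_add_le _ _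
      _ ≤ c + c' := add_le_add (h.2 f hf) (h'.2 f hf)⟩

theorem mono (h : Lk X z w c) (hc : c ≤ c') : Lk X z w c' :=
  ⟨h.1, fun f hf => (h.2 f hf).trans hc⟩

theorem mono_set (h : Lk X z w c) (hXY : X ⊆ Y) : Lk Y z w c :=
  ⟨h.1.mono hXY, fun f hf => h.2 f (hf.mono hXY)⟩

theorem of_convex {K : Set ℂ} (hK : Convex ℝ K) (hKX : K ⊆ X) (hz : z ∈ K) (hw : w ∈ K) :
    Lk X z w (dist z w) := by
  refine ⟨?_, fun f hf => hf.convex hK hKX hz hw⟩
  have : IsPathConnected K := hK.isPathConnected ⟨z, hz⟩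
  exact (this.joinedIn z hz w hw).mono hKX

theorem affine (h : Lk X z w c) (a b : ℂ) (hb : b ≠ 0) (hXY : ∀ z ∈ X, a + b * z ∈ Y) :
    Lk Y (a + b * z) (a + b * w) (‖b‖ * c) := by
  refine ⟨?_, ?_⟩
  · obtain ⟨γ, hγ⟩ := h.1
    have hc : Continuous (fun z : ℂ => a + b * z) := by fun_prop
    refine ⟨γ.map hc, fun t => ?_⟩
    simpa using hXY _ (hγ t)
  · intro f hf
    have h1 := h.2 _ (hf.affine a b hb hXY)
    have h2 : f (a + b * z) / b - f (a + b * w) / b = (f (a + b * z) - f (a + b * w)) / b := by ring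
    rw [h2, norm_div] at h1
    rw [div_le_iff₀ (norm_pos_iff.mpr hb)] at h1
    linarith

end Lk

/-! ### Local Lipschitz functions -/

theorem LocLip.mono_of_isClosed {X : Set ℂ} {h : ℂ → ℝ} (hh : LocLip X h) {Y : Set ℂ}
    (hY : Y ⊆ X) : LocLip Y h := by
  intro z hz
  obtain ⟨δ, hδ, H⟩ := hh z (hY hz)
  exact ⟨δ, hδ, fun w hw hd => H w (hY hw) hd⟩

theorem LocLip.congr {X : Set ℂ} {h h' : ℂ → ℝ} (hh : LocLip X h) (he : ∀ z ∈ X, h' z = h z) :
    LocLip X h' := by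
  intro z hz
  obtain ⟨δ, hδ, H⟩ := hh z hz
  exact ⟨δ, hδ, fun w hw hd => by rw [he w hw, he z hz]; exact H w hw hd⟩

/-- gluing along finite families of closed sets. -/
theorem LocLip.iUnion {ι : Type*} [Finite ι] {P : ι → Set ℂ} (hP : ∀ i, IsClosed (P i))
    {h : ℂ → ℝ} (hl : ∀ i, LocLip (P i) h) : LocLip (⋃ i, P i) h := by
  classical
  intro z hz
  have key : ∀ i, ∃ δ > 0, ∀ w ∈ P i, dist w z < δ → |h w - h z| ≤ dist w z := by
    intro i
    by_cases hi : z ∈ P i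
    · exact hl i z hi
    · have : (P i)ᶜ ∈ 𝓝 z := (hP i).isOpen_compl.mem_nhds hi
      obtain ⟨δ, hδ, H⟩ := Metric.mem_nhds_iff.mp this
      exact ⟨δ, hδ, fun w hw hd => absurd hw (H (by simpa using hd))⟩
  choose δ hδ H using key
  obtain ⟨d, hd, hdi⟩ : ∃ d > 0, ∀ i, d ≤ δ i := by
    rcases isEmpty_or_nonempty ι with he | he
    · exact ⟨1, one_pos, fun i => he.elim i⟩
    · obtain ⟨i₀, hi₀⟩ := Finite.exists_min δ
      exact ⟨δ i₀, hδ i₀, hi₀⟩
  refine ⟨d, hd, fun w hw hdist => ?_⟩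
  obtain ⟨i, hi⟩ := mem_iUnion.mp hw
  exact H i w hi (hdist.trans_le (hdi i))

theorem LocLip.union {A B : Set ℂ} (hA : IsClosed A) (hB : IsClosed B) {h : ℂ → ℝ}
    (h1 : LocLip A h) (h2 : LocLip B h) : LocLip (A ∪ B) h := by
  have : A ∪ B = ⋃ b : Bool, (if b then A else B) := by
    ext z; simp [mem_iUnion, Bool.exists_bool, or_comm]
  rw [this]
  apply LocLip.iUnion
  · intro i; cases i <;> simpa
  · intro i; cases i <;> simpa

/-- glue a base with a family. -/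
theorem LocLip.glue {ι : Type*} [Finite ι] {B : Set ℂ} {C : ι → Set ℂ} (hB : IsClosed B)
    (hC : ∀ i, IsClosed (C i)) {h0 : ℂ → ℝ} {h : ι → ℂ → ℝ} (l0 : LocLip B h0)
    (l : ∀ i, LocLip (C i) (h i)) (c0 : ∀ i, ∀ z ∈ B, z ∈ C i → h0 z = h i z)
    (cc : ∀ i j z, z ∈ C i → z ∈ C j → h i z = h j z) :
    ∃ H : ℂ → ℝ, LocLip (B ∪ ⋃ i, C i) H ∧ (∀ z ∈ B, H z = h0 z) ∧
      ∀ i, ∀ z ∈ C i, H z = h i z := by
  classical
  let H : ℂ → ℝ := fun z => if z ∈ B then h0 z else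
    if hz : ∃ i, z ∈ C i then h hz.choose z else 0
  have hHB : ∀ z ∈ B, H z = h0 z := fun z hz => by simp [H, hz]
  have hHC : ∀ i, ∀ z ∈ C i, H z = h i z := by
    intro i z hz
    by_cases hzB : z ∈ B
    · rw [hHB z hzB, c0 i z hzB hz]
    · have hex : ∃ i, z ∈ C i := ⟨i, hz⟩
      simp only [H, hzB, if_false, hex, dif_pos]
      exact cc _ _ z hex.choose_spec hz
  refine ⟨H, ?_, hHB, hHC⟩
  apply LocLip.union hB (isClosed_iUnion_of_finite hC) (l0.congr hHB)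
  exact LocLip.iUnion hC (fun i => (l i).congr (hHC i))

theorem LocLip.const (X : Set ℂ) (c : ℝ) : LocLip X (fun _ => c) :=
  fun z _ => ⟨1, one_pos, fun w _ _ => by simp⟩

theorem LocLip.of_lip {X : Set ℂ} {h : ℂ → ℝ} (hl : ∀ z ∈ X, ∀ w ∈ X, |h w - h z| ≤ dist w z) :
    LocLip X h :=
  fun z hz => ⟨1, one_pos, fun w hw _ => hl z hz w hw⟩

theorem LocLip.affine {X : Set ℂ} {h : ℂ → ℝ} (hh : LocLip X h) (a b : ℂ) (hb : b ≠ 0) (c : ℝ) :
    LocLip ((fun z => a + b * z) '' X) (fun z => c + ‖b‖ * h ((z - a) / b)) := by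
  rintro _ ⟨z, hz, rfl⟩
  obtain ⟨δ, hδ, H⟩ := hh z hz
  have hb' : 0 < ‖b‖ := norm_pos_iff.mpr hb
  refine ⟨‖b‖ * δ, by positivity, ?_⟩
  rintro _ ⟨w, hw, rfl⟩ hd
  have e1 : dist (a + b * w) (a + b * z) = ‖b‖ * dist w z := by
    rw [dist_eq_norm, dist_eq_norm, ← norm_mul]; ring_nf
  rw [e1] at hd
  have hd' : dist w z < δ := lt_of_mul_lt_mul_left hd hb'.le
  have e2 : (a + b * w - a) / b = w := by field_simp; ring
  have e3 : (a + b * z - a) / b = z := by field_simp; ring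
  simp only []
  rw [e1, e2, e3]
  have : c + ‖b‖ * h w - (c + ‖b‖ * h z) = ‖b‖ * (h w - h z) := by ring
  rw [this, abs_mul, abs_of_pos hb']
  exact mul_le_mul_of_nonneg_left (H w hw hd') hb'.le

/-- paths are at least as long as the increase of a locally 1-Lipschitz function. -/
theorem LocLip.length {X : Set ℂ} {h : ℂ → ℝ} (hh : LocLip X h) {γ : ℝ → ℂ} {a b : ℝ}
    (hab : a ≤ b) (hc : ContinuousOn γ (Icc a b)) (hX : ∀ t ∈ Icc a b, γ t ∈ X) :
    ENNReal.ofReal |h (γ b) - h (γ a)| ≤ eVariationOn γ (Icc a b) := by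
  -- the set of good parameters
  let Q : Set ℝ := {t | t ∈ Icc a b ∧ ENNReal.ofReal |h (γ t) - h (γ a)| ≤ eVariationOn γ (Icc a t)}
  have haQ : a ∈ Q := ⟨⟨le_rfl, hab⟩, by simp⟩
  have loc : ∀ t ∈ Icc a b, ∃ η > 0, ∀ t' ∈ Icc a b, |t' - t| < η →
      |h (γ t') - h (γ t)| ≤ dist (γ t') (γ t) := by
    intro t ht
    obtain ⟨δ, hδ, H⟩ := hh (γ t) (hX t ht)
    have := Metric.continuousWithinAt_iff.mp (hc t ht) δ hδ
    obtain ⟨η, hη, H'⟩ := this
    refine ⟨η, hη, fun t' ht' hd => H _ (hX t' ht') (H' ht' (by rwa [Real.dist_eq]))⟩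
  -- step along a short interval
  have step : ∀ t ∈ Q, ∀ t' ∈ Icc a b, t ≤ t' → |h (γ t') - h (γ t)| ≤ dist (γ t') (γ t) →
      t' ∈ Q := by
    intro t ht t' ht' htt' hdist
    refine ⟨ht', ?_⟩
    have h1 : |h (γ t') - h (γ a)| ≤ |h (γ t) - h (γ a)| + dist (γ t') (γ t) := by
      calc |h (γ t') - h (γ a)| = |(h (γ t) - h (γ a)) + (h (γ t') - h (γ t))| := by ring_nf
        _ ≤ |h (γ t) - h (γ a)| + |h (γ t') - h (γ t)| := abs_add_le _ _
        _ ≤ _ := by linarith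
    have h2 : edist (γ t') (γ t) ≤ eVariationOn γ (Icc t t') :=
      eVariationOn.edist_le γ ⟨htt', le_rfl⟩ ⟨le_rfl, htt'⟩
    have h3 : eVariationOn γ (Icc a t) + eVariationOn γ (Icc t t') = eVariationOn γ (Icc a t') := by
      have := eVariationOn.Icc_add_Icc γ (s := univ) ht.1.1 htt' (mem_univ t)
      simpa using this
    calc ENNReal.ofReal |h (γ t') - h (γ a)|
        ≤ ENNReal.ofReal (|h (γ t) - h (γ a)| + dist (γ t') (γ t)) := ENNReal.ofReal_le_ofReal h1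
      _ = ENNReal.ofReal |h (γ t) - h (γ a)| + edist (γ t') (γ t) := by
          rw [ENNReal.ofReal_add (abs_nonneg _) dist_nonneg, edist_dist]
      _ ≤ eVariationOn γ (Icc a t) + eVariationOn γ (Icc t t') := add_le_add ht.2 h2
      _ = _ := h3
  -- supremum argument
  have hQb : BddAbove Q := ⟨b, fun t ht => ht.1.2⟩
  set u := sSup Q with hu
  have hau : a ≤ u := le_csSup hQb haQ
  have hub : u ≤ b := csSup_le ⟨a, haQ⟩ (fun t ht => ht.1.2)
  obtain ⟨η, hη, H⟩ := loc u ⟨hau, hub⟩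
  have huQ : u ∈ Q := by
    obtain ⟨t, htQ, htu⟩ := exists_lt_of_lt_csSup ⟨a, haQ⟩ (show u - η < sSup Q by linarith)
    have htle : t ≤ u := le_csSup hQb htQ
    refine step t htQ u ⟨hau, hub⟩ htle ?_
    have := H t htQ.1 (by rw [abs_lt]; constructor <;> linarith)
    rw [abs_sub_comm, dist_comm]
    exact this
  have hub' : u = b := by
    by_contra hne
    have hlt : u < b := lt_of_le_of_ne hub hne
    set t' := min b (u + η / 2) with ht'
    have h1 : u < t' := lt_min hlt (by linarith)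
    have h2 : t' ≤ b := min_le_left _ _
    have h3 : t' ≤ u + η / 2 := min_le_right _ _
    have : t' ∈ Q := step u huQ t' ⟨by linarith, h2⟩ h1.le
      (H t' ⟨by linarith, h2⟩ (by rw [abs_lt]; constructor <;> linarith))
    exact absurd (le_csSup hQb this) (not_le.mpr h1)
  rw [hub'] at huQ
  exact huQ.2

/-! ### Poly -/

theorem Poly.isCompact {X : Set ℂ} (h : Poly X) : IsCompact X := by
  obtain ⟨S, hS, rfl, hK⟩ := h
  exact hS.isCompact_sUnion fun K hK' => (hK K hK').1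

theorem Poly.union {X Y : Set ℂ} (hX : Poly X) (hY : Poly Y) : Poly (X ∪ Y) := by
  obtain ⟨S, hS, rfl, hK⟩ := hX
  obtain ⟨S', hS', rfl, hK'⟩ := hY
  refine ⟨S ∪ S', hS.union hS', by rw [sUnion_union], ?_⟩
  rintro K (h | h)
  · exact hK K h
  · exact hK' K h

theorem Poly.iUnion {ι : Type*} [Finite ι] {P : ι → Set ℂ} (hP : ∀ i, Poly (P i)) :
    Poly (⋃ i, P i) := by
  choose S hS hU hK using hP
  refine ⟨⋃ i, S i, finite_iUnion hS, ?_, ?_⟩
  · rw [sUnion_iUnion]; exact iUnion_congr hU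
  · intro K hK'
    obtain ⟨i, hi⟩ := mem_iUnion.mp hK'
    exact hK i K hi

theorem Poly.of_convex {K : Set ℂ} (h1 : IsCompact K) (h2 : Convex ℝ K) (h3 : K.Nontrivial) :
    Poly K := ⟨{K}, finite_singleton _, by simp, by rintro _ rfl; exact ⟨h1, h2, h3⟩⟩

theorem Poly.affine {X : Set ℂ} (h : Poly X) (a b : ℂ) (hb : b ≠ 0) :
    Poly ((fun z => a + b * z) '' X) := by
  obtain ⟨S, hS, rfl, hK⟩ := h
  refine ⟨(fun K => (fun z => a + b * z) '' K) '' S, hS.image _, ?_, ?_⟩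
  · rw [sUnion_image, sUnion_eq_biUnion, image_iUnion₂]
  · rintro _ ⟨K, hKS, rfl⟩
    obtain ⟨h1, h2, h3⟩ := hK K hKS
    refine ⟨h1.image (by fun_prop), ?_, ?_⟩
    · rintro _ ⟨x, hx, rfl⟩ _ ⟨y, hy, rfl⟩ s t hs ht hst
      refine ⟨s • x + t • y, h2 hx hy hs ht hst, ?_⟩
      have e : ((s : ℂ) + (t : ℂ)) = 1 := by rw [← Complex.ofReal_add, hst, Complex.ofReal_one]
      simp only [Complex.real_smul]
      calc a + b * ((s : ℂ) * x + (t : ℂ) * y) = ((s : ℂ) + (t : ℂ)) * a + b * (s * x + t * y) := by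
            rw [e, one_mul]
        _ = _ := by ring
    · exact h3.image (fun x y hxy => by
        have : b * x = b * y := by simpa using hxy
        exact mul_left_cancel₀ hb this)

end Pool.Agent.H20.D1
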