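import Pool.Agent.Lib.Helper20.D1.ColumnDef

/-!
# From columns to fake corridors

Put `G` translates of the column side by side (`G` large), add a short horizontal straight segment
of length `σ >= b / ρ` at both ends (at height `0`), and rescale to unit length.
-/

open Set Filter Topology

namespace Pool.Agent.H20.D1

/-! ### scaling -/

/-- raw corridor of length `L` -/
structure Raw (L A D ρ : ℝ) (X : Set ℂ) : Prop where
  poly : Poly X
  diam : ∀ z ∈ X, |z.im| ≤ ρ * z.re ∧ |z.im| ≤ ρ * (L - z.re)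
  zero : (0 : ℂ) ∈ X
  one : (L : ℂ) ∈ X
  link : Lk X 0 L (A * L)
  osc : ∀ z ∈ X, Lk X 0 z ((A + 1) * L)
  pot : ∃ h : ℂ → ℝ, LocLip X h ∧ h 0 = 0 ∧ h L = D * L

theorem Raw.fake {L A D ρ : ℝ} {X : Set ℂ} (h : Raw L A D ρ X) (hL : 0 < L) :
    Fake A D ρ ((fun z => 0 + ((L⁻¹ : ℝ) : ℂ) * z) '' X) := by
  have hb : ((L⁻¹ : ℝ) : ℂ) ≠ 0 := by
    rw [Ne, Complex.ofReal_eq_zero]; positivity
  have hn : ‖((L⁻¹ : ℝ) : ℂ)‖ = L⁻¹ := by
    rw [Complex.norm_real, Real.norm_of_nonneg (by positivity)]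
  have hLc : ((L⁻¹ : ℝ) : ℂ) * (L : ℂ) = 1 := by
    rw [← Complex.ofReal_mul, inv_mul_cancel₀ hL.ne', Complex.ofReal_one]
  have hX : ∀ z ∈ X, 0 + ((L⁻¹ : ℝ) : ℂ) * z ∈ ((fun z => 0 + ((L⁻¹ : ℝ) : ℂ) * z) '' X) :=
    fun z hz => ⟨z, hz, rfl⟩
  refine ⟨h.poly.affine _ _ hb, ?_, ?_, ?_, ?_, ?_, ?_⟩
  · rintro _ ⟨z, hz, rfl⟩
    obtain ⟨h1, h2⟩ := h.diam z hz
    have e1 : (0 + ((L⁻¹ : ℝ) : ℂ) * z).im = L⁻¹ * z.im := by simp
    have e2 : (0 + ((L⁻¹ : ℝ) : ℂ) * z).re = L⁻¹ * z.re := by simp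
    have hLi : 0 < L⁻¹ := by positivity
    have hLL : L⁻¹ * L = 1 := inv_mul_cancel₀ hL.ne'
    simp only [e1, e2]
    rw [abs_mul, abs_of_pos hLi]
    constructor
    · have := mul_le_mul_of_nonneg_left h1 hLi.le
      linarith
    · have := mul_le_mul_of_nonneg_left h2 hLi.le
      have e3 : L⁻¹ * (ρ * (L - z.re)) = ρ * (L⁻¹ * L - L⁻¹ * z.re) := by ring
      rw [e3, hLL] at this
      exact this
  · exact ⟨0, h.zero, by simp⟩
  · exact ⟨L, h.one, by simp only [zero_add]; exact hLc⟩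
  · have := h.link.affine 0 _ hb hX
    rw [hn] at this
    simp only [zero_add, mul_zero, hLc] at this
    have e : L⁻¹ * (A * L) = A := by field_simp
    rw [e] at this
    simpa using this
  · rintro _ ⟨z, hz, rfl⟩
    have := (h.osc z hz).affine 0 _ hb hX
    rw [hn] at this
    have e : L⁻¹ * ((A + 1) * L) = A + 1 := by field_simp
    rw [e] at this
    simpa using this
  · obtain ⟨g, hg, h0, h1⟩ := h.pot
    refine ⟨_, hg.affine 0 _ hb 0, ?_, ?_⟩
    · simp [h0]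
    · rw [hn]
      have e : ((1 : ℂ) - 0) / ((L⁻¹ : ℝ) : ℂ) = L := by
        rw [sub_zero, div_eq_iff hb, mul_comm, hLc]
      rw [e, h1]
      field_simp
      ring

/-! ### segments on the real axis -/

theorem C_seg_mem {a b : ℝ} (hab : a ≤ b) {z : ℂ} (hz : z ∈ segment ℝ (a : ℂ) (b : ℂ)) :
    z.im = 0 ∧ a ≤ z.re ∧ z.re ≤ b := by
  obtain ⟨s, t, hs, ht, hst, rfl⟩ := hz
  have e1 : ((s • (a : ℂ) + t • (b : ℂ)) : ℂ).im = 0 := by simp
  have e2 : ((s • (a : ℂ) + t • (b : ℂ)) : ℂ).re = s * a + t * b := by simp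
  have ha : (s + t) * a = a := by rw [hst, one_mul]
  have hb' : (s + t) * b = b := by rw [hst, one_mul]
  refine ⟨e1, ?_, ?_⟩
  · rw [e2]; nlinarith [mul_le_mul_of_nonneg_left hab ht]
  · rw [e2]; nlinarith [mul_le_mul_of_nonneg_left hab hs]

theorem C_seg_compact (a b : ℂ) : IsCompact (segment ℝ a b) := by
  rw [segment_eq_image_lineMap]
  exact isCompact_Icc.image AffineMap.lineMap_continuous

theorem C_seg_poly {a b : ℝ} (hab : a < b) : Poly (segment ℝ (a : ℂ) (b : ℂ)) := by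
  refine Poly.of_convex (C_seg_compact _ _) (convex_segment _ _)
    ⟨a, left_mem_segment ℝ _ _, b, right_mem_segment ℝ _ _, ?_⟩
  intro h
  exact hab.ne (Complex.ofReal_injective h)

theorem C_seg_dist {a b : ℝ} (hab : a ≤ b) {z : ℂ} (hz : z ∈ segment ℝ (a : ℂ) (b : ℂ)) :
    dist (a : ℂ) z ≤ b - a := by
  obtain ⟨h1, h2, h3⟩ := C_seg_mem hab hz
  have e : z = ((z.re : ℝ) : ℂ) := by
    apply Complex.ext <;> simp [h1]
  rw [e, Complex.dist_of_im_eq (by simp)]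
  simp only [Complex.ofReal_re]
  rw [Real.dist_eq, abs_sub_comm, abs_of_nonneg (by linarith)]
  linarith

/-! ### the row of columns -/

/-- abscissa of the left side of column `g` -/
def cx (σ w : ℝ) (g : ℕ) : ℝ := σ + g * w

/-- column `g` -/
def colg (σ w : ℝ) (Y : Set ℂ) (g : ℕ) : Set ℂ := (fun z => ((cx σ w g : ℝ) : ℂ) + 1 * z) '' Y

/-- the row -/
def row (σ w : ℝ) (G : ℕ) (Y : Set ℂ) : Set ℂ :=
  (segment ℝ ((0 : ℝ) : ℂ) ((σ : ℝ) : ℂ) ∪
    segment ℝ ((cx σ w G : ℝ) : ℂ) ((cx σ w G + σ : ℝ) : ℂ)) ∪ ⋃ g : Fin G, colg σ w Y g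

section

variable {w b A D σ : ℝ} {Y : Set ℂ} {G : ℕ}

theorem cx_succ (g : ℕ) : cx σ w (g + 1) = cx σ w g + w := by
  unfold cx; push_cast; ring

theorem row_S0 : segment ℝ ((0 : ℝ) : ℂ) ((σ : ℝ) : ℂ) ⊆ row σ w G Y :=
  fun _ hz => Or.inl (Or.inl hz)

theorem row_S1 : segment ℝ ((cx σ w G : ℝ) : ℂ) ((cx σ w G + σ : ℝ) : ℂ) ⊆ row σ w G Y :=
  fun _ hz => Or.inl (Or.inr hz)

theorem row_col {g : ℕ} (hg : g < G) : colg σ w Y g ⊆ row σ w G Y :=
  fun _ hz => Or.inr (mem_iUnion.2 ⟨⟨g, hg⟩, hz⟩)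

theorem row_colz {g : ℕ} (hg : g < G) (z : ℂ) (hz : z ∈ Y) :
    ((cx σ w g : ℝ) : ℂ) + 1 * z ∈ row σ w G Y := row_col hg ⟨z, hz, rfl⟩

theorem row_road (h : Column w b A D Y) (hG : 0 < G) {g : ℕ} (hg : g ≤ G) {y : ℝ} (h0 : 0 ≤ y)
    (h1 : y ≤ b) : ((cx σ w g : ℝ) : ℂ) + (y : ℂ) * Complex.I ∈ row σ w G Y := by
  rcases Nat.lt_or_ge g G with hlt | hge
  · have := row_colz (σ := σ) (w := w) hlt _ (h.left y h0 h1)
    simpa using this
  · obtain ⟨g', rfl⟩ : ∃ g', g = g' + 1 := ⟨g - 1, by omega⟩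
    have := row_colz (σ := σ) (w := w) (show g' < G by omega) _ (h.right y h0 h1)
    rw [cx_succ]
    push_cast
    have e : ((cx σ w g' : ℝ) : ℂ) + (w : ℂ) + (y : ℂ) * Complex.I =
      ((cx σ w g' : ℝ) : ℂ) + 1 * ((w : ℂ) + (y : ℂ) * Complex.I) := by ring
    rw [e]
    exact this

theorem row_joined (h : Column w b A D Y) (hb : 0 < b) (hG : 0 < G) (g : ℕ) (hg : g ≤ G) :
    JoinedIn (row σ w G Y) ((cx σ w 0 : ℝ) : ℂ) ((cx σ w g : ℝ) : ℂ) := by
  induction g with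
  | zero =>
    apply JoinedIn.refl
    have := row_road (σ := σ) h hG (Nat.zero_le G) le_rfl hb.le
    simpa using this
  | succ g ih =>
    refine (ih (by omega)).trans ?_
    obtain ⟨C, hC⟩ := h.link
    have h1 := hC _ (h.right 0 le_rfl hb.le)
    have h2 := h1.affine ((cx σ w g : ℝ) : ℂ) 1 one_ne_zero
      (fun z hz => row_colz (σ := σ) (w := w) (show g < G by omega) z hz)
    have h3 := h2.1
    rw [cx_succ]
    push_cast
    simpa using h3

theorem road_est (h : Column w b A D Y) (hb : 0 < b) (hG : 0 < G) {f : ℂ → ℂ}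
    (hf : D1b (row σ w G Y) f) {g : ℕ} (hg : g ≤ G) :
    ‖(b : ℂ) * f ((cx σ w g : ℝ) : ℂ) -
      ∫ y in (0 : ℝ)..b, f (((cx σ w g : ℝ) : ℂ) + (y : ℂ) * Complex.I)‖ ≤ b * b := by
  set c : ℝ := cx σ w g with hc
  set K : Set ℂ := {z : ℂ | z.re = c ∧ 0 ≤ z.im ∧ z.im ≤ b} with hK
  have hKc : Convex ℝ K := by
    intro x hx y hy s t hs ht hst
    obtain ⟨hx1, hx2, hx3⟩ := hx
    obtain ⟨hy1, hy2, hy3⟩ := hy
    refine ⟨?_, ?_, ?_⟩
    · simp [hx1, hy1]
      rw [← add_mul, hst, one_mul]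
    · simp
      positivity
    · simp
      nlinarith
  have hKX : K ⊆ row σ w G Y := by
    intro z hz
    have := row_road (σ := σ) h hG hg hz.2.1 hz.2.2
    have e : z = ((cx σ w g : ℝ) : ℂ) + ((z.im : ℝ) : ℂ) * Complex.I := by
      apply Complex.ext
      · simp [hz.1, hc]
      · simp
    rw [e]
    exact this
  have hcont : ContinuousOn (fun y : ℝ => f ((c : ℂ) + (y : ℂ) * Complex.I)) (Icc 0 b) := by
    refine hf.contOn.comp (by fun_prop) ?_
    intro y hy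
    exact row_road (σ := σ) h hG hg hy.1 hy.2
  have hint : IntervalIntegrable (fun y : ℝ => f ((c : ℂ) + (y : ℂ) * Complex.I))
      MeasureTheory.volume 0 b := by
    apply ContinuousOn.intervalIntegrable
    rwa [uIcc_of_le hb.le]
  have e1 : (b : ℂ) * f (c : ℂ) - ∫ y in (0 : ℝ)..b, f ((c : ℂ) + (y : ℂ) * Complex.I) =
      ∫ y in (0 : ℝ)..b, (f (c : ℂ) - f ((c : ℂ) + (y : ℂ) * Complex.I)) := by
    rw [intervalIntegral.integral_sub (by simp) hint]
    simp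
  rw [e1]
  have h2 := intervalIntegral.norm_integral_le_of_norm_le_const (a := 0) (b := b) (C := b)
    (f := fun y : ℝ => f (c : ℂ) - f ((c : ℂ) + (y : ℂ) * Complex.I)) (by
      intro y hy
      rw [uIoc_of_le hb.le] at hy
      have hz0 : (c : ℂ) ∈ K := ⟨by simp, by simp, by simp [hb.le]⟩
      have hz1 : (c : ℂ) + (y : ℂ) * Complex.I ∈ K := ⟨by simp, by simp [hy.1.le], by simp [hy.2]⟩
      refine (hf.convex hKc hKX hz0 hz1).trans ?_
      rw [dist_eq_norm]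
      have e2 : (c : ℂ) - ((c : ℂ) + (y : ℂ) * Complex.I) = -((y : ℂ) * Complex.I) := by ring
      rw [e2, norm_neg, norm_mul, Complex.norm_I, mul_one, Complex.norm_real,
        Real.norm_of_nonneg hy.1.le]
      exact hy.2)
  rw [sub_zero, abs_of_pos hb] at h2
  exact h2

theorem avg_est (h : Column w b A D Y) {f : ℂ → ℂ}
    (hf : D1b (row σ w G Y) f) (g : ℕ) (hg : g ≤ G) :
    ‖(∫ y in (0 : ℝ)..b, f (((cx σ w g : ℝ) : ℂ) + (y : ℂ) * Complex.I)) -
      ∫ y in (0 : ℝ)..b, f (((cx σ w 0 : ℝ) : ℂ) + (y : ℂ) * Complex.I)‖ ≤ g * (b * (A * w)) := by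
  induction g with
  | zero => simp
  | succ g ih =>
    have h1 := ih (by omega)
    have h2 := h.avg _ (hf.affine ((cx σ w g : ℝ) : ℂ) 1 one_ne_zero
      (fun z hz => row_colz (σ := σ) (w := w) (show g < G by omega) z hz))
    simp only [div_one, one_mul] at h2
    have e1 : ∀ y : ℝ, ((cx σ w g : ℝ) : ℂ) + ((w : ℂ) + (y : ℂ) * Complex.I) =
        ((cx σ w (g + 1) : ℝ) : ℂ) + (y : ℂ) * Complex.I := by
      intro y
      rw [cx_succ]
      push_cast
      ring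
    simp only [e1] at h2
    have h3 := norm_sub_le_norm_sub_add_norm_sub
      (∫ y in (0 : ℝ)..b, f (((cx σ w (g + 1) : ℝ) : ℂ) + (y : ℂ) * Complex.I))
      (∫ y in (0 : ℝ)..b, f (((cx σ w g : ℝ) : ℂ) + (y : ℂ) * Complex.I))
      (∫ y in (0 : ℝ)..b, f (((cx σ w 0 : ℝ) : ℂ) + (y : ℂ) * Complex.I))
    push_cast
    linarith

theorem row_cost (h : Column w b A D Y) (hb : 0 < b) (hG : 0 < G) {f : ℂ → ℂ}
    (hf : D1b (row σ w G Y) f) {g : ℕ} (hg : g ≤ G) :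
    ‖f ((cx σ w 0 : ℝ) : ℂ) - f ((cx σ w g : ℝ) : ℂ)‖ ≤ 2 * b + A * (g * w) := by
  have h1 := road_est h hb hG hf hg
  have h2 := road_est h hb hG hf (Nat.zero_le G)
  have h3 := avg_est h hf g hg
  set I1 := ∫ y in (0 : ℝ)..b, f (((cx σ w g : ℝ) : ℂ) + (y : ℂ) * Complex.I) with hI1
  set I0 := ∫ y in (0 : ℝ)..b, f (((cx σ w 0 : ℝ) : ℂ) + (y : ℂ) * Complex.I) with hI0
  have e : (b : ℂ) * (f ((cx σ w 0 : ℝ) : ℂ) - f ((cx σ w g : ℝ) : ℂ)) =
      ((b : ℂ) * f ((cx σ w 0 : ℝ) : ℂ) - I0) - ((b : ℂ) * f ((cx σ w g : ℝ) : ℂ) - I1) -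
        (I1 - I0) := by ring
  have h4 : ‖(b : ℂ) * (f ((cx σ w 0 : ℝ) : ℂ) - f ((cx σ w g : ℝ) : ℂ))‖ ≤
      b * b + b * b + g * (b * (A * w)) := by
    rw [e]
    have h5 := norm_sub_le (((b : ℂ) * f ((cx σ w 0 : ℝ) : ℂ) - I0) -
      ((b : ℂ) * f ((cx σ w g : ℝ) : ℂ) - I1)) (I1 - I0)
    have h6 := norm_sub_le ((b : ℂ) * f ((cx σ w 0 : ℝ) : ℂ) - I0)
      ((b : ℂ) * f ((cx σ w g : ℝ) : ℂ) - I1)
    linarith
  rw [norm_mul, Complex.norm_real, Real.norm_of_nonneg hb.le] at h4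
  have h7 : b * ‖f ((cx σ w 0 : ℝ) : ℂ) - f ((cx σ w g : ℝ) : ℂ)‖ ≤
      b * (2 * b + A * (g * w)) := by linarith
  exact le_of_mul_le_mul_left h7 hb

theorem row_lk (h : Column w b A D Y) (hb : 0 < b) (hG : 0 < G) {g : ℕ} (hg : g ≤ G) :
    Lk (row σ w G Y) ((cx σ w 0 : ℝ) : ℂ) ((cx σ w g : ℝ) : ℂ) (2 * b + A * (g * w)) :=
  ⟨row_joined h hb hG g hg, fun _ hf => row_cost h hb hG hf hg⟩

theorem colg_mem (h : Column w b A D Y) {g : ℕ} {z : ℂ} (hz : z ∈ colg σ w Y g) :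
    cx σ w g ≤ z.re ∧ z.re ≤ cx σ w (g + 1) ∧ 0 ≤ z.im ∧ z.im ≤ b ∧
      z - ((cx σ w g : ℝ) : ℂ) ∈ Y ∧ (z - ((cx σ w g : ℝ) : ℂ)).re = z.re - cx σ w g := by
  obtain ⟨y, hy, rfl⟩ := hz
  obtain ⟨h1, h2, h3, h4⟩ := h.box y hy
  have e1 : (((cx σ w g : ℝ) : ℂ) + 1 * y).re = cx σ w g + y.re := by simp
  have e2 : (((cx σ w g : ℝ) : ℂ) + 1 * y).im = y.im := by simp
  have e3 : ((cx σ w g : ℝ) : ℂ) + 1 * y - ((cx σ w g : ℝ) : ℂ) = y := by ring
  simp only [e1, e2, e3]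
  rw [cx_succ]
  refine ⟨by linarith, by linarith, h3, h4, hy, by ring⟩

theorem cx_mono (hw : 0 < w) {g g' : ℕ} (h : g ≤ g') : cx σ w g ≤ cx σ w g' := by
  unfold cx
  have : (g : ℝ) ≤ g' := by exact_mod_cast h
  nlinarith

theorem cx_lt (hw : 0 < w) {g g' : ℕ} (h : g < g') : cx σ w g < cx σ w g' := by
  unfold cx
  have : (g : ℝ) < g' := by exact_mod_cast h
  nlinarith

theorem row_pot (h : Column w b A D Y) (hw : 0 < w) (hσ : 0 < σ) (hG : 0 < G) :
    ∃ H : ℂ → ℝ, LocLip (row σ w G Y) H ∧ H 0 = 0 ∧ H ((cx σ w G + σ : ℝ) : ℂ) = G * (D * w) := by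
  obtain ⟨hY, hl, h0, h1⟩ := h.pot
  set S0 := segment ℝ ((0 : ℝ) : ℂ) ((σ : ℝ) : ℂ) with hS0
  set S1 := segment ℝ ((cx σ w G : ℝ) : ℂ) ((cx σ w G + σ : ℝ) : ℂ) with hS1
  have hc0 : cx σ w 0 = σ := by unfold cx; simp
  have hcG : σ < cx σ w G := by
    have := cx_lt (σ := σ) hw hG
    rwa [hc0] at this
  have m0 : ∀ z ∈ S0, z.re ≤ σ := fun z hz => (C_seg_mem hσ.le hz).2.2
  have m1 : ∀ z ∈ S1, cx σ w G ≤ z.re := fun z hz => (C_seg_mem (by linarith) hz).2.1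
  have hB : LocLip (S0 ∪ S1) (fun z => if z.re ≤ σ then 0 else G * (D * w)) := by
    apply LocLip.union (C_seg_compact _ _).isClosed (C_seg_compact _ _).isClosed
    · exact (LocLip.const S0 0).congr (fun z hz => by simp [m0 z hz])
    · exact (LocLip.const S1 (G * (D * w))).congr (fun z hz => by
        have : ¬ z.re ≤ σ := by have := m1 z hz; linarith
        simp [this])
  have hcl : ∀ g : ℕ, IsClosed (colg σ w Y g) := fun g =>
    (h.poly.isCompact.image (by fun_prop)).isClosed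
  have hCl : ∀ i : Fin G, LocLip (colg σ w Y i)
      (fun z => (i : ℕ) * (D * w) + ‖(1 : ℂ)‖ * hY ((z - ((cx σ w i : ℝ) : ℂ)) / 1)) :=
    fun i => hl.affine ((cx σ w i : ℝ) : ℂ) 1 one_ne_zero _
  have hval : ∀ (i : Fin G) (z : ℂ), z ∈ colg σ w Y i → z.re = cx σ w i →
      (i : ℕ) * (D * w) + ‖(1 : ℂ)‖ * hY ((z - ((cx σ w i : ℝ) : ℂ)) / 1) = (i : ℕ) * (D * w) := by
    intro i z hz hr
    obtain ⟨-, -, -, -, h6, h7⟩ := colg_mem h hz
    rw [div_one, h0 _ h6 (by rw [h7, hr]; ring)]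
    simp
  have hval1 : ∀ (i : Fin G) (z : ℂ), z ∈ colg σ w Y i → z.re = cx σ w (i + 1) →
      (i : ℕ) * (D * w) + ‖(1 : ℂ)‖ * hY ((z - ((cx σ w i : ℝ) : ℂ)) / 1) =
        ((i : ℕ) + 1 : ℝ) * (D * w) := by
    intro i z hz hr
    obtain ⟨-, -, -, -, h6, h7⟩ := colg_mem h hz
    rw [div_one, h1 _ h6 (by rw [h7, hr, cx_succ]; ring), norm_one]
    ring
  obtain ⟨H, hH, hHB, hHC⟩ := LocLip.glue (B := S0 ∪ S1) (C := fun i : Fin G => colg σ w Y i)
    ((C_seg_compact _ _).isClosed.union (C_seg_compact _ _).isClosed) (fun i => hcl i) hB hCl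
    (by
      rintro i z (hz | hz) hzi
      · obtain ⟨h2, h3, -⟩ := colg_mem h hzi
        have h4 := m0 z hz
        have h5 := cx_mono (σ := σ) hw (Nat.zero_le i)
        have hi : (i : ℕ) = 0 := by
          by_contra hne
          have := cx_lt (σ := σ) hw (Nat.pos_of_ne_zero hne)
          linarith
        have hr : z.re = cx σ w i := by
          rw [hi] at h2 ⊢
          linarith
        rw [hval i z hzi hr]
        simp [h4, hi]
      · obtain ⟨h2, h3, -⟩ := colg_mem h hzi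
        have h4 := m1 z hz
        have h5 := cx_mono (σ := σ) hw (Nat.succ_le_of_lt i.2)
        have hi : (i : ℕ) + 1 = G := by
          by_contra hne
          have := cx_lt (σ := σ) hw (lt_of_le_of_ne (Nat.succ_le_of_lt i.2) hne)
          simp only [Nat.succ_eq_add_one] at this
          linarith
        have hr : z.re = cx σ w (i + 1) := by
          rw [hi] at h3 ⊢
          linarith
        rw [hval1 i z hzi hr]
        have : ¬ z.re ≤ σ := by linarith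
        have hiG : ((i : ℕ) : ℝ) + 1 = G := by exact_mod_cast hi
        simp [this, hiG])
    (by
      have key : ∀ i j : Fin G, ∀ z, z ∈ colg σ w Y i → z ∈ colg σ w Y j → i < j →
          (i : ℕ) * (D * w) + ‖(1 : ℂ)‖ * hY ((z - ((cx σ w i : ℝ) : ℂ)) / 1) =
          (j : ℕ) * (D * w) + ‖(1 : ℂ)‖ * hY ((z - ((cx σ w j : ℝ) : ℂ)) / 1) := by
        intro i j z hi hj hij
        obtain ⟨h2, h3, -⟩ := colg_mem h hi
        obtain ⟨h4, h5, -⟩ := colg_mem h hj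
        have hij' : (i : ℕ) < j := hij
        have hji : (j : ℕ) = i + 1 := by
          by_contra hne
          have := cx_lt (σ := σ) hw (show (i : ℕ) + 1 < j by omega)
          linarith
        have hr1 : z.re = cx σ w (i + 1) := by rw [hji] at h4; linarith
        have hr2 : z.re = cx σ w j := by rw [hji]; exact hr1
        rw [hval1 i z hi hr1, hval j z hj hr2, hji]
        push_cast
        ring
      intro i j z hi hj
      rcases lt_trichotomy i j with hij | hij | hij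
      · exact key i j z hi hj hij
      · rw [hij]
      · exact (key j i z hj hi hij).symm)
  refine ⟨H, hH, ?_, ?_⟩
  · have hz : (0 : ℂ) ∈ S0 ∪ S1 := Or.inl (by
      have := left_mem_segment ℝ ((0 : ℝ) : ℂ) ((σ : ℝ) : ℂ)
      simpa [hS0] using this)
    rw [hHB _ hz]
    simp [hσ.le]
  · have hz : ((cx σ w G + σ : ℝ) : ℂ) ∈ S0 ∪ S1 := Or.inr (right_mem_segment ℝ _ _)
    rw [hHB _ hz]
    have : ¬ (cx σ w G + σ) ≤ σ := by linarith
    simp only [Complex.ofReal_re, this, if_false]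

theorem row_raw (h : Column w b A D Y) (hw : 0 < w) (hb : 0 < b) (hA : 1 ≤ A)
    (hσ : 0 < σ) {C ρ ε D' : ℝ} (hC : ∀ z ∈ Y, Lk Y 0 z C) (hG : 0 < G)
    (hρ : 0 < ρ) (hρσ : b ≤ ρ * σ) (hε : 0 < ε) (hG1 : 2 * b + C ≤ ε * (G * w))
    (hD' : 0 ≤ D') (hG2 : D' * (cx σ w G + σ) ≤ G * (D * w)) :
    Raw (cx σ w G + σ) (A + ε) D' ρ (row σ w G Y) := by
  have hc0 : cx σ w 0 = σ := by unfold cx; simp
  have hGw : 0 < (G : ℝ) * w := by
    have : (0 : ℝ) < G := by exact_mod_cast hG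
    positivity
  have hcG : cx σ w G = σ + G * w := rfl
  have hC0 : 0 ≤ C := by
    have h1 := (hC _ (h.left 0 le_rfl hb.le)).2 (fun z => z) ⟨fun _ => 1, continuousOn_const,
      fun a _ => ⟨hasDerivWithinAt_id a Y, by simp⟩⟩
    exact (norm_nonneg _).trans h1
  have lk0 : ∀ z ∈ segment ℝ ((0 : ℝ) : ℂ) ((σ : ℝ) : ℂ), Lk (row σ w G Y) 0 z σ := by
    intro z hz
    have h1 := Lk.of_convex (convex_segment _ _) (row_S0 (σ := σ) (w := w) (G := G) (Y := Y))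
      (left_mem_segment ℝ ((0 : ℝ) : ℂ) ((σ : ℝ) : ℂ)) hz
    have h2 := C_seg_dist hσ.le hz
    rw [sub_zero] at h2
    have h3 := h1.mono h2
    simpa using h3
  have lkσ : Lk (row σ w G Y) 0 ((cx σ w 0 : ℝ) : ℂ) σ := by
    rw [hc0]
    exact lk0 _ (right_mem_segment ℝ _ _)
  have lkg : ∀ g, g ≤ G → Lk (row σ w G Y) 0 ((cx σ w g : ℝ) : ℂ)
      (σ + (2 * b + A * (g * w))) := fun g hg => lkσ.trans (row_lk h hb hG hg)
  have lk1 : ∀ z ∈ segment ℝ ((cx σ w G : ℝ) : ℂ) ((cx σ w G + σ : ℝ) : ℂ),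
      Lk (row σ w G Y) 0 z (σ + (2 * b + A * (G * w)) + σ) := by
    intro z hz
    have h1 := Lk.of_convex (convex_segment _ _) (row_S1 (σ := σ) (w := w) (G := G) (Y := Y))
      (left_mem_segment ℝ ((cx σ w G : ℝ) : ℂ) ((cx σ w G + σ : ℝ) : ℂ)) hz
    have h2 := C_seg_dist (by linarith) hz
    have h3 := h1.mono h2
    exact ((lkg G le_rfl).trans h3).mono (by linarith)
  refine ⟨?_, ?_, ?_, ?_, ?_, ?_, ?_⟩
  · refine ((C_seg_poly hσ).union (C_seg_poly (by linarith))).union (Poly.iUnion fun i => ?_)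
    exact h.poly.affine _ 1 one_ne_zero
  · rintro z ((hz | hz) | hz)
    · obtain ⟨h1, h2, h3⟩ := C_seg_mem hσ.le hz
      rw [h1, abs_zero]
      exact ⟨by positivity, mul_nonneg hρ.le (by linarith)⟩
    · obtain ⟨h1, h2, h3⟩ := C_seg_mem (by linarith) hz
      rw [h1, abs_zero]
      exact ⟨mul_nonneg hρ.le (by linarith), mul_nonneg hρ.le (by linarith)⟩
    · obtain ⟨g, hg⟩ := mem_iUnion.1 hz
      obtain ⟨h1, h2, h3, h4, -⟩ := colg_mem h hg
      have h5 := cx_mono (σ := σ) hw (Nat.zero_le g)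
      have h6 := cx_mono (σ := σ) hw (Nat.succ_le_of_lt g.2)
      simp only [Nat.succ_eq_add_one] at h6
      rw [abs_of_nonneg h3]
      constructor
      · have : ρ * σ ≤ ρ * z.re := mul_le_mul_of_nonneg_left (by linarith) hρ.le
        linarith
      · have : ρ * σ ≤ ρ * (cx σ w G + σ - z.re) :=
          mul_le_mul_of_nonneg_left (by linarith) hρ.le
        linarith
  · exact row_S0 (by
      have := left_mem_segment ℝ ((0 : ℝ) : ℂ) ((σ : ℝ) : ℂ)
      simpa using this)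
  · exact row_S1 (right_mem_segment ℝ _ _)
  · refine (lk1 _ (right_mem_segment ℝ _ _)).mono ?_
    rw [hcG]
    nlinarith
  · rintro z ((hz | hz) | hz)
    · refine (lk0 z hz).mono ?_
      rw [hcG]
      nlinarith
    · refine (lk1 z hz).mono ?_
      rw [hcG]
      nlinarith
    · obtain ⟨g, y, hy, rfl⟩ := mem_iUnion.1 hz
      have h1 := (hC y hy).affine ((cx σ w g : ℝ) : ℂ) 1 one_ne_zero
        (fun z hz => row_colz (σ := σ) (w := w) g.2 z hz)
      simp only [mul_zero, add_zero, norm_one, one_mul] at h1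
      have h2 := (lkg g g.2.le).trans h1
      simp only [one_mul]
      refine h2.mono ?_
      have h3 : ((g : ℕ) : ℝ) * w ≤ G * w := by
        apply mul_le_mul_of_nonneg_right _ hw.le
        exact_mod_cast g.2.le
      rw [hcG]
      have h4 : A * (((g : ℕ) : ℝ) * w) ≤ A * (G * w) :=
        mul_le_mul_of_nonneg_left h3 (by linarith)
      nlinarith
  · obtain ⟨H, hH, h0, h1⟩ := row_pot (D := D) h hw hσ hG
    refine ⟨fun z => min (H z) (D' * (cx σ w G + σ)), hH.min_const _, ?_, ?_⟩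
    · simp only [h0]
      apply min_eq_left
      have : 0 ≤ cx σ w G + σ := by rw [hcG]; positivity
      positivity
    · simp only [h1]
      exact min_eq_right hG2

end

theorem Column.toPP {w b A D : ℝ} {Y : Set ℂ} (h : Column w b A D Y) (hw : 0 < w) (hb : 0 < b)
    (hA : 1 ≤ A) (hD : 0 ≤ D) {ε : ℝ} (hε : 0 < ε) {D' : ℝ} (hD' : 0 ≤ D') (hDD : D' ≤ D - ε) :
    PP (A + ε) D' := by
  intro ρ hρ
  obtain ⟨C, hC⟩ := h.link
  set σ : ℝ := b / ρ with hσd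
  have hσ : 0 < σ := by positivity
  have hρσ : b ≤ ρ * σ := by rw [hσd]; field_simp; exact le_rfl
  obtain ⟨G, hGb⟩ := exists_nat_gt (max 0 (max ((2 * b + C) / (ε * w)) (2 * σ * D / (ε * w))))
  have hG0 : (0 : ℝ) < G := lt_of_le_of_lt (le_max_left _ _) hGb
  have hG : 0 < G := by exact_mod_cast hG0
  have hεw : 0 < ε * w := by positivity
  have h1 : (2 * b + C) / (ε * w) < G :=
    lt_of_le_of_lt ((le_max_left _ _).trans (le_max_right _ _)) hGb
  have h2 : 2 * σ * D / (ε * w) < G :=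
    lt_of_le_of_lt ((le_max_right _ _).trans (le_max_right _ _)) hGb
  rw [div_lt_iff₀ hεw] at h1 h2
  have h3 := row_raw (σ := σ) (G := G) (D' := D') (ρ := ρ) (ε := ε) h hw hb hA hσ hC hG hρ hρσ hε
    (by linarith) hD' (by
      unfold cx
      have h4 : D' * (σ + G * w + σ) ≤ (D - ε) * (σ + G * w + σ) :=
        mul_le_mul_of_nonneg_right hDD (by positivity)
      nlinarith [mul_pos hε hσ])
  exact ⟨_, h3.fake (by unfold cx; positivity)⟩

end Pool.Agent.H20.D1
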