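import Pool.Agent.Lib.Helper20.D1.Defs

/-!
# Columns

A column is a finite union `Y` of compact convex sets in the box `[0,w] x [0,b]`, containing the
two vertical roads `{0} x [0,b]` and `{w} x [0,b]`.  For functions in `D^(1)` with derivative
bounded by one, the averages over the two roads differ by at most `A w`; but there is a locally
1-Lipschitz function which is `0` on the left side and `D w` on the right side.
-/

open Set Filter Topology

namespace Pool.Agent.H20.D1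

structure Column (w b A D : ℝ) (Y : Set ℂ) : Prop where
  poly : Poly Y
  box : ∀ z ∈ Y, 0 ≤ z.re ∧ z.re ≤ w ∧ 0 ≤ z.im ∧ z.im ≤ b
  left : ∀ y : ℝ, 0 ≤ y → y ≤ b → (y : ℂ) * Complex.I ∈ Y
  right : ∀ y : ℝ, 0 ≤ y → y ≤ b → (w : ℂ) + (y : ℂ) * Complex.I ∈ Y
  avg : ∀ f, D1b Y f →
    ‖(∫ y in (0 : ℝ)..b, f ((w : ℂ) + (y : ℂ) * Complex.I)) -
      ∫ y in (0 : ℝ)..b, f ((y : ℂ) * Complex.I)‖ ≤ b * (A * w)
  link : ∃ C : ℝ, ∀ z ∈ Y, Lk Y 0 z C
  pot : ∃ h : ℂ → ℝ, LocLip Y h ∧ (∀ z ∈ Y, z.re = 0 → h z = 0) ∧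
    (∀ z ∈ Y, z.re = w → h z = D * w)

end Pool.Agent.H20.D1
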