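import Pool.Agent.Lib.Helper20.D1.Basic

/-!
# Statement-level definitions and fake corridors
-/

open Set Filter Topology

namespace Pool.Agent.H20.D1

/-- `f` belongs to `D^(1)(X)` and `g` is its derivative: the difference quotients of `f` along `X`
tend to `g a` at every point `a` of `X`. -/
def HasD1 (X : Set ℂ) (f g : C(X, ℂ)) : Prop :=
  ∀ a : X, Tendsto (fun z : X => (f z - f a) / ((z : ℂ) - (a : ℂ))) (𝓝[≠] a) (𝓝 (g a))

/-- `D^(1)(X)` is complete for the norm `|f|_X + |f'|_X`: every Cauchy sequence converges. -/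
def D1Complete (X : Set ℂ) [CompactSpace X] : Prop :=
  ∀ f g : ℕ → C(X, ℂ), (∀ n, HasD1 X (f n) (g n)) →
    (∀ ε > 0, ∃ N, ∀ m ≥ N, ∀ n ≥ N, ‖f m - f n‖ + ‖g m - g n‖ < ε) →
    ∃ F G : C(X, ℂ), HasD1 X F G ∧
      Tendsto (fun n => ‖f n - F‖ + ‖g n - G‖) atTop (𝓝 0)

/-- `X` is regular at `z`: there is `k > 0` such that every `w` in `X` can be reached from `z` by a
path in `X` of length at most `k |z - w|`. -/
def RegularAt (X : Set ℂ) (z : ℂ) : Prop :=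
  ∃ k : ℝ, 0 < k ∧ ∀ w ∈ X, ∃ (a b : ℝ) (γ : ℝ → ℂ), a < b ∧ ContinuousOn γ (Icc a b) ∧
    (∀ t ∈ Icc a b, γ t ∈ X) ∧ γ a = z ∧ γ b = w ∧
    eVariationOn γ (Icc a b) ≤ ENNReal.ofReal (k * ‖z - w‖)

/-- fake corridor from `0` to `1` inside the diamond of slope `ρ`: analytic length at most `A`,
path length at least `D`. -/
structure Fake (A D ρ : ℝ) (X : Set ℂ) : Prop where
  poly : Poly X
  diam : ∀ z ∈ X, |z.im| ≤ ρ * z.re ∧ |z.im| ≤ ρ * (1 - z.re)
  zero : (0 : ℂ) ∈ X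
  one : (1 : ℂ) ∈ X
  link : Lk X 0 1 A
  osc : ∀ z ∈ X, Lk X 0 z (A + 1)
  pot : ∃ h : ℂ → ℝ, LocLip X h ∧ h 0 = 0 ∧ h 1 = D

/-- fake corridors with constants `A, D` exist in arbitrarily thin diamonds. -/
def PP (A D : ℝ) : Prop := ∀ ρ > 0, ∃ X, Fake A D ρ X

theorem LocLip.min_const {X : Set ℂ} {h : ℂ → ℝ} (hh : LocLip X h) (c : ℝ) :
    LocLip X (fun z => min (h z) c) := by
  intro z hz
  obtain ⟨δ, hδ, H⟩ := hh z hz
  refine ⟨δ, hδ, fun w hw hd => ?_⟩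
  have h1 := H w hw hd
  have h2 : |min (h w) c - min (h z) c| ≤ |h w - h z| := by
    have := abs_min_sub_min_le_max (h w) c (h z) c
    simpa using this
  exact h2.trans h1

theorem Fake.mono {A A' D D' ρ : ℝ} {X : Set ℂ} (h : Fake A D ρ X) (hA : A ≤ A') (hD : D' ≤ D)
    (hD0 : 0 ≤ D') : Fake A' D' ρ X := by
  obtain ⟨g, hg, h0, h1⟩ := h.pot
  exact ⟨h.poly, h.diam, h.zero, h.one, h.link.mono hA, fun z hz => (h.osc z hz).mono (by linarith),
    fun z => min (g z) D', hg.min_const D', by simp [h0, hD0], by simp [h1, hD]⟩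

theorem PP.mono {A A' D D' : ℝ} (h : PP A D) (hA : A ≤ A') (hD : D' ≤ D) (hD0 : 0 ≤ D') :
    PP A' D' := fun ρ hρ => by
  obtain ⟨X, hX⟩ := h ρ hρ
  exact ⟨X, hX.mono hA hD hD0⟩

/-- the straight segment. -/
theorem PP_one : PP 1 1 := by
  intro ρ hρ
  set X : Set ℂ := segment ℝ (0 : ℂ) 1 with hX
  have hmem : ∀ z ∈ X, z.im = 0 ∧ 0 ≤ z.re ∧ z.re ≤ 1 := by
    intro z hz
    obtain ⟨a, b, ha, hb, hab, rfl⟩ := hz
    simp
    refine ⟨hb, by linarith⟩
  have hconv : Convex ℝ X := convex_segment 0 1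
  have h0 : (0 : ℂ) ∈ X := left_mem_segment ℝ 0 1
  have h1 : (1 : ℂ) ∈ X := right_mem_segment ℝ 0 1
  have hd : ∀ z ∈ X, dist (0 : ℂ) z ≤ 1 := by
    intro z hz
    obtain ⟨a, b, ha, hb, hab, rfl⟩ := hz
    rw [dist_comm, dist_zero_right]
    simp [abs_of_nonneg hb]
    linarith
  have hcomp : IsCompact X := by
    rw [hX, segment_eq_image_lineMap]
    exact isCompact_Icc.image AffineMap.lineMap_continuous
  refine ⟨X, ⟨Poly.of_convex hcomp hconv ⟨0, h0, 1, h1, by simp⟩, ?_, h0, h1, ?_, ?_, ?_⟩⟩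
  · intro z hz
    obtain ⟨h2, h3, h4⟩ := hmem z hz
    rw [h2, abs_zero]
    exact ⟨by positivity, mul_nonneg hρ.le (by linarith)⟩
  · exact (Lk.of_convex hconv Subset.rfl h0 h1).mono (hd 1 h1)
  · intro z hz
    exact (Lk.of_convex hconv Subset.rfl h0 hz).mono ((hd z hz).trans (by norm_num))
  · refine ⟨fun z => z.re, ?_, by simp, by simp⟩
    apply LocLip.of_lip
    intro z _ w _
    rw [dist_eq_norm, ← Complex.sub_re]
    exact Complex.abs_re_le_norm _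

end Pool.Agent.H20.D1
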