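import Pool.Agent.Lib.Helper20.D1.Defs

/-!
# Assembly: from fake corridors to the counterexample
-/

open Set Filter Topology

namespace Pool.Agent.H20.D1

namespace FinX

/-! ### Completeness from pointwise Lipschitz constants -/

open Classical in
/-- extension by zero. -/
noncomputable def ext0 {X : Set ℂ} (f : C(X, ℂ)) : ℂ → ℂ := fun z => if h : z ∈ X then f ⟨z, h⟩ else 0

theorem ext0_apply {X : Set ℂ} (f : C(X, ℂ)) (a : ℂ) (ha : a ∈ X) : ext0 f a = f ⟨a, ha⟩ := by
  simp [ext0, ha]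

theorem ext0_continuousOn {X : Set ℂ} (f : C(X, ℂ)) : ContinuousOn (ext0 f) X := by
  rw [continuousOn_iff_continuous_domRestrict]
  have : X.domRestrict (ext0 f) = f := by
    funext a
    rw [domRestrict_apply, ext0_apply f a a.2]
  rw [this]
  exact f.continuous

theorem HasD1.deriv {X : Set ℂ} {f g : C(X, ℂ)} (h : HasD1 X f g) (a : ℂ) (ha : a ∈ X) :
    HasDerivWithinAt (ext0 f) (ext0 g a) X a := by
  rw [hasDerivWithinAt_iff_tendsto_slope, Metric.tendsto_nhdsWithin_nhds]
  intro ε hε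
  obtain ⟨δ, hδ, H⟩ := Metric.tendsto_nhdsWithin_nhds.mp (h ⟨a, ha⟩) ε hε
  refine ⟨δ, hδ, fun z hz hd => ?_⟩
  have h1 := H (x := ⟨z, hz.1⟩) (by
    intro he
    exact hz.2 (by simpa using congrArg Subtype.val he)) hd
  rw [slope_def_field, ext0_apply f z hz.1, ext0_apply f a ha, ext0_apply g a ha]
  exact h1

theorem HasD1.d1b {X : Set ℂ} [CompactSpace X] {f g : C(X, ℂ)} (h : HasD1 X f g) {M : ℝ} (hM : 0 < M)
    (hg : ‖g‖ ≤ M) : D1b X (fun z => ext0 f z / (M : ℂ)) := by
  refine ⟨fun z => ext0 g z / (M : ℂ), (ext0_continuousOn g).div_const _, fun a ha => ⟨?_, ?_⟩⟩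
  · exact (HasD1.deriv h a ha).div_const _
  · show ‖ext0 g a / (M : ℂ)‖ ≤ 1
    rw [ext0_apply g a ha, norm_div, Complex.norm_real, Real.norm_eq_abs, abs_of_pos hM, div_le_one hM]
    exact (g.norm_coe_le_norm _).trans hg

theorem HasD1.sub {X : Set ℂ} {f g f' g' : C(X, ℂ)} (h : HasD1 X f g) (h' : HasD1 X f' g') :
    HasD1 X (f - f') (g - g') := by
  intro a
  have := (h a).sub (h' a)
  refine this.congr (fun z => ?_)
  simp only [ContinuousMap.coe_sub, Pi.sub_apply]
  ring

theorem complete_of_lip {X : Set ℂ} [CompactSpace X]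
    (H : ∀ a ∈ X, ∃ C : ℝ, 0 ≤ C ∧ ∀ f, D1b X f → ∀ z ∈ X, ‖f z - f a‖ ≤ C * dist z a) :
    D1Complete X := by
  intro f g hfg hC
  have cf : CauchySeq f := by
    rw [Metric.cauchySeq_iff]
    intro ε hε
    obtain ⟨N, hN⟩ := hC ε hε
    refine ⟨N, fun m hm n hn => ?_⟩
    rw [dist_eq_norm]
    have := hN m hm n hn
    have h2 := norm_nonneg (g m - g n)
    linarith
  have cg : CauchySeq g := by
    rw [Metric.cauchySeq_iff]
    intro ε hε
    obtain ⟨N, hN⟩ := hC ε hε
    refine ⟨N, fun m hm n hn => ?_⟩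
    rw [dist_eq_norm]
    have := hN m hm n hn
    have h2 := norm_nonneg (f m - f n)
    linarith
  obtain ⟨F, hF⟩ := cauchySeq_tendsto_of_complete cf
  obtain ⟨G, hG⟩ := cauchySeq_tendsto_of_complete cg
  have pF : ∀ z : X, Tendsto (fun m => f m z) atTop (𝓝 (F z)) := fun z =>
    ((continuous_eval_const z).tendsto F).comp hF
  refine ⟨F, G, fun a => ?_, ?_⟩
  · obtain ⟨C, hC0, hCa⟩ := H a a.2
    rw [Metric.tendsto_nhdsWithin_nhds]
    intro ε hε
    set e : ℝ := ε / (4 * (C + 1)) with he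
    have hepos : 0 < e := by positivity
    have heC : C * e + e = ε / 4 := by rw [he]; field_simp
    have heC' : 0 ≤ C * e := by positivity
    obtain ⟨N, hN⟩ := hC e hepos
    have key : ∀ z : X, ‖(F z - F a) - (f N z - f N a)‖ ≤ C * dist z a * e := by
      intro z
      have hlim : Tendsto (fun m => ‖(f m z - f m a) - (f N z - f N a)‖) atTop
          (𝓝 ‖(F z - F a) - (f N z - f N a)‖) :=
        (((pF z).sub (pF a)).sub_const _).norm
      refine le_of_tendsto hlim ?_
      filter_upwards [eventually_ge_atTop N] with m hm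
      have hb : ‖g m - g N‖ ≤ e := by
        have := hN m hm N le_rfl
        have h2 := norm_nonneg (f m - f N)
        linarith
      have h1 := hCa _ (HasD1.d1b (HasD1.sub (hfg m) (hfg N)) hepos hb) z z.2
      rw [ext0_apply _ _ z.2, ext0_apply _ _ a.2, ← sub_div, norm_div, Complex.norm_real, Real.norm_eq_abs,
        abs_of_pos hepos, div_le_iff₀ hepos] at h1
      simp only [ContinuousMap.coe_sub, Pi.sub_apply, Subtype.coe_eta] at h1
      have e1 : (f m z - f m a) - (f N z - f N a) = f m z - f N z - (f m a - f N a) := by ring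
      rw [e1]
      exact h1
    have hGN : ‖g N a - G a‖ ≤ e := by
      have hlim : Tendsto (fun m => ‖g N a - g m a‖) atTop (𝓝 ‖g N a - G a‖) :=
        ((((continuous_eval_const a).tendsto G).comp hG).const_sub _).norm
      refine le_of_tendsto hlim ?_
      filter_upwards [eventually_ge_atTop N] with m hm
      have := hN N le_rfl m hm
      have h2 := norm_nonneg (f N - f m)
      have h3 := (g N - g m).norm_coe_le_norm a
      simp only [ContinuousMap.coe_sub, Pi.sub_apply] at h3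
      linarith
    obtain ⟨δ, hδ, Hd⟩ := Metric.tendsto_nhdsWithin_nhds.mp (hfg N a) (ε / 4) (by positivity)
    refine ⟨δ, hδ, fun z hz hd => ?_⟩
    have h1 := Hd hz hd
    have hza : (z : ℂ) - a ≠ 0 := by
      intro h0
      exact hz (Subtype.ext (sub_eq_zero.mp h0))
    have hpos : 0 < ‖(z : ℂ) - a‖ := norm_pos_iff.mpr hza
    have h2 : ‖((F z - F a) - (f N z - f N a)) / ((z : ℂ) - a)‖ ≤ C * e := by
      rw [norm_div, div_le_iff₀ hpos]
      have := key z
      rw [Subtype.dist_eq, dist_eq_norm] at this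
      linarith
    rw [dist_eq_norm] at h1 ⊢
    have e1 : (F z - F a) / ((z : ℂ) - a) - G a = ((F z - F a) - (f N z - f N a)) / ((z : ℂ) - a)
        + ((f N z - f N a) / ((z : ℂ) - a) - g N a) + (g N a - G a) := by
      field_simp
      ring
    rw [e1]
    calc _ ≤ ‖((F z - F a) - (f N z - f N a)) / ((z : ℂ) - a)‖
          + ‖(f N z - f N a) / ((z : ℂ) - a) - g N a‖ + ‖g N a - G a‖ := norm_add₃_le
      _ < ε := by linarith
  · have h1 := (tendsto_iff_norm_sub_tendsto_zero.mp hF).add (tendsto_iff_norm_sub_tendsto_zero.mp hG)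
    simpa using h1

/-! ### The set -/

/-- radii. -/
noncomputable def r (n : ℕ) : ℝ := (1 / 2) ^ n

theorem r_pos (n : ℕ) : 0 < r n := by unfold r; positivity

theorem r_succ (n : ℕ) : r n = 2 * r (n + 1) := by unfold r; rw [pow_succ]; ring

theorem r_anti {m n : ℕ} (h : m ≤ n) : r n ≤ r m := by
  unfold r; exact pow_le_pow_of_le_one (by norm_num) (by norm_num) h

theorem r_le_one (n : ℕ) : r n ≤ 1 := by
  unfold r; exact pow_le_one₀ (by norm_num) (by norm_num)

theorem r_tendsto : Tendsto r atTop (𝓝 0) := tendsto_pow_atTop_nhds_zero_of_lt_one (by norm_num) (by norm_num)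

variable {XX : ℕ → Set ℂ} {D : ℕ → ℝ}

/-- scaled corridors. -/
def Z (XX : ℕ → Set ℂ) (n : ℕ) : Set ℂ := (fun z => (r (n + 1) : ℂ) + (r (n + 1) : ℂ) * z) '' XX n

/-- the set. -/
def XF (XX : ℕ → Set ℂ) : Set ℂ := insert 0 (⋃ n, Z XX n)

theorem Z_subset (n : ℕ) : Z XX n ⊆ XF XX := (subset_iUnion (Z XX) n).trans (subset_insert _ _)

theorem rc_ne (n : ℕ) : (r n : ℂ) ≠ 0 := by exact_mod_cast (r_pos n).ne'

theorem rc_norm (n : ℕ) : ‖(r n : ℂ)‖ = r n := by
  rw [Complex.norm_real, Real.norm_eq_abs, abs_of_pos (r_pos n)]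

section
variable (hX : ∀ n, Fake 2 (D n) 1 (XX n))
include hX

theorem Z_bounds {n : ℕ} {z : ℂ} (hz : z ∈ Z XX n) :
    r (n + 1) ≤ z.re ∧ z.re ≤ r n ∧ |z.im| ≤ z.re - r (n + 1) ∧ |z.im| ≤ r n - z.re := by
  obtain ⟨x, hx, rfl⟩ := hz
  obtain ⟨h1, h2⟩ := (hX n).diam x hx
  have hr := r_pos (n + 1)
  have hrs := r_succ n
  have e1 : ((r (n + 1) : ℂ) + (r (n + 1) : ℂ) * x).re = r (n + 1) + r (n + 1) * x.re := by simp
  have e2 : ((r (n + 1) : ℂ) + (r (n + 1) : ℂ) * x).im = r (n + 1) * x.im := by simp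
  simp only [e1, e2]
  rw [abs_mul, abs_of_pos hr]
  have h3 := abs_nonneg x.im
  rw [one_mul] at h1 h2
  refine ⟨?_, ?_, ?_, ?_⟩
  · nlinarith
  · nlinarith
  · nlinarith
  · nlinarith

theorem Z_norm {n : ℕ} {z : ℂ} (hz : z ∈ Z XX n) : ‖z‖ ≤ 3 * r (n + 1) := by
  obtain ⟨h1, h2, h3, h4⟩ := Z_bounds hX hz
  have h5 := Complex.norm_le_abs_re_add_abs_im z
  have h6 := r_pos (n + 1)
  rw [abs_of_nonneg (by linarith : 0 ≤ z.re)] at h5
  rw [r_succ n] at h2 h4
  linarith

theorem Z_re_norm {n : ℕ} {z : ℂ} (hz : z ∈ Z XX n) : r (n + 1) ≤ ‖z‖ :=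
  (Z_bounds hX hz).1.trans ((le_abs_self _).trans (Complex.abs_re_le_norm z))

theorem Z_left (n : ℕ) : (r (n + 1) : ℂ) ∈ Z XX n := ⟨0, (hX n).zero, by simp⟩

theorem Z_right (n : ℕ) : (r n : ℂ) ∈ Z XX n := ⟨1, (hX n).one, by
  rw [r_succ n]; push_cast; ring⟩

theorem Z_poly (n : ℕ) : Poly (Z XX n) := (hX n).poly.affine _ _ (rc_ne _)

theorem Z_link (n : ℕ) : Lk (Z XX n) (r (n + 1)) (r n) (2 * r (n + 1)) := by
  have h := (hX n).link.affine (Y := Z XX n) (r (n + 1) : ℂ) (r (n + 1) : ℂ) (rc_ne _)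
    (fun z hz => ⟨z, hz, rfl⟩)
  have e1 : (r (n + 1) : ℂ) + (r (n + 1) : ℂ) * 0 = r (n + 1) := by ring
  have e2 : (r (n + 1) : ℂ) + (r (n + 1) : ℂ) * 1 = r n := by rw [r_succ n]; push_cast; ring
  rw [e1, e2, rc_norm] at h
  exact h.mono (by linarith)

theorem Z_osc (n : ℕ) {z : ℂ} (hz : z ∈ Z XX n) : Lk (Z XX n) (r (n + 1)) z (3 * r (n + 1)) := by
  obtain ⟨x, hx, rfl⟩ := hz
  have h := ((hX n).osc x hx).affine (Y := Z XX n) (r (n + 1) : ℂ) (r (n + 1) : ℂ) (rc_ne _)
    (fun z hz => ⟨z, hz, rfl⟩)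
  have e1 : (r (n + 1) : ℂ) + (r (n + 1) : ℂ) * 0 = r (n + 1) := by ring
  rw [e1, rc_norm] at h
  exact h.mono (by linarith)

theorem XF_closed : IsClosed (XF XX) := by
  have : XF XX = ⋂ N : ℕ, (Metric.closedBall (0 : ℂ) (3 * r N) ∪ ⋃ n ∈ Iio N, Z XX n) := by
    apply Subset.antisymm
    · rintro z (rfl | hz)
      · rw [mem_iInter]
        intro N
        left
        rw [Metric.mem_closedBall, dist_self]
        have := r_pos N
        positivity
      · obtain ⟨n, hn⟩ := mem_iUnion.mp hz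
        rw [mem_iInter]
        intro N
        by_cases h : n < N
        · right
          exact mem_biUnion h hn
        · left
          rw [Metric.mem_closedBall, dist_zero_right]
          have h1 := Z_norm hX hn
          have h2 : r (n + 1) ≤ r N := r_anti (by omega)
          linarith
    · intro z hz
      rw [mem_iInter] at hz
      by_cases h : ∃ n, z ∈ Z XX n
      · exact Or.inr (mem_iUnion.mpr h)
      · left
        push Not at h
        have h1 : ∀ N, ‖z‖ ≤ 3 * r N := by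
          intro N
          rcases hz N with h2 | h2
          · rwa [Metric.mem_closedBall, dist_zero_right] at h2
          · obtain ⟨n, _, hn⟩ := mem_iUnion₂.mp h2
            exact absurd hn (h n)
        have h3 : Tendsto (fun N => 3 * r N) atTop (𝓝 (3 * 0)) := r_tendsto.const_mul 3
        have h4 : ‖z‖ ≤ 3 * 0 := ge_of_tendsto' h3 h1
        rw [mul_zero] at h4
        exact norm_le_zero_iff.mp h4
  rw [this]
  exact isClosed_iInter fun N => Metric.isClosed_closedBall.union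
    ((finite_Iio N).isClosed_biUnion (fun n _ => (Z_poly hX n).isCompact.isClosed))

theorem XF_norm {z : ℂ} (hz : z ∈ XF XX) : ‖z‖ ≤ 3 := by
  rcases hz with rfl | hz
  · simp
  · obtain ⟨n, hn⟩ := mem_iUnion.mp hz
    have := Z_norm hX hn
    have := r_le_one (n + 1)
    linarith

theorem XF_compact : IsCompact (XF XX) := by
  apply Metric.isCompact_of_isClosed_isBounded (XF_closed hX)
  rw [isBounded_iff_forall_norm_le]
  exact ⟨3, fun z hz => XF_norm hX hz⟩

theorem XF_connected : IsConnected (XF XX) := by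
  refine ⟨⟨0, mem_insert _ _⟩, ?_⟩
  have h1 : IsPreconnected (⋃ n, Z XX n) := by
    apply IsPreconnected.iUnion_of_chain
    · intro n
      have : IsPathConnected (Z XX n) := ⟨r (n + 1), Z_left hX n, fun {y} hy => (Z_osc hX n hy).1⟩
      exact this.isConnected.isPreconnected
    · intro n
      exact ⟨r (n + 1), Z_left hX n, Z_right hX (n + 1)⟩
  refine h1.subset_closure (subset_insert _ _) ?_
  apply insert_subset _ subset_closure
  have h2 : Tendsto (fun n => ((r n : ℝ) : ℂ)) atTop (𝓝 ((0 : ℝ) : ℂ)) :=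
    (Complex.continuous_ofReal.tendsto 0).comp r_tendsto
  rw [Complex.ofReal_zero] at h2
  exact mem_closure_of_tendsto h2 (Eventually.of_forall fun n => mem_iUnion.mpr ⟨n, Z_right hX n⟩)

theorem XF_perfect : Preperfect (XF XX) := by
  apply IsPreconnected.preperfect_of_nontrivial _ (XF_connected hX).isPreconnected
  exact ⟨0, mem_insert _ _, r 0, Z_subset 0 (Z_right hX 0), (rc_ne 0).symm⟩

theorem f_step {f : ℂ → ℂ} (hf : D1b (XF XX) f) (n : ℕ) : ‖f (r n) - f 0‖ ≤ 2 * r n := by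
  have h1 : ∀ m, ‖f (r n) - f (r (n + m))‖ ≤ 2 * (r n - r (n + m)) := by
    intro m
    induction m with
    | zero => simp
    | succ m ih =>
      have h2 := ((Z_link hX (n + m)).symm.mono_set (Z_subset (n + m))).2 f hf
      have h3 : ‖f (r n) - f (r (n + (m + 1)))‖ ≤ ‖f (r n) - f (r (n + m))‖ + ‖f (r (n + m)) - f (r (n + m + 1))‖ := by
        have := norm_add_le (f (r n) - f (r (n + m))) (f (r (n + m)) - f (r (n + m + 1)))
        simpa [add_assoc] using this
      have h4 := r_succ (n + m)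
      have h5 : n + (m + 1) = n + m + 1 := by omega
      rw [h5] at h3 ⊢
      linarith
  have h2 : Tendsto (fun m => ((r (n + m) : ℝ) : ℂ)) atTop (𝓝 ((0 : ℝ) : ℂ)) :=
    (Complex.continuous_ofReal.tendsto 0).comp (r_tendsto.comp (tendsto_add_atTop_nat n |>.congr (fun m => by omega)))
  rw [Complex.ofReal_zero] at h2
  have h3 : Tendsto (fun m => f ((r (n + m) : ℝ) : ℂ)) atTop (𝓝 (f 0)) := by
    have hc := hf.contOn 0 (mem_insert _ _)
    refine hc.tendsto.comp (tendsto_nhdsWithin_iff.mpr ⟨h2, Eventually.of_forall fun m => ?_⟩)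
    exact Z_subset (n + m) (Z_right hX (n + m))
  have h4 : Tendsto (fun m => ‖f (r n) - f (r (n + m))‖) atTop (𝓝 ‖f (r n) - f 0‖) := (h3.const_sub _).norm
  refine le_of_tendsto' h4 (fun m => (h1 m).trans ?_)
  have := r_pos (n + m)
  linarith

theorem f_zero {f : ℂ → ℂ} (hf : D1b (XF XX) f) {z : ℂ} (hz : z ∈ XF XX) : ‖f z - f 0‖ ≤ 5 * ‖z‖ := by
  rcases hz with rfl | hz
  · simp
  · obtain ⟨n, hn⟩ := mem_iUnion.mp hz
    have h1 := ((Z_osc hX n hn).symm.mono_set (Z_subset n)).2 f hf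
    have h2 := f_step hX hf (n + 1)
    have h3 : ‖f z - f 0‖ ≤ ‖f z - f (r (n + 1))‖ + ‖f (r (n + 1)) - f 0‖ := by
      have := norm_add_le (f z - f (r (n + 1))) (f (r (n + 1)) - f 0)
      simpa using this
    have h4 := Z_re_norm hX hn
    linarith

theorem f_osc {f : ℂ → ℂ} (hf : D1b (XF XX) f) {z a : ℂ} (hz : z ∈ XF XX) (ha : a ∈ XF XX) :
    ‖f z - f a‖ ≤ 30 := by
  have h1 := f_zero hX hf hz
  have h2 := f_zero hX hf ha
  have h3 := XF_norm hX hz
  have h4 := XF_norm hX ha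
  have h5 : ‖f z - f a‖ ≤ ‖f z - f 0‖ + ‖f a - f 0‖ := by
    have := norm_sub_le (f z - f 0) (f a - f 0)
    simpa using this
  linarith

/-- local structure away from `0`. -/
theorem local_convex {a : ℂ} (ha0 : a ≠ 0) :
    ∃ δ > 0, ∀ z ∈ XF XX, dist z a < δ → ∃ K, Convex ℝ K ∧ K ⊆ XF XX ∧ z ∈ K ∧ a ∈ K := by
  choose S hS hU hK using fun n => Z_poly hX n
  have hna : 0 < ‖a‖ := norm_pos_iff.mpr ha0
  obtain ⟨N, hN⟩ : ∃ N, ∀ n, N ≤ n → r n < ‖a‖ / 6 :=
    eventually_atTop.mp (r_tendsto.eventually_lt_const (by positivity))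
  set T : Set ℂ := ⋃ n ∈ Iio N, ⋃₀ {K ∈ S n | a ∉ K} with hT
  have hTc : IsClosed T := (finite_Iio N).isClosed_biUnion (fun n _ =>
    (((hS n).subset (sep_subset _ _)).isCompact_sUnion (fun K hKS => (hK n K hKS.1).1)).isClosed)
  have haT : a ∉ T := by
    intro h
    obtain ⟨n, _, K, hKS, haK⟩ := mem_iUnion₂.mp h
    exact hKS.2 haK
  obtain ⟨δ, hδ, Hδ⟩ := Metric.mem_nhds_iff.mp (hTc.isOpen_compl.mem_nhds haT)
  refine ⟨min δ (‖a‖ / 2), lt_min hδ (by positivity), fun z hz hd => ?_⟩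
  have h1 : ‖a‖ / 2 < ‖z‖ := by
    have h2 : dist z a < ‖a‖ / 2 := lt_of_lt_of_le hd (min_le_right _ _)
    rw [dist_eq_norm] at h2
    have h3 := norm_sub_norm_le a z
    rw [norm_sub_rev] at h3
    linarith
  rcases hz with rfl | hz
  · simp at h1
    linarith
  · obtain ⟨n, hn⟩ := mem_iUnion.mp hz
    have hnN : n < N := by
      by_contra hcon
      have h2 := hN (n + 1) (by omega)
      have h3 := Z_norm hX hn
      linarith
    have hn' := hn
    rw [← hU n] at hn'
    obtain ⟨K, hKS, hzK⟩ := hn'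
    refine ⟨K, (hK n K hKS).2.1, ?_, hzK, ?_⟩
    · refine Subset.trans ?_ (Z_subset n)
      rw [← hU n]
      exact subset_sUnion_of_mem hKS
    · by_contra haK
      have : z ∈ T := mem_iUnion₂.mpr ⟨n, hnN, K, ⟨hKS, haK⟩, hzK⟩
      exact Hδ (by rw [Metric.mem_ball]; exact lt_of_lt_of_le hd (min_le_left _ _)) this

theorem XF_complete [CompactSpace (XF XX)] : D1Complete (XF XX) := by
  apply complete_of_lip
  intro a ha
  by_cases ha0 : a = 0
  · subst ha0
    refine ⟨5, by norm_num, fun f hf z hz => ?_⟩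
    rw [dist_zero_right]
    exact f_zero hX hf hz
  · obtain ⟨δ, hδ, H⟩ := local_convex hX ha0
    refine ⟨max 1 (30 / δ), by positivity, fun f hf z hz => ?_⟩
    by_cases hd : dist z a < δ
    · obtain ⟨K, hKc, hKX, hzK, haK⟩ := H z hz hd
      refine (hf.convex hKc hKX hzK haK).trans ?_
      have h1 : (1 : ℝ) ≤ max 1 (30 / δ) := le_max_left _ _
      have h2 : 0 ≤ dist z a := dist_nonneg
      nlinarith
    · push Not at hd
      refine (f_osc hX hf hz ha).trans ?_
      have h1 : 30 / δ ≤ max 1 (30 / δ) := le_max_right _ _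
      calc (30 : ℝ) = 30 / δ * δ := by field_simp
        _ ≤ max 1 (30 / δ) * dist z a := mul_le_mul h1 hd hδ.le (by positivity)

theorem XF_pot (n : ℕ) : ∃ h : ℂ → ℝ, LocLip (XF XX) h ∧ h 0 = 0 ∧ h (r n) = r (n + 1) * D n := by
  obtain ⟨g, hg, g0, g1⟩ := (hX n).pot
  set B1 : Set ℂ := {z | z ∈ XF XX ∧ z.re ≤ r (n + 1)} with hB1
  set B2 : Set ℂ := {z | z ∈ XF XX ∧ r n ≤ z.re} with hB2
  have cB1 : IsClosed B1 := (XF_closed hX).inter (isClosed_le Complex.continuous_re continuous_const)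
  have cB2 : IsClosed B2 := (XF_closed hX).inter (isClosed_le continuous_const Complex.continuous_re)
  have hr : r (n + 1) < r n := by have := r_succ n; have := r_pos (n + 1); linarith
  set h0 : ℂ → ℝ := fun z => if z.re ≤ r (n + 1) then 0 else r (n + 1) * D n with hh0
  have l0 : LocLip (B1 ∪ B2) h0 := by
    apply LocLip.union cB1 cB2
    · exact (LocLip.const B1 0).congr (fun z hz => by simp [hh0, hz.2])
    · refine (LocLip.const B2 (r (n + 1) * D n)).congr (fun z hz => ?_)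
      have : ¬ z.re ≤ r (n + 1) := by
        have := hz.2
        linarith
      simp [hh0, this]
  have lg := hg.affine (r (n + 1) : ℂ) (r (n + 1) : ℂ) (rc_ne _) 0
  have c0 : ∀ z ∈ B1 ∪ B2, z ∈ Z XX n → h0 z = 0 + ‖(r (n + 1) : ℂ)‖ * g ((z - (r (n + 1) : ℂ)) / (r (n + 1) : ℂ)) := by
    intro z hzB hzC
    obtain ⟨b1, b2, b3, b4⟩ := Z_bounds hX hzC
    simp only [zero_add]
    rcases hzB with hzB | hzB
    · have hre : z.re = r (n + 1) := le_antisymm hzB.2 b1
      have him : z.im = 0 := by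
        rw [hre, sub_self] at b3
        exact abs_nonpos_iff.mp b3
      have hz : z = (r (n + 1) : ℂ) := Complex.ext (by simpa using hre) (by simpa using him)
      rw [hz, sub_self, zero_div, g0, mul_zero]
      simp [hh0]
    · have hre : z.re = r n := le_antisymm b2 hzB.2
      have him : z.im = 0 := by
        rw [hre, sub_self] at b4
        exact abs_nonpos_iff.mp b4
      have hz : z = (r n : ℂ) := Complex.ext (by simpa using hre) (by simpa using him)
      have e1 : ((r n : ℂ) - (r (n + 1) : ℂ)) / (r (n + 1) : ℂ) = 1 := by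
        rw [div_eq_one_iff_eq (rc_ne _), r_succ n]; push_cast; ring
      rw [hz, e1, g1, rc_norm]
      have : ¬ ((r n : ℂ)).re ≤ r (n + 1) := by simpa using hr
      simp only [hh0, this, if_false]
  obtain ⟨H, hH, HB, HC⟩ := LocLip.glue (ι := Unit) (C := fun _ => Z XX n)
    (h := fun _ z => 0 + ‖(r (n + 1) : ℂ)‖ * g ((z - (r (n + 1) : ℂ)) / (r (n + 1) : ℂ)))
    (cB1.union cB2) (fun _ => (Z_poly hX n).isCompact.isClosed) l0 (fun _ => lg) (fun _ => c0) (fun _ _ _ _ _ => rfl)
  have hsub : XF XX = (B1 ∪ B2) ∪ ⋃ _ : Unit, Z XX n := by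
    apply Subset.antisymm
    · rintro z (rfl | hz)
      · left; left
        exact ⟨mem_insert _ _, by simpa using (r_pos (n + 1)).le⟩
      · obtain ⟨m, hm⟩ := mem_iUnion.mp hz
        obtain ⟨b1, b2, _, _⟩ := Z_bounds hX hm
        rcases lt_trichotomy m n with h | h | h
        · left; right
          exact ⟨Z_subset m hm, le_trans (r_anti (by omega)) b1⟩
        · right
          rw [← h]
          exact mem_iUnion.mpr ⟨(), hm⟩
        · left; left
          exact ⟨Z_subset m hm, le_trans b2 (r_anti (by omega))⟩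
    · rintro z ((hz | hz) | hz)
      · exact hz.1
      · exact hz.1
      · obtain ⟨_, hz⟩ := mem_iUnion.mp hz
        exact Z_subset n hz
  refine ⟨H, by rw [hsub]; exact hH, ?_, ?_⟩
  · rw [HB 0 (Or.inl ⟨mem_insert _ _, by simpa using (r_pos (n + 1)).le⟩)]
    have : (0 : ℂ).re ≤ r (n + 1) := by simpa using (r_pos (n + 1)).le
    simp only [hh0, this, if_true]
  · rw [HB (r n) (Or.inr ⟨Z_subset n (Z_right hX n), by simp⟩)]
    have : ¬ ((r n : ℂ)).re ≤ r (n + 1) := by simpa using hr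
    simp only [hh0, this, if_false]

theorem XF_not_regular (hD : ∀ n : ℕ, (n : ℝ) ≤ D n) : ¬ RegularAt (XF XX) 0 := by
  rintro ⟨k, hk, H⟩
  obtain ⟨n, hn⟩ := exists_nat_gt (2 * k)
  obtain ⟨a, b, γ, hab, hc, hγ, hγa, hγb, hlen⟩ := H (r n) (Z_subset n (Z_right hX n))
  obtain ⟨h, hh, h0, h1⟩ := XF_pot hX n
  have h2 := (hh.length hab.le hc hγ).trans hlen
  rw [hγa, hγb, h0, h1, sub_zero, zero_sub, norm_neg, rc_norm] at h2
  have h3 := (ENNReal.ofReal_le_ofReal_iff (by have := r_pos n; positivity)).mp h2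
  have h4 := le_abs_self (r (n + 1) * D n)
  have h5 := r_succ n
  have h6 := r_pos (n + 1)
  have h7 : r (n + 1) * D n ≤ k * (2 * r (n + 1)) := by rw [← h5]; linarith
  have h8 := hD n
  nlinarith

end

end FinX

open FinX in
/-- The final set: `{0}` together with the copies `2^(-n-1) (1 + X_n)` of fake corridors `X_n`
with path length `D_n -> infinity` and analytic length at most `2`. -/
theorem final (H : ∀ D : ℝ, ∃ D' ≥ D, PP 2 D') :
    ∃ (X : Set ℂ) (_ : CompactSpace X), IsConnected X ∧ Preperfect X ∧ D1Complete X ∧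
      ∃ z ∈ X, ¬ RegularAt X z := by
  choose D hD hP using fun n : ℕ => H n
  choose XX hX using fun n : ℕ => hP n 1 one_pos
  have hc : CompactSpace (XF XX) := isCompact_iff_compactSpace.mp (XF_compact hX)
  exact ⟨XF XX, hc, XF_connected hX, XF_perfect hX, XF_complete hX, 0, mem_insert _ _, XF_not_regular hX hD⟩

end Pool.Agent.H20.D1
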