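import Pool.Agent.Lib.Helper20.D1.ColumnDef

/-!
# The column: parameters, pieces

Arm `(m, σ, j)`: points `q m σ j t 0`, `0 <= t <= T`; rectangle: `q m σ j t r`, `0 <= t <= T - 1`,
`0 <= r <= s/2`; copies of the fake corridor `X` from `q m σ j (i/M) (s/2)` to
`q m σ (j+1) (i/M) 0`, `1 <= i <= (T-1) M`.  Roads: the vertical lines `re = 0`, `re = N + T c`.
-/

open Set Filter Topology

namespace Pool.Agent.H20.D1

/-- sign of a boolean. -/
def sg (b : Bool) : ℝ := if b then 1 else -1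

@[simp] theorem sg_true : sg true = 1 := rfl
@[simp] theorem sg_false : sg false = -1 := rfl

theorem sg_sq (b : Bool) : sg b * sg b = 1 := by cases b <;> simp

/-- parameters of a column. -/
structure Par where
  /-- sine of the slope. -/
  s : ℝ
  /-- cosine of the slope. -/
  c : ℝ
  /-- arm length. -/
  T : ℕ
  /-- number of steps. -/
  N : ℕ
  /-- number of teeth. -/
  K : ℕ
  /-- inverse of the spacing. -/
  M : ℕ
  hs : 0 < s
  hs' : s ≤ 1 / 10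
  hc : 0 < c
  hsc : s ^ 2 + c ^ 2 = 1
  hT : 2 ≤ T
  hN : 1 ≤ N
  hK : 1 ≤ K
  hM : 1 ≤ M

namespace Par

variable (P : Par)

noncomputable section

/-- height of the right tip of the arm. -/
def hW (m : ℕ) (σ : Bool) : ℝ := 2 * ((m : ℝ) + (if σ then 0 else 1)) * (P.T * P.s)

/-- the points of the column. -/
def q (m : ℕ) (σ : Bool) (j : ℕ) (t r : ℝ) : ℂ :=
  ⟨(j : ℝ) + P.c * (P.T - t) + P.s * r, P.hW m σ + sg σ * (P.s * t + P.c * r)⟩

/-- vector of the copies. -/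
def wv (σ : Bool) : ℂ := ⟨1 - P.s / 2 * P.s, -(P.s / 2 * (sg σ * P.c))⟩

/-- height of the column. -/
def b : ℝ := 2 * (P.K : ℝ) * (P.T * P.s)

/-- width of the column. -/
def wd : ℝ := P.N + P.T * P.c

/-- length of the copies. -/
def el : ℝ := Real.sqrt (1 - 3 / 4 * P.s ^ 2)

def arm (m : ℕ) (σ : Bool) (j : ℕ) : Set ℂ := (fun t : ℝ => P.q m σ j t 0) '' Icc 0 (P.T : ℝ)

def rect (m : ℕ) (σ : Bool) (j : ℕ) : Set ℂ :=
  {z | ∃ t ∈ Icc (0 : ℝ) (P.T - 1), ∃ r ∈ Icc (0 : ℝ) (P.s / 2), z = P.q m σ j t r}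

def copy (X : Set ℂ) (m : ℕ) (σ : Bool) (j : ℕ) (i : ℕ) : Set ℂ :=
  (fun ξ : ℂ => P.q m σ j ((i + 1 : ℝ) / P.M) (P.s / 2) + P.wv σ * ξ) '' X

def roadL : Set ℂ := {z | z.re = 0 ∧ 0 ≤ z.im ∧ z.im ≤ P.b}

def roadR : Set ℂ := {z | z.re = P.wd ∧ 0 ≤ z.im ∧ z.im ≤ P.b}

/-- the straight part of the column. -/
def base : Set ℂ :=
  (P.roadL ∪ P.roadR) ∪
    ((⋃ i : Fin P.K × Bool × Fin (P.N + 1), P.arm i.1 i.2.1 i.2.2) ∪
      ⋃ i : Fin P.K × Bool × Fin P.N, P.rect i.1 i.2.1 i.2.2)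

/-- index set of the copies. -/
abbrev CI : Type := Fin P.K × Bool × Fin P.N × Fin ((P.T - 1) * P.M)

def cop (X : Set ℂ) (i : P.CI) : Set ℂ := P.copy X i.1 i.2.1 i.2.2.1 i.2.2.2

/-- the column. -/
def col (X : Set ℂ) : Set ℂ := P.base ∪ ⋃ i : P.CI, P.cop X i

end

/-! ### elementary facts -/

theorem q_re (m : ℕ) (σ : Bool) (j : ℕ) (t r : ℝ) :
    (P.q m σ j t r).re = (j : ℝ) + P.c * (P.T - t) + P.s * r := rfl

theorem q_im (m : ℕ) (σ : Bool) (j : ℕ) (t r : ℝ) :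
    (P.q m σ j t r).im = P.hW m σ + sg σ * (P.s * t + P.c * r) := rfl

theorem c_lt_one : P.c < 1 := by nlinarith [P.hs, P.hc, P.hsc, pow_pos P.hs 2]

theorem c_ge : 99 / 100 ≤ P.c ^ 2 := by
  have h1 := P.hsc
  have h2 : P.s ^ 2 ≤ (1 / 10) ^ 2 := pow_le_pow_left₀ P.hs.le P.hs' 2
  nlinarith

theorem Tpos : (2 : ℝ) ≤ P.T := by exact_mod_cast P.hT
theorem Npos : (1 : ℝ) ≤ P.N := by exact_mod_cast P.hN
theorem Kpos : (1 : ℝ) ≤ P.K := by exact_mod_cast P.hK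
theorem Mpos : (1 : ℝ) ≤ P.M := by exact_mod_cast P.hM

theorem Ts_pos : 0 < (P.T : ℝ) * P.s := mul_pos (by linarith [P.Tpos]) P.hs

theorem b_pos : 0 < P.b := by
  unfold b
  have := P.Ts_pos
  have := P.Kpos
  positivity

theorem wd_pos : 0 < P.wd := by
  unfold wd
  have := P.Npos
  have := P.hc
  have := P.Tpos
  positivity

theorem el_sq : P.el ^ 2 = 1 - 3 / 4 * P.s ^ 2 := by
  unfold el
  rw [Real.sq_sqrt]
  nlinarith [P.hs, P.hs', pow_le_pow_left₀ P.hs.le P.hs' 2]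

theorem el_nonneg : 0 ≤ P.el := Real.sqrt_nonneg _

theorem el_le_one : P.el ≤ 1 := by
  unfold el
  rw [Real.sqrt_le_one]
  nlinarith [pow_pos P.hs 2]

theorem el_pos : 0 < P.el := by
  unfold el
  apply Real.sqrt_pos.mpr
  nlinarith [P.hs, P.hs', pow_le_pow_left₀ P.hs.le P.hs' 2]

theorem el_ge : 1 - 3 / 4 * P.s ^ 2 ≤ P.el := by
  have h1 := P.el_sq
  have h2 := P.el_le_one
  have h3 := P.el_nonneg
  nlinarith

theorem norm_wv (σ : Bool) : ‖P.wv σ‖ = P.el := by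
  have h : ‖P.wv σ‖ ^ 2 = P.el ^ 2 := by
    rw [P.el_sq, ← Complex.normSq_eq_norm_sq, Complex.normSq_apply]
    simp only [wv]
    have := P.hsc
    have h2 := sg_sq σ
    have e : -(P.s / 2 * (sg σ * P.c)) * -(P.s / 2 * (sg σ * P.c)) = P.s ^ 2 / 4 * P.c ^ 2 * (sg σ * sg σ) := by
      ring
    rw [e, h2]
    have : P.c ^ 2 = 1 - P.s ^ 2 := by linarith
    rw [this]
    ring
  exact (pow_left_inj₀ (norm_nonneg _) P.el_nonneg two_ne_zero).mp h

theorem wv_ne (σ : Bool) : P.wv σ ≠ 0 := by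
  rw [← norm_pos_iff, P.norm_wv]
  exact P.el_pos

/-- the copies end on the next zigzag. -/
theorem copy_end (m : ℕ) (σ : Bool) (j : ℕ) (t : ℝ) :
    P.q m σ j t (P.s / 2) + P.wv σ = P.q m σ (j + 1) t 0 := by
  apply Complex.ext
  · simp only [Complex.add_re, q_re, wv]
    push_cast
    ring
  · simp only [Complex.add_im, q_im, wv]
    ring

/-- distance along a line `r = const`. -/
theorem dist_q (m : ℕ) (σ : Bool) (j : ℕ) (t t' r r' : ℝ) :
    dist (P.q m σ j t r) (P.q m σ j t' r') = Real.sqrt ((t - t') ^ 2 + (r - r') ^ 2) := by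
  rw [Complex.dist_eq_re_im]
  congr 1
  simp only [q_re, q_im]
  have h := P.hsc
  have h2 := sg_sq σ
  have e1 : (P.hW m σ + sg σ * (P.s * t + P.c * r) - (P.hW m σ + sg σ * (P.s * t' + P.c * r'))) ^ 2
      = (sg σ * sg σ) * (P.s * (t - t') + P.c * (r - r')) ^ 2 := by ring
  rw [e1, h2]
  have : (↑j + P.c * (↑P.T - t) + P.s * r - (↑j + P.c * (↑P.T - t') + P.s * r')) ^ 2 +
      1 * (P.s * (t - t') + P.c * (r - r')) ^ 2 = (P.s ^ 2 + P.c ^ 2) * ((t - t') ^ 2 + (r - r') ^ 2) := by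
    ring
  rw [this, h]
  ring

theorem dist_q_t (m : ℕ) (σ : Bool) (j : ℕ) (t t' r : ℝ) :
    dist (P.q m σ j t r) (P.q m σ j t' r) = |t - t'| := by
  rw [dist_q, sub_self, zero_pow two_ne_zero, add_zero, Real.sqrt_sq_eq_abs]

theorem dist_q_r (m : ℕ) (σ : Bool) (j : ℕ) (t r r' : ℝ) :
    dist (P.q m σ j t r) (P.q m σ j t r') = |r - r'| := by
  rw [dist_q, sub_self, zero_pow two_ne_zero, zero_add, Real.sqrt_sq_eq_abs]

end Par

end Pool.Agent.H20.D1
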