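import Pool.Agent.Lib.Helper20.D1.Geo

/-!
# Columns: finite union of convex sets, box, roads, links
-/

open Set Filter Topology

namespace Pool.Agent.H20.D1

/-- L1: parallelograms and segments -/
theorem l1_par (a b c : ℂ) (hb : b ≠ 0) {L R : ℝ} (hL : 0 < L) (hR : 0 ≤ R) :
    Poly {z | ∃ t ∈ Icc (0 : ℝ) L, ∃ r ∈ Icc (0 : ℝ) R, z = a + (t : ℂ) * b + (r : ℂ) * c} := by
  have he : {z | ∃ t ∈ Icc (0 : ℝ) L, ∃ r ∈ Icc (0 : ℝ) R, z = a + (t : ℂ) * b + (r : ℂ) * c} =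
      (fun p : ℝ × ℝ => a + (p.1 : ℂ) * b + (p.2 : ℂ) * c) '' (Icc (0 : ℝ) L ×ˢ Icc (0 : ℝ) R) := by
    ext z
    constructor
    · rintro ⟨t, ht, r, hr, rfl⟩
      exact ⟨(t, r), ⟨ht, hr⟩, rfl⟩
    · rintro ⟨⟨t, r⟩, ⟨ht, hr⟩, rfl⟩
      exact ⟨t, ht, r, hr, rfl⟩
  rw [he]
  apply Poly.of_convex
  · exact (isCompact_Icc.prod isCompact_Icc).image (by fun_prop)
  · rintro _ ⟨⟨t, r⟩, ⟨ht, hr⟩, rfl⟩ _ ⟨⟨t', r'⟩, ⟨ht', hr'⟩, rfl⟩ u v hu hv huv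
    refine ⟨(u * t + v * t', u * r + v * r'), ⟨?_, ?_⟩, ?_⟩
    · exact (convex_Icc (0 : ℝ) L) ht ht' hu hv huv
    · exact (convex_Icc (0 : ℝ) R) hr hr' hu hv huv
    · have e : ((u : ℂ) + (v : ℂ)) = 1 := by rw [← Complex.ofReal_add, huv, Complex.ofReal_one]
      simp only [Complex.real_smul]
      push_cast
      calc _ = ((u : ℂ) + (v : ℂ)) * a + (u * t + v * t') * b + (u * r + v * r') * c := by
            rw [e, one_mul]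
        _ = _ := by ring
  · refine ⟨a, ⟨(0, 0), ⟨⟨le_rfl, hL.le⟩, ⟨le_rfl, hR⟩⟩, by simp⟩, a + (L : ℂ) * b,
      ⟨(L, 0), ⟨⟨hL.le, le_rfl⟩, ⟨le_rfl, hR⟩⟩, by simp⟩, ?_⟩
    intro h
    have h1 : (L : ℂ) * b = 0 := by
      have := congrArg (fun z => z - a) h
      simpa using this.symm
    rcases mul_eq_zero.1 h1 with h2 | h2
    · exact hL.ne' (by exact_mod_cast h2)
    · exact hb h2

namespace Par

variable (P : Par)

/-- L1: the points `q` are affine in the parameters -/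
theorem l1_q (m : ℕ) (σ : Bool) (j : ℕ) (t r : ℝ) :
    P.q m σ j t r = ⟨(j : ℝ) + P.c * P.T, P.hW m σ⟩ + (t : ℂ) * ⟨-P.c, sg σ * P.s⟩ +
      (r : ℂ) * ⟨P.s, sg σ * P.c⟩ := by
  apply Complex.ext
  · simp only [q_re, Complex.add_re, Complex.mul_re, Complex.ofReal_re, Complex.ofReal_im]
    ring
  · simp only [q_im, Complex.add_im, Complex.mul_im, Complex.ofReal_re, Complex.ofReal_im]
    ring

theorem l1_ne (σ : Bool) : (⟨-P.c, sg σ * P.s⟩ : ℂ) ≠ 0 := by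
  intro h
  have := congrArg Complex.re h
  simp only [Complex.zero_re] at this
  linarith [P.hc]

theorem l1_arm (m : ℕ) (σ : Bool) (j : ℕ) : Poly (P.arm m σ j) := by
  have h := l1_par ⟨(j : ℝ) + P.c * P.T, P.hW m σ⟩ ⟨-P.c, sg σ * P.s⟩ 0 (P.l1_ne σ)
    (L := P.T) (R := 0) (by linarith [P.Tpos]) le_rfl
  convert h using 1
  ext z
  constructor
  · rintro ⟨t, ht, rfl⟩
    refine ⟨t, ht, 0, ⟨le_rfl, le_rfl⟩, ?_⟩
    simp only [l1_q]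
    simp
  · rintro ⟨t, ht, r, hr, rfl⟩
    refine ⟨t, ht, ?_⟩
    simp only [l1_q]
    simp

theorem l1_rect (m : ℕ) (σ : Bool) (j : ℕ) : Poly (P.rect m σ j) := by
  have h := l1_par ⟨(j : ℝ) + P.c * P.T, P.hW m σ⟩ ⟨-P.c, sg σ * P.s⟩ ⟨P.s, sg σ * P.c⟩
    (P.l1_ne σ) (L := P.T - 1) (R := P.s / 2) (by linarith [P.Tpos]) (by linarith [P.hs])
  convert h using 1
  ext z
  constructor
  · rintro ⟨t, ht, r, hr, rfl⟩
    exact ⟨t, ht, r, hr, P.l1_q m σ j t r⟩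
  · rintro ⟨t, ht, r, hr, rfl⟩
    exact ⟨t, ht, r, hr, (P.l1_q m σ j t r).symm⟩

theorem l1_road (x : ℝ) : Poly {z : ℂ | z.re = x ∧ 0 ≤ z.im ∧ z.im ≤ P.b} := by
  have h := l1_par (x : ℂ) Complex.I 0 Complex.I_ne_zero (L := P.b) (R := 0) P.b_pos le_rfl
  convert h using 1
  ext z
  constructor
  · rintro ⟨h1, h2, h3⟩
    refine ⟨z.im, ⟨h2, h3⟩, 0, ⟨le_rfl, le_rfl⟩, ?_⟩
    apply Complex.ext <;> simp [h1]
  · rintro ⟨t, ht, r, hr, rfl⟩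
    refine ⟨by simp, ?_, ?_⟩
    · simpa using ht.1
    · simpa using ht.2

theorem col_poly {A D : ℝ} {X : Set ℂ} (hX : Fake A D (P.s / (4 * P.M)) X) : Poly (P.col X) := by
  unfold col base
  refine Poly.union (Poly.union (Poly.union (P.l1_road 0) (P.l1_road P.wd))
    (Poly.union (Poly.iUnion fun i => P.l1_arm _ _ _) (Poly.iUnion fun i => P.l1_rect _ _ _)))
    (Poly.iUnion fun i => ?_)
  exact hX.poly.affine _ _ (P.wv_ne _)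

theorem l1_box {m : ℕ} (hm : m < P.K) (σ : Bool) {U : ℝ} (h0 : 0 ≤ U) (h1 : U ≤ P.T * P.s) :
    0 ≤ P.hW m σ + sg σ * U ∧ P.hW m σ + sg σ * U ≤ P.b := by
  have hTs := P.Ts_pos
  have hm' : (m : ℝ) + 1 ≤ P.K := by exact_mod_cast hm
  have hm0 : (0 : ℝ) ≤ m := by positivity
  have h2 : ((m : ℝ) + 1) * (P.T * P.s) ≤ P.K * (P.T * P.s) :=
    mul_le_mul_of_nonneg_right hm' hTs.le
  have h3 : 0 ≤ (m : ℝ) * (P.T * P.s) := mul_nonneg hm0 hTs.le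
  cases σ
  · unfold hW b
    simp only [sg_false, Bool.false_eq_true, if_false]
    constructor <;> nlinarith
  · unfold hW b
    simp only [sg_true, if_true]
    constructor <;> nlinarith

/-- L1: bounds for the copies -/
theorem l1_num {s c ρ x y v : ℝ} (hs : 0 < s) (hs' : s ≤ 1 / 10) (hc : 0 < c) (hc1 : c < 1)
    (hρ0 : 0 < ρ) (hρ1 : ρ ≤ s / 4) (hd1 : |y| ≤ ρ * x) (hd2 : |y| ≤ ρ * (1 - x))
    (hv : v = y ∨ v = -y) :
    0 ≤ x ∧ x ≤ 1 ∧ |y| ≤ ρ / 2 ∧ -|y| ≤ v ∧ v ≤ |y| := by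
  have hy0 := abs_nonneg y
  have hx0 : 0 ≤ x := by
    by_contra hne
    push Not at hne
    have := mul_neg_of_pos_of_neg hρ0 hne
    linarith
  have hx1 : x ≤ 1 := by
    by_contra hne
    push Not at hne
    have := mul_neg_of_pos_of_neg hρ0 (show 1 - x < 0 by linarith)
    linarith
  have hy1 : -|y| ≤ y := neg_abs_le _
  have hy2 : y ≤ |y| := le_abs_self _
  refine ⟨hx0, hx1, ?_, ?_, ?_⟩
  · have : ρ * x + ρ * (1 - x) = ρ := by ring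
    linarith
  · rcases hv with h | h <;> rw [h] <;> linarith
  · rcases hv with h | h <;> rw [h] <;> linarith

theorem l1_num_re {s c ρ x y v : ℝ} (hs : 0 < s) (hs' : s ≤ 1 / 10) (hc : 0 < c) (hc1 : c < 1)
    (hρ0 : 0 < ρ) (hρ1 : ρ ≤ s / 4) (hd1 : |y| ≤ ρ * x) (hd2 : |y| ≤ ρ * (1 - x))
    (hv : v = y ∨ v = -y) :
    0 ≤ s ^ 2 / 2 + (1 - s ^ 2 / 2) * x + s * c / 2 * v ∧
      s ^ 2 / 2 + (1 - s ^ 2 / 2) * x + s * c / 2 * v ≤ 1 := by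
  obtain ⟨hx0, hx1, hy, hv1, hv2⟩ := l1_num hs hs' hc hc1 hρ0 hρ1 hd1 hd2 hv
  have hss0 : 0 ≤ s ^ 2 / 2 := by positivity
  have hss : s ^ 2 / 2 ≤ 1 / 200 := by
    have : s ^ 2 ≤ (1 / 10) ^ 2 := pow_le_pow_left₀ hs.le hs' 2
    linarith
  have hsc0 : 0 ≤ s * c / 2 := by positivity
  have hsc : s * c / 2 ≤ 1 / 20 := by
    have : s * c ≤ 1 / 10 * 1 := mul_le_mul hs' hc1.le hc.le (by norm_num)
    linarith
  have hy0 := abs_nonneg y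
  have e1 : s * c / 2 * |y| ≤ 1 / 20 * |y| := mul_le_mul_of_nonneg_right hsc hy0
  have e2 : s * c / 2 * v ≤ s * c / 2 * |y| := mul_le_mul_of_nonneg_left hv2 hsc0
  have e3 : s * c / 2 * (-|y|) ≤ s * c / 2 * v := mul_le_mul_of_nonneg_left hv1 hsc0
  have hρs : ρ ≤ 1 / 40 := by linarith
  have e4 : ρ * x ≤ 1 / 40 * x := mul_le_mul_of_nonneg_right hρs hx0
  have e5 : ρ * (1 - x) ≤ 1 / 40 * (1 - x) := mul_le_mul_of_nonneg_right hρs (by linarith)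
  have e6 : (199 / 200) * x ≤ (1 - s ^ 2 / 2) * x :=
    mul_le_mul_of_nonneg_right (by linarith) hx0
  have e7 : (199 / 200) * (1 - x) ≤ (1 - s ^ 2 / 2) * (1 - x) :=
    mul_le_mul_of_nonneg_right (by linarith) (by linarith)
  constructor
  · linarith
  · have e8 : (1 - s ^ 2 / 2) * x = (1 - s ^ 2 / 2) - (1 - s ^ 2 / 2) * (1 - x) := by ring
    linarith

theorem l1_num_im {s c ρ x y v T τ M : ℝ} (hs : 0 < s) (hs' : s ≤ 1 / 10) (hc : 0 < c)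
    (hc1 : c < 1) (hM : 1 ≤ M) (hρ : ρ = s / (4 * M)) (hd1 : |y| ≤ ρ * x)
    (hd2 : |y| ≤ ρ * (1 - x)) (hv : v = y ∨ v = -y) (hτ0 : 1 / M ≤ τ) (hτ1 : τ ≤ T - 1) :
    0 ≤ s * τ + c * s / 2 * (1 - x) + (1 - s ^ 2 / 2) * v ∧
      s * τ + c * s / 2 * (1 - x) + (1 - s ^ 2 / 2) * v ≤ T * s := by
  have hM0 : 0 < M := by linarith
  have hρ0 : 0 < ρ := by rw [hρ]; positivity
  have hρM : 4 * ρ = s * (1 / M) := by rw [hρ]; field_simp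
  have hM1 : 1 / M ≤ 1 := by rw [div_le_one hM0]; exact hM
  have hρ1 : ρ ≤ s / 4 := by
    have : s * (1 / M) ≤ s * 1 := mul_le_mul_of_nonneg_left hM1 hs.le
    linarith
  obtain ⟨hx0, hx1, hy, hv1, hv2⟩ := l1_num hs hs' hc hc1 hρ0 hρ1 hd1 hd2 hv
  have hss0 : 0 ≤ s ^ 2 / 2 := by positivity
  have hss : s ^ 2 / 2 ≤ 1 / 200 := by
    have : s ^ 2 ≤ (1 / 10) ^ 2 := pow_le_pow_left₀ hs.le hs' 2
    linarith
  have hy0 := abs_nonneg y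
  have h1 : s * (1 / M) ≤ s * τ := mul_le_mul_of_nonneg_left hτ0 hs.le
  have h3 : 0 ≤ c * s / 2 * (1 - x) := mul_nonneg (by positivity) (by linarith)
  have h4 : 0 ≤ s ^ 2 / 2 * |y| := mul_nonneg hss0 hy0
  have h5 : (1 - s ^ 2 / 2) * v ≤ (1 - s ^ 2 / 2) * |y| :=
    mul_le_mul_of_nonneg_left hv2 (by linarith)
  have h6 : (1 - s ^ 2 / 2) * (-|y|) ≤ (1 - s ^ 2 / 2) * v :=
    mul_le_mul_of_nonneg_left hv1 (by linarith)
  have h7 : s * τ ≤ s * (T - 1) := mul_le_mul_of_nonneg_left hτ1 hs.le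
  have h8 : c * s / 2 * (1 - x) ≤ c * s / 2 * 1 :=
    mul_le_mul_of_nonneg_left (by linarith) (by positivity)
  have h10 : c * s ≤ 1 * s := mul_le_mul_of_nonneg_right hc1.le hs.le
  constructor
  · linarith
  · linarith

theorem l1_copy_box {A D : ℝ} {X : Set ℂ} (hX : Fake A D (P.s / (4 * P.M)) X) (m : Fin P.K)
    (σ : Bool) (j : Fin P.N) (i : Fin ((P.T - 1) * P.M)) (ξ : ℂ) (hξ : ξ ∈ X) :
    0 ≤ (P.q m σ j ((((i : ℕ) : ℝ) + 1) / P.M) (P.s / 2) + P.wv σ * ξ).re ∧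
    (P.q m σ j ((((i : ℕ) : ℝ) + 1) / P.M) (P.s / 2) + P.wv σ * ξ).re ≤ P.wd ∧
    0 ≤ (P.q m σ j ((((i : ℕ) : ℝ) + 1) / P.M) (P.s / 2) + P.wv σ * ξ).im ∧
    (P.q m σ j ((((i : ℕ) : ℝ) + 1) / P.M) (P.s / 2) + P.wv σ * ξ).im ≤ P.b := by
  have hs := P.hs
  have hs' := P.hs'
  have hc := P.hc
  have hc1 := P.c_lt_one
  have hTp := P.Tpos
  have hMp := P.Mpos
  have hj : ((j : ℕ) : ℝ) + 1 ≤ P.N := by exact_mod_cast j.2
  have hj0 : (0 : ℝ) ≤ ((j : ℕ) : ℝ) := by positivity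
  have hM0 : (0 : ℝ) < P.M := by linarith
  have hτ0 : 1 / (P.M : ℝ) ≤ (((i : ℕ) : ℝ) + 1) / P.M := by
    apply div_le_div_of_nonneg_right _ hM0.le
    have : (0 : ℝ) ≤ ((i : ℕ) : ℝ) := by positivity
    linarith
  have hτ1 : (((i : ℕ) : ℝ) + 1) / P.M ≤ P.T - 1 := by
    rw [div_le_iff₀ hM0]
    have h1 : (i : ℕ) + 1 ≤ (P.T - 1) * P.M := i.2
    have h2 : (((i : ℕ) + 1 : ℕ) : ℝ) ≤ (((P.T - 1) * P.M : ℕ) : ℝ) := by exact_mod_cast h1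
    rw [Nat.cast_mul, Nat.cast_sub (by have := P.hT; omega)] at h2
    push_cast at h2
    exact h2
  generalize (((i : ℕ) : ℝ) + 1) / P.M = τ at hτ0 hτ1
  obtain ⟨hd1, hd2⟩ := hX.diam ξ hξ
  have hσ : sg σ * ξ.im = ξ.im ∨ sg σ * ξ.im = -ξ.im := by cases σ <;> simp
  have hre : (P.q m σ j τ (P.s / 2) + P.wv σ * ξ).re =
      j + P.c * (P.T - τ) + (P.s ^ 2 / 2 + (1 - P.s ^ 2 / 2) * ξ.re +
        P.s * P.c / 2 * (sg σ * ξ.im)) := by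
    simp only [Complex.add_re, Complex.mul_re, q_re, wv]
    ring
  have him : (P.q m σ j τ (P.s / 2) + P.wv σ * ξ).im = P.hW m σ + sg σ *
      (P.s * τ + P.c * P.s / 2 * (1 - ξ.re) + (1 - P.s ^ 2 / 2) * (sg σ * ξ.im)) := by
    simp only [Complex.add_im, Complex.mul_im, q_im, wv]
    have h2 := sg_sq σ
    linear_combination (-(1 - P.s ^ 2 / 2) * ξ.im) * h2
  have hρ0 : 0 < P.s / (4 * P.M) := by positivity
  have hρ1 : P.s / (4 * P.M) ≤ P.s / 4 := by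
    apply div_le_div_of_nonneg_left hs.le (by norm_num)
    linarith
  obtain ⟨h1, h2⟩ := l1_num_re hs hs' hc hc1 hρ0 hρ1 hd1 hd2 hσ
  obtain ⟨h3, h4⟩ := l1_num_im hs hs' hc hc1 hMp rfl hd1 hd2 hσ hτ0 hτ1
  obtain ⟨h5, h6⟩ := P.l1_box m.2 σ h3 h4
  rw [hre, him]
  have hτp : 0 ≤ τ := le_trans (by positivity) hτ0
  have h7 : 0 ≤ P.c * (P.T - τ) := mul_nonneg hc.le (by linarith)
  have h8 : 0 ≤ P.c * τ := mul_nonneg hc.le hτp
  refine ⟨by linarith, ?_, h5, h6⟩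
  unfold wd
  linarith

theorem col_box {A D : ℝ} {X : Set ℂ} (hX : Fake A D (P.s / (4 * P.M)) X) :
    ∀ z ∈ P.col X, 0 ≤ z.re ∧ z.re ≤ P.wd ∧ 0 ≤ z.im ∧ z.im ≤ P.b := by
  have hs := P.hs
  have hs' := P.hs'
  have hc := P.hc
  have hc1 := P.c_lt_one
  have hTp := P.Tpos
  have hMp := P.Mpos
  have hbp := P.b_pos
  have hwp := P.wd_pos
  rintro z (((hz | hz) | (hz | hz)) | hz)
  · obtain ⟨h1, h2, h3⟩ := hz
    rw [h1]
    exact ⟨le_rfl, hwp.le, h2, h3⟩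
  · obtain ⟨h1, h2, h3⟩ := hz
    rw [h1]
    exact ⟨hwp.le, le_rfl, h2, h3⟩
  · obtain ⟨⟨m, σ, j⟩, t, ht, rfl⟩ := mem_iUnion.mp hz
    have hj : ((j : ℕ) : ℝ) ≤ P.N := by exact_mod_cast Nat.lt_succ_iff.mp j.2
    have hj0 : (0 : ℝ) ≤ ((j : ℕ) : ℝ) := by positivity
    have h1 := P.l1_box m.2 σ (U := P.s * t + P.c * 0) (by nlinarith [ht.1]) (by nlinarith [ht.2])
    simp only [q_re, q_im]
    refine ⟨by nlinarith [ht.2], ?_, h1.1, h1.2⟩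
    unfold wd
    nlinarith [ht.1]
  · obtain ⟨⟨m, σ, j⟩, t, ht, r, hr, rfl⟩ := mem_iUnion.mp hz
    have hj : ((j : ℕ) : ℝ) + 1 ≤ P.N := by exact_mod_cast j.2
    have hj0 : (0 : ℝ) ≤ ((j : ℕ) : ℝ) := by positivity
    have hr1 : P.c * r ≤ P.s / 2 := by nlinarith [hr.1, hr.2]
    have hr2 : 0 ≤ P.c * r := mul_nonneg hc.le hr.1
    have h1 := P.l1_box m.2 σ (U := P.s * t + P.c * r) (by nlinarith [ht.1])
      (by nlinarith [ht.2])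
    simp only [q_re, q_im]
    have h2 : 0 ≤ P.c * (P.T - t) := mul_nonneg hc.le (by linarith [ht.2])
    have h3 : 0 ≤ P.s * r := mul_nonneg hs.le hr.1
    have h4 : P.s * r ≤ 1 := by nlinarith [hr.1, hr.2]
    refine ⟨by linarith, ?_, h1.1, h1.2⟩
    unfold wd
    have h5 : P.c * t ≥ 0 := mul_nonneg hc.le ht.1
    nlinarith
  · obtain ⟨⟨m, σ, j, i⟩, ξ, hξ, rfl⟩ := mem_iUnion.mp hz
    exact P.l1_copy_box hX m σ j i ξ hξ

end Par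

end Pool.Agent.H20.D1
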