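import Pool.Agent.Lib.Helper20.D1.Geo

/-!
# The potential on a column
-/

open Set Filter Topology

namespace Pool.Agent.H20.D1

theorem abs_sub_round_of {x v : ℝ} {n : ℤ} (h : x = n + v) (hv : |v| ≤ 1 / 2) :
    |x - round x| = |v| := by
  apply le_antisymm
  · have h1 := round_le x n
    have h2 : x - (n : ℝ) = v := by rw [h]; ring
    rwa [h2] at h1
  · set k : ℤ := round x - n with hk
    have e : x - round x = v - k := by rw [hk, h]; push_cast; ring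
    rw [e]
    rcases lt_trichotomy k 0 with h1 | h1 | h1
    · have h2 : (k : ℝ) ≤ -1 := by exact_mod_cast (by omega : k ≤ -1)
      have h3 := abs_le.mp hv
      rw [abs_of_nonneg (by linarith : 0 ≤ v - k)]
      linarith
    · rw [h1]; simp
    · have h2 : (1 : ℝ) ≤ k := by exact_mod_cast (by omega : 1 ≤ k)
      have h3 := abs_le.mp hv
      rw [abs_of_nonpos (by linarith : v - k ≤ 0)]
      linarith

namespace Par

variable (P : Par)

noncomputable section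

/-- the step coordinate. -/
def Lam (z : ℂ) : ℝ := z.re - P.T * P.c +
  2 * P.T * P.c * |z.im / (2 * (P.T * P.s)) - round (z.im / (2 * (P.T * P.s)))|

/-- clamping to `[0,N]`. -/
def cl (x : ℝ) : ℝ := max 0 (min x P.N)

/-- the potential on the base. -/
def Fb (H : ℝ) (x : ℝ) : ℝ := H * ⌊P.cl x⌋ + P.s * min (Int.fract (P.cl x)) (1 / 2)

end

theorem Lam_of {z : ℂ} {m : ℕ} {σ : Bool} {u : ℝ} (hz : z.im = P.hW m σ + sg σ * u) (h0 : 0 ≤ u)
    (h1 : u ≤ P.T * P.s) : P.Lam z = z.re - P.T * P.c + P.c * u / P.s := by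
  have hTs := P.Ts_pos
  have hs := P.hs
  have hv : z.im / (2 * (P.T * P.s)) = ((m : ℤ) + (if σ then 0 else 1) : ℤ) + sg σ * (u / (2 * (P.T * P.s))) := by
    have hT : (P.T : ℝ) ≠ 0 := by have := P.Tpos; positivity
    rw [hz]
    unfold hW
    cases σ
    · simp; field_simp
    · simp; field_simp
  have hb : |sg σ * (u / (2 * (P.T * P.s)))| = u / (2 * (P.T * P.s)) := by
    have : |sg σ| = 1 := by cases σ <;> simp
    rw [abs_mul, this, one_mul, abs_of_nonneg (by positivity)]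
  have hb2 : u / (2 * (P.T * P.s)) ≤ 1 / 2 := by
    rw [div_le_div_iff₀ (by positivity) (by norm_num)]
    linarith
  unfold Lam
  rw [abs_sub_round_of hv (by rw [hb]; exact hb2), hb]
  have hT : (P.T : ℝ) ≠ 0 := by have := P.Tpos; positivity
  field_simp

theorem Lam_q {m : ℕ} {σ : Bool} {j : ℕ} {t r : ℝ} (h0 : 0 ≤ P.s * t + P.c * r)
    (h1 : P.s * t + P.c * r ≤ P.T * P.s) : P.Lam (P.q m σ j t r) = j + r / P.s := by
  have hs := P.hs
  rw [P.Lam_of (m := m) (σ := σ) (P.q_im m σ j t r) h0 h1, P.q_re]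
  have := P.hsc
  field_simp
  have e : P.c ^ 2 = 1 - P.s ^ 2 := by linarith
  linear_combination r * this

theorem Lam_left {z : ℂ} (hz : z.re = 0) : P.Lam z ≤ 0 := by
  have h := abs_sub_round (z.im / (2 * (P.T * P.s)))
  have h2 : 0 < (P.T : ℝ) * P.c := mul_pos (by linarith [P.Tpos]) P.hc
  unfold Lam
  rw [hz]
  nlinarith

theorem Lam_right {z : ℂ} (hz : z.re = P.wd) : P.N ≤ P.Lam z := by
  have h := abs_nonneg (z.im / (2 * (P.T * P.s)) - round (z.im / (2 * (P.T * P.s))))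
  have h2 : 0 < (P.T : ℝ) * P.c := mul_pos (by linarith [P.Tpos]) P.hc
  have h3 : 0 ≤ 2 * P.T * P.c * |z.im / (2 * (P.T * P.s)) - round (z.im / (2 * (P.T * P.s)))| := by
    have : 0 ≤ 2 * P.T * P.c := by linarith
    exact mul_nonneg this h
  unfold Lam
  rw [hz]
  unfold wd
  linarith

theorem Fb_left (H : ℝ) {x : ℝ} (hx : x ≤ 0) : P.Fb H x = 0 := by
  have : P.cl x = 0 := by
    unfold cl
    exact max_eq_left ((min_le_left _ _).trans hx)
  unfold Fb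
  rw [this]
  simp

theorem Fb_right (H : ℝ) {x : ℝ} (hx : P.N ≤ x) : P.Fb H x = P.N * H := by
  have : P.cl x = (P.N : ℕ) := by
    unfold cl
    rw [min_eq_right hx, max_eq_right (Nat.cast_nonneg _)]
  unfold Fb
  rw [this]
  simp [mul_comm]

theorem Fb_mid (H : ℝ) {j : ℕ} (hj : j < P.N) {v : ℝ} (h0 : 0 ≤ v) (h1 : v ≤ 1 / 2) :
    P.Fb H (j + v) = j * H + P.s * v := by
  have hj' : (j : ℝ) + 1 ≤ P.N := by exact_mod_cast hj
  have hcl : P.cl (j + v) = j + v := by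
    unfold cl
    rw [min_eq_left (by linarith), max_eq_right (by positivity)]
  have hfl : ⌊(j : ℝ) + v⌋ = j := by
    rw [Int.floor_eq_iff]
    push_cast
    constructor <;> linarith
  have hfr : Int.fract ((j : ℝ) + v) = v := by
    unfold Int.fract
    rw [hfl]
    push_cast
    ring
  unfold Fb
  rw [hcl, hfl, hfr, min_eq_left h1]
  push_cast
  ring

theorem Fb_int (H : ℝ) {j : ℕ} (hj : j ≤ P.N) : P.Fb H j = j * H := by
  rcases hj.lt_or_eq with h | h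
  · have := P.Fb_mid H h (v := 0) le_rfl (by norm_num)
    simpa using this
  · rw [h]
    exact P.Fb_right H le_rfl

theorem hW_arm (t : ℝ) (ht : t ∈ Icc (0 : ℝ) P.T) : 0 ≤ P.s * t + P.c * 0 ∧
    P.s * t + P.c * 0 ≤ P.T * P.s := by
  have hs := P.hs
  obtain ⟨h0, h1⟩ := ht
  constructor
  · have := mul_nonneg hs.le h0
    linarith
  · nlinarith

theorem hW_rect {t r : ℝ} (ht : t ∈ Icc (0 : ℝ) (P.T - 1)) (hr : r ∈ Icc (0 : ℝ) (P.s / 2)) :
    0 ≤ P.s * t + P.c * r ∧ P.s * t + P.c * r ≤ P.T * P.s := by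
  have hs := P.hs
  have hc := P.hc
  have hc1 := P.c_lt_one
  obtain ⟨h0, h1⟩ := ht
  obtain ⟨h2, h3⟩ := hr
  constructor
  · positivity
  · nlinarith

theorem Lam_arm {m : ℕ} {σ : Bool} {j : ℕ} {z : ℂ} (hz : z ∈ P.arm m σ j) : P.Lam z = j := by
  obtain ⟨t, ht, rfl⟩ := hz
  obtain ⟨h0, h1⟩ := P.hW_arm t ht
  have := P.Lam_q (m := m) (σ := σ) (j := j) h0 h1
  simpa using this

theorem Lam_rect {m : ℕ} {σ : Bool} {j : ℕ} {t r : ℝ} (ht : t ∈ Icc (0 : ℝ) (P.T - 1))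
    (hr : r ∈ Icc (0 : ℝ) (P.s / 2)) : P.Lam (P.q m σ j t r) = j + r / P.s := by
  obtain ⟨h0, h1⟩ := P.hW_rect ht hr
  exact P.Lam_q h0 h1

theorem arm_closed (m : ℕ) (σ : Bool) (j : ℕ) : IsClosed (P.arm m σ j) := by
  have hc : Continuous (fun t : ℝ => P.q m σ j t 0) := by
    have : (fun t : ℝ => P.q m σ j t 0) = fun t : ℝ => (((j : ℝ) + P.c * (P.T - t) + P.s * 0 : ℝ) : ℂ) +
        ((P.hW m σ + sg σ * (P.s * t + P.c * 0) : ℝ) : ℂ) * Complex.I := by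
      funext t
      apply Complex.ext <;> simp [q]
    rw [this]
    fun_prop
  exact (isCompact_Icc.image hc).isClosed

theorem rect_closed (m : ℕ) (σ : Bool) (j : ℕ) : IsClosed (P.rect m σ j) := by
  have hc : Continuous (fun p : ℝ × ℝ => P.q m σ j p.1 p.2) := by
    have : (fun p : ℝ × ℝ => P.q m σ j p.1 p.2) =
        fun p : ℝ × ℝ => (((j : ℝ) + P.c * (P.T - p.1) + P.s * p.2 : ℝ) : ℂ) +
        ((P.hW m σ + sg σ * (P.s * p.1 + P.c * p.2) : ℝ) : ℂ) * Complex.I := by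
      funext t
      apply Complex.ext <;> simp [q]
    rw [this]
    fun_prop
  have e : P.rect m σ j = (fun p : ℝ × ℝ => P.q m σ j p.1 p.2) ''
      (Icc (0 : ℝ) (P.T - 1) ×ˢ Icc (0 : ℝ) (P.s / 2)) := by
    ext z
    constructor
    · rintro ⟨t, ht, r, hr, rfl⟩
      exact ⟨(t, r), ⟨ht, hr⟩, rfl⟩
    · rintro ⟨⟨t, r⟩, ⟨ht, hr⟩, rfl⟩
      exact ⟨t, ht, r, hr, rfl⟩
  rw [e]
  exact ((isCompact_Icc.prod isCompact_Icc).image hc).isClosed

theorem roadL_closed : IsClosed P.roadL := by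
  have : P.roadL = {z : ℂ | z.re = 0} ∩ ({z : ℂ | 0 ≤ z.im} ∩ {z : ℂ | z.im ≤ P.b}) := by
    ext z; rfl
  rw [this]
  exact (isClosed_eq Complex.continuous_re continuous_const).inter
    ((isClosed_le continuous_const Complex.continuous_im).inter
      (isClosed_le Complex.continuous_im continuous_const))

theorem roadR_closed : IsClosed P.roadR := by
  have : P.roadR = {z : ℂ | z.re = P.wd} ∩ ({z : ℂ | 0 ≤ z.im} ∩ {z : ℂ | z.im ≤ P.b}) := by
    ext z; rfl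
  rw [this]
  exact (isClosed_eq Complex.continuous_re continuous_const).inter
    ((isClosed_le continuous_const Complex.continuous_im).inter
      (isClosed_le Complex.continuous_im continuous_const))

theorem base_closed : IsClosed P.base := by
  unfold base
  exact (P.roadL_closed.union P.roadR_closed).union
    ((isClosed_iUnion_of_finite fun i => P.arm_closed _ _ _).union
      (isClosed_iUnion_of_finite fun i => P.rect_closed _ _ _))

theorem Fb_arm (H : ℝ) {m : ℕ} {σ : Bool} {j : ℕ} (hj : j ≤ P.N) {z : ℂ} (hz : z ∈ P.arm m σ j) :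
    P.Fb H (P.Lam z) = j * H := by
  rw [P.Lam_arm hz, P.Fb_int H hj]

theorem Fb_rect (H : ℝ) {m : ℕ} {σ : Bool} {j : ℕ} (hj : j < P.N) {t r : ℝ}
    (ht : t ∈ Icc (0 : ℝ) (P.T - 1)) (hr : r ∈ Icc (0 : ℝ) (P.s / 2)) :
    P.Fb H (P.Lam (P.q m σ j t r)) = j * H + r := by
  have hs := P.hs
  rw [P.Lam_rect ht hr, P.Fb_mid H hj (div_nonneg hr.1 hs.le)]
  · congr 1
    field_simp
  · rw [div_le_iff₀ hs]
    linarith [hr.2]

theorem base_locLip (H : ℝ) : LocLip P.base (fun z => P.Fb H (P.Lam z)) := by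
  unfold base
  apply LocLip.union (P.roadL_closed.union P.roadR_closed)
    ((isClosed_iUnion_of_finite fun i => P.arm_closed _ _ _).union
      (isClosed_iUnion_of_finite fun i => P.rect_closed _ _ _))
  · apply LocLip.union P.roadL_closed P.roadR_closed
    · exact (LocLip.const _ 0).congr fun z hz => P.Fb_left H (P.Lam_left hz.1)
    · exact (LocLip.const _ (P.N * H)).congr fun z hz => P.Fb_right H (P.Lam_right hz.1)
  · apply LocLip.union (isClosed_iUnion_of_finite fun i => P.arm_closed _ _ _)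
      (isClosed_iUnion_of_finite fun i => P.rect_closed _ _ _)
    · apply LocLip.iUnion fun i => P.arm_closed _ _ _
      intro i
      exact (LocLip.const _ ((i.2.2 : ℕ) * H)).congr fun z hz =>
        P.Fb_arm H (Nat.lt_succ_iff.mp i.2.2.2) hz
    · apply LocLip.iUnion fun i => P.rect_closed _ _ _
      intro i
      apply LocLip.of_lip
      rintro _ ⟨t, ht, r, hr, rfl⟩ _ ⟨t', ht', r', hr', rfl⟩
      rw [P.Fb_rect H i.2.2.2 ht hr, P.Fb_rect H i.2.2.2 ht' hr', P.dist_q]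
      have : (i.2.2 : ℕ) * H + r' - ((i.2.2 : ℕ) * H + r) = r' - r := by ring
      rw [this]
      apply Real.abs_le_sqrt
      nlinarith [sq_nonneg (t' - t)]

/-- parameters of the copies. -/
theorem tt (i : Fin ((P.T - 1) * P.M)) : 1 / (P.M : ℝ) ≤ ((i : ℕ) + 1 : ℝ) / P.M ∧
    ((i : ℕ) + 1 : ℝ) / P.M ≤ P.T - 1 := by
  have hM : (0 : ℝ) < P.M := by linarith [P.Mpos]
  constructor
  · apply div_le_div_of_nonneg_right _ hM.le
    have : (0 : ℝ) ≤ (i : ℕ) := Nat.cast_nonneg _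
    linarith
  · rw [div_le_iff₀ hM]
    have h1 : (i : ℕ) + 1 ≤ (P.T - 1) * P.M := i.2
    have h2 : (((i : ℕ) + 1 : ℕ) : ℝ) ≤ (((P.T - 1) * P.M : ℕ) : ℝ) := by exact_mod_cast h1
    have h3 : ((P.T - 1 : ℕ) : ℝ) = (P.T : ℝ) - 1 := by
      rw [Nat.cast_sub (by have := P.hT; omega)]
      simp
    rw [Nat.cast_mul, h3] at h2
    push_cast at h2
    exact h2

/-- bounds for the points of the corridor. -/
theorem xi_bounds {A D : ℝ} {X : Set ℂ} (hX : Fake A D (P.s / (4 * P.M)) X) {ξ : ℂ} (hξ : ξ ∈ X) :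
    0 ≤ ξ.re ∧ ξ.re ≤ 1 ∧ |ξ.im| ≤ P.s / (8 * P.M) ∧ |ξ.im| ≤ P.s / 4 * ξ.re ∧
      |ξ.im| ≤ P.s / 4 * (1 - ξ.re) := by
  obtain ⟨h1, h2⟩ := hX.diam ξ hξ
  have hs := P.hs
  have hM := P.Mpos
  have hρ : 0 < P.s / (4 * P.M) := by positivity
  have h3 := abs_nonneg ξ.im
  have h4 : 0 ≤ ξ.re := by
    by_contra h
    push Not at h
    nlinarith
  have h5 : 0 ≤ 1 - ξ.re := by
    by_contra h
    push Not at h
    nlinarith
  have hρ' : P.s / (4 * P.M) ≤ P.s / 4 := by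
    apply div_le_div_of_nonneg_left hs.le (by norm_num)
    linarith
  refine ⟨h4, by linarith, ?_, ?_, ?_⟩
  · have e : P.s / (8 * P.M) = P.s / (4 * P.M) / 2 := by field_simp; norm_num
    rw [e]
    linarith
  · nlinarith
  · nlinarith

/-- relative height of a point of a copy. -/
theorem copy_u {A D : ℝ} {X : Set ℂ} (hX : Fake A D (P.s / (4 * P.M)) X) {m : ℕ} {σ : Bool} {j : ℕ}
    (i : Fin ((P.T - 1) * P.M)) {ξ : ℂ} (hξ : ξ ∈ X) :
    ∃ u : ℝ, 0 < u ∧ u < P.T * P.s ∧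
      (P.q m σ j (((i : ℕ) + 1 : ℝ) / P.M) (P.s / 2) + P.wv σ * ξ).im = P.hW m σ + sg σ * u ∧
      P.Lam (P.q m σ j (((i : ℕ) + 1 : ℝ) / P.M) (P.s / 2) + P.wv σ * ξ) =
        j + 1 / 2 + ξ.re / 2 + sg σ * (P.c / P.s) * ξ.im := by
  obtain ⟨h1, h2, h3, -, -⟩ := P.xi_bounds hX hξ
  obtain ⟨h4, h5⟩ := P.tt i
  set t : ℝ := ((i : ℕ) + 1 : ℝ) / P.M with ht
  have hs := P.hs
  have hs' := P.hs'
  have hc := P.hc
  have hc1 := P.c_lt_one
  have hM := P.Mpos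
  have hsg : |sg σ| = 1 := by cases σ <;> simp
  have hsq := sg_sq σ
  have hsc := P.hsc
  have hk0 : 0 ≤ 1 - P.s / 2 * P.s := by nlinarith
  have hk1 : 1 - P.s / 2 * P.s ≤ 1 := by nlinarith
  have h6 : |sg σ * (1 - P.s / 2 * P.s) * ξ.im| ≤ P.s / (8 * P.M) := by
    rw [abs_mul, abs_mul, hsg, one_mul, abs_of_nonneg hk0]
    have := abs_nonneg ξ.im
    nlinarith
  have h7 := abs_le.mp h6
  have h8 : 0 ≤ P.c * (P.s / 2) * (1 - ξ.re) := by
    have : 0 ≤ 1 - ξ.re := by linarith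
    positivity
  have h9 : P.c * (P.s / 2) * (1 - ξ.re) ≤ P.s / 2 := by
    have e1 : P.c * (P.s / 2) ≤ P.s / 2 := by nlinarith
    have e2 : 0 ≤ P.c * (P.s / 2) := by positivity
    nlinarith
  have h10 : P.s / (8 * P.M) = P.s * (1 / P.M) / 8 := by field_simp
  have h11 : P.s * (1 / P.M) ≤ P.s * t := mul_le_mul_of_nonneg_left h4 hs.le
  have h12 : P.s * t ≤ P.s * (P.T - 1) := mul_le_mul_of_nonneg_left h5 hs.le
  have h13 : 0 < P.s * (1 / P.M) := by positivity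
  have h14 : P.s * (1 / P.M) ≤ P.s := by
    have : 1 / (P.M : ℝ) ≤ 1 := by rw [div_le_one (by linarith)]; exact hM
    nlinarith
  have him : (P.q m σ j t (P.s / 2) + P.wv σ * ξ).im = P.hW m σ + sg σ * (P.s * t +
      P.c * (P.s / 2) * (1 - ξ.re) + sg σ * (1 - P.s / 2 * P.s) * ξ.im) := by
    simp only [Complex.add_im, Complex.mul_im, q_im, wv]
    linear_combination (-(1 - P.s / 2 * P.s) * ξ.im) * hsq
  refine ⟨P.s * t + P.c * (P.s / 2) * (1 - ξ.re) + sg σ * (1 - P.s / 2 * P.s) * ξ.im, ?_, ?_, him, ?_⟩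
  · linarith
  · have : P.T * P.s = P.s * (P.T - 1) + P.s := by ring
    rw [this]
    linarith
  · rw [P.Lam_of him (by linarith) (by
      have : P.T * P.s = P.s * (P.T - 1) + P.s := by ring
      rw [this]
      linarith)]
    simp only [Complex.add_re, Complex.mul_re, q_re, wv]
    have hc2 : P.c ^ 2 = 1 - P.s ^ 2 := by linarith
    field_simp
    ring_nf
    rw [hc2]
    ring

theorem copy_Lam {A D : ℝ} {X : Set ℂ} (hX : Fake A D (P.s / (4 * P.M)) X) (i : P.CI) {z : ℂ}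
    (hz : z ∈ P.cop X i) : ((i.2.2.1 : ℕ) : ℝ) + 1 / 2 ≤ P.Lam z ∧ P.Lam z ≤ (i.2.2.1 : ℕ) + 1 ∧
      (P.Lam z = (i.2.2.1 : ℕ) + 1 / 2 →
        z = P.q i.1 i.2.1 i.2.2.1 (((i.2.2.2 : ℕ) + 1 : ℝ) / P.M) (P.s / 2) + P.wv i.2.1 * 0) ∧
      (P.Lam z = (i.2.2.1 : ℕ) + 1 →
        z = P.q i.1 i.2.1 i.2.2.1 (((i.2.2.2 : ℕ) + 1 : ℝ) / P.M) (P.s / 2) + P.wv i.2.1 * 1) := by
  obtain ⟨ξ, hξ, rfl⟩ := hz
  obtain ⟨u, -, -, -, hL⟩ := P.copy_u hX (m := i.1) (σ := i.2.1) (j := i.2.2.1) i.2.2.2 hξ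
  obtain ⟨h1, h2, -, h3, h4⟩ := P.xi_bounds hX hξ
  simp only []
  rw [hL]
  have hs := P.hs
  have hc := P.hc
  have hc1 := P.c_lt_one
  have hsg : |sg i.2.1| = 1 := by cases i.2.1 <;> simp
  have h5 : |sg i.2.1 * (P.c / P.s) * ξ.im| = P.c / P.s * |ξ.im| := by
    rw [abs_mul, abs_mul, hsg, one_mul, abs_of_nonneg (by positivity)]
  have hcs : 0 < P.c / P.s := by positivity
  have h6 : P.c / P.s * |ξ.im| ≤ ξ.re / 4 := by
    calc P.c / P.s * |ξ.im| ≤ P.c / P.s * (P.s / 4 * ξ.re) := mul_le_mul_of_nonneg_left h3 hcs.le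
      _ = P.c * (ξ.re / 4) := by field_simp
      _ ≤ ξ.re / 4 := by nlinarith
  have h7 : P.c / P.s * |ξ.im| ≤ (1 - ξ.re) / 4 := by
    calc P.c / P.s * |ξ.im| ≤ P.c / P.s * (P.s / 4 * (1 - ξ.re)) := mul_le_mul_of_nonneg_left h4 hcs.le
      _ = P.c * ((1 - ξ.re) / 4) := by field_simp
      _ ≤ (1 - ξ.re) / 4 := by nlinarith
  rw [← h5] at h6 h7
  have h8 := abs_le.mp h6
  have h9 := abs_le.mp h7
  refine ⟨by linarith, by linarith, fun h => ?_, fun h => ?_⟩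
  · have e1 : ξ.re = 0 := by linarith
    have e2 : |ξ.im| ≤ 0 := by rw [e1] at h3; linarith
    have e3 : ξ.im = 0 := abs_nonpos_iff.mp e2
    have : ξ = 0 := Complex.ext e1 e3
    rw [this]
  · have e1 : ξ.re = 1 := by linarith
    have e2 : |ξ.im| ≤ 0 := by rw [e1] at h4; linarith
    have e3 : ξ.im = 0 := abs_nonpos_iff.mp e2
    have : ξ = 1 := Complex.ext e1 e3
    rw [this]

/-- the band containing a point. -/
theorem band {m : ℕ} {σ : Bool} {u y : ℝ} (hu : 0 < u) (hu' : u < P.T * P.s)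
    (hy : y = P.hW m σ + sg σ * u) : ((2 * m + (if σ then 0 else 1) : ℕ) : ℝ) * (P.T * P.s) < y ∧
      y < ((2 * m + (if σ then 0 else 1) : ℕ) + 1 : ℝ) * (P.T * P.s) := by
  rw [hy]
  unfold hW
  cases σ
  · simp
    constructor <;> nlinarith
  · simp
    constructor <;> nlinarith

theorem band_eq {n n' : ℕ} {y : ℝ} (h1 : (n : ℝ) * (P.T * P.s) < y) (h2 : y < ((n : ℝ) + 1) * (P.T * P.s))
    (h1' : (n' : ℝ) * (P.T * P.s) < y) (h2' : y < ((n' : ℝ) + 1) * (P.T * P.s)) : n = n' := by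
  have hT := P.Ts_pos
  have h3 : (n : ℝ) < (n' : ℝ) + 1 := lt_of_mul_lt_mul_right (h1.trans h2') hT.le
  have h4 : (n' : ℝ) < (n : ℝ) + 1 := lt_of_mul_lt_mul_right (h1'.trans h2) hT.le
  have h5 : n < n' + 1 := by exact_mod_cast h3
  have h6 : n' < n + 1 := by exact_mod_cast h4
  omega

theorem cross {s c g t t' x y x' y' a W T : ℝ} (hg : g * g = 1) (hsc : s ^ 2 + c ^ 2 = 1)
    (hre : a + c * (T - t) + s * (s / 2) + ((1 - s / 2 * s) * x - -(s / 2 * (g * c)) * y) =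
      a + c * (T - t') + s * (s / 2) + ((1 - s / 2 * s) * x' - -(s / 2 * (g * c)) * y'))
    (him : W + g * (s * t + c * (s / 2)) + ((1 - s / 2 * s) * y + -(s / 2 * (g * c)) * x) =
      W + g * (s * t' + c * (s / 2)) + ((1 - s / 2 * s) * y' + -(s / 2 * (g * c)) * x')) :
    (1 - 3 / 4 * s ^ 2) * (y - y') = g * (s / 2) * (t' - t) := by
  linear_combination (1 - s / 2 * s) * him + (s / 2 * g * c) * hre - (s ^ 2 * c ^ 2 / 4) * (y - y') * hg +
    (-(s ^ 2 / 4) * (y - y') + g * (t - t') * (s / 2)) * hsc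

theorem no_overlap {s M g d y y' : ℝ} (hs : 0 < s) (hs' : s ≤ 1 / 10) (hM : 1 ≤ M) (hg : |g| = 1)
    (h : (1 - 3 / 4 * s ^ 2) * (y - y') = g * (s / 2) * d) (hd : 1 / M ≤ |d|) (hy : |y| ≤ s / (8 * M))
    (hy' : |y'| ≤ s / (8 * M)) : False := by
  have hM0 : 0 < M := by linarith
  have hk0 : 0 ≤ 1 - 3 / 4 * s ^ 2 := by nlinarith
  have hk1 : 1 - 3 / 4 * s ^ 2 ≤ 1 := by nlinarith
  have h3 : |y - y'| ≤ s / (4 * M) := by
    have h4 := abs_sub y y'
    have h5 : s / (4 * M) = s / (8 * M) + s / (8 * M) := by field_simp; norm_num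
    rw [h5]
    linarith
  have h2 : |(1 - 3 / 4 * s ^ 2) * (y - y')| ≤ s / (4 * M) := by
    rw [abs_mul, abs_of_nonneg hk0]
    have := abs_nonneg (y - y')
    nlinarith
  rw [h, abs_mul, abs_mul, hg, one_mul, abs_of_pos (by linarith : 0 < s / 2)] at h2
  have h4 : s / 2 * (1 / M) ≤ s / (4 * M) :=
    (mul_le_mul_of_nonneg_left hd (by linarith)).trans h2
  have h5 : s / 2 * (1 / M) = 2 * (s / (4 * M)) := by field_simp; norm_num
  rw [h5] at h4
  have h6 : 0 < s / (4 * M) := by positivity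
  linarith

/-- different copies are disjoint. -/
theorem copy_disj {A D : ℝ} {X : Set ℂ} (hX : Fake A D (P.s / (4 * P.M)) X) (i i' : P.CI) {z : ℂ}
    (hz : z ∈ P.cop X i) (hz' : z ∈ P.cop X i') : i = i' := by
  obtain ⟨a1, a2, -, -⟩ := P.copy_Lam hX i hz
  obtain ⟨b1, b2, -, -⟩ := P.copy_Lam hX i' hz'
  obtain ⟨m, σ, j, k⟩ := i
  obtain ⟨m', σ', j', k'⟩ := i'
  simp only [] at a1 a2 b1 b2
  have hj : (j : ℕ) = j' := by
    have h1 : ((j : ℕ) : ℝ) < (j' : ℕ) + 1 := by linarith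
    have h2 : ((j' : ℕ) : ℝ) < (j : ℕ) + 1 := by linarith
    have h3 : (j : ℕ) < (j' : ℕ) + 1 := by exact_mod_cast h1
    have h4 : (j' : ℕ) < (j : ℕ) + 1 := by exact_mod_cast h2
    omega
  have hj' : j = j' := Fin.ext hj
  subst hj'
  obtain ⟨ξ, hξ, hzξ⟩ := hz
  obtain ⟨ξ', hξ', hzξ'⟩ := hz'
  simp only [] at hzξ hzξ'
  obtain ⟨u, hu0, hu1, hu2, -⟩ := P.copy_u hX (m := m) (σ := σ) (j := j) k hξ
  obtain ⟨u', hu0', hu1', hu2', -⟩ := P.copy_u hX (m := m') (σ := σ') (j := j) k' hξ'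
  rw [hzξ] at hu2
  rw [hzξ'] at hu2'
  obtain ⟨c1, c2⟩ := P.band hu0 hu1 hu2
  obtain ⟨d1, d2⟩ := P.band hu0' hu1' hu2'
  have hn := P.band_eq c1 c2 d1 d2
  have hσ : σ = σ' := by
    cases σ <;> cases σ' <;> simp at hn ⊢ <;> omega
  subst hσ
  have hm : (m : ℕ) = m' := by omega
  have hm' : m = m' := Fin.ext hm
  subst hm'
  obtain ⟨-, -, e1, -, -⟩ := P.xi_bounds hX hξ
  obtain ⟨-, -, e1', -, -⟩ := P.xi_bounds hX hξ'
  have hk : (k : ℕ) = k' := by
    by_contra hne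
    have heq : P.q m σ j (((k : ℕ) + 1 : ℝ) / P.M) (P.s / 2) + P.wv σ * ξ =
        P.q m σ j (((k' : ℕ) + 1 : ℝ) / P.M) (P.s / 2) + P.wv σ * ξ' := hzξ.trans hzξ'.symm
    have hre := congrArg Complex.re heq
    have him := congrArg Complex.im heq
    simp only [Complex.add_im, Complex.mul_im, Complex.add_re, Complex.mul_re, q_im, q_re, wv] at hre him
    have hs := P.hs
    have hs' := P.hs'
    have hc := P.hc
    have hsc := P.hsc
    have hM := P.Mpos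
    have hsq := sg_sq σ
    have hel := P.el_sq
    -- cross product
    have hcross := cross hsq hsc hre him
    have hM0 : (0 : ℝ) < P.M := by linarith
    have h1 : 1 / (P.M : ℝ) ≤ |(((k' : ℕ) + 1 : ℝ) / P.M) - (((k : ℕ) + 1 : ℝ) / P.M)| := by
      rw [← sub_div, abs_div, abs_of_pos hM0]
      apply div_le_div_of_nonneg_right _ hM0.le
      have e : ((k' : ℕ) + 1 : ℝ) - ((k : ℕ) + 1 : ℝ) = (((k' : ℕ) : ℤ) - ((k : ℕ) : ℤ) : ℤ) := by
        push_cast; ring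
      rw [e, ← Int.cast_abs]
      have : 1 ≤ |((k' : ℕ) : ℤ) - ((k : ℕ) : ℤ)| := by
        apply Int.one_le_abs
        omega
      exact_mod_cast this
    exact no_overlap hs hs' hM (by cases σ <;> simp) hcross h1 e1 e1'
  have hk' : k = k' := Fin.ext hk
  subst hk'
  rfl

theorem base_Lam {z : ℂ} (hz : z ∈ P.base) : P.Lam z ≤ 0 ∨ P.N ≤ P.Lam z ∨
    ∃ j < P.N, ∃ v : ℝ, 0 ≤ v ∧ v ≤ 1 / 2 ∧ P.Lam z = (j : ℕ) + v := by
  have hs := P.hs
  rcases hz with (hz | hz) | (hz | hz)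
  · exact Or.inl (P.Lam_left hz.1)
  · exact Or.inr (Or.inl (P.Lam_right hz.1))
  · obtain ⟨i, hi⟩ := mem_iUnion.mp hz
    have h1 := P.Lam_arm hi
    rcases (Nat.lt_succ_iff.mp i.2.2.2).lt_or_eq with h2 | h2
    · exact Or.inr (Or.inr ⟨i.2.2, h2, 0, le_rfl, by norm_num, by rw [h1, add_zero]⟩)
    · right; left
      rw [h1, h2]
  · obtain ⟨i, t, ht, r, hr, rfl⟩ := mem_iUnion.mp hz
    refine Or.inr (Or.inr ⟨i.2.2, i.2.2.2, r / P.s, div_nonneg hr.1 hs.le, ?_, P.Lam_rect ht hr⟩)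
    rw [div_le_iff₀ hs]
    linarith [hr.2]

/-- The potential: `0` on the left side, `N (s/2 + D ℓ)` on the right side. -/
theorem exists_pot {A D : ℝ} {X : Set ℂ} (hX : Fake A D (P.s / (4 * P.M)) X) :
    ∃ h : ℂ → ℝ, LocLip (P.col X) h ∧ (∀ z ∈ P.col X, z.re = 0 → h z = 0) ∧
      (∀ z ∈ P.col X, z.re = P.wd → h z = P.N * (P.s / 2 + D * P.el)) := by
  obtain ⟨g, hg, g0, g1⟩ := hX.pot
  have hs := P.hs
  have hXc : IsCompact X := hX.poly.isCompact
  set H : ℝ := P.s / 2 + D * P.el with hH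
  -- the functions on the copies
  let hc : P.CI → ℂ → ℝ := fun i z => ((i.2.2.1 : ℕ) * H + P.s / 2) + ‖P.wv i.2.1‖ *
    g ((z - P.q i.1 i.2.1 i.2.2.1 (((i.2.2.2 : ℕ) + 1 : ℝ) / P.M) (P.s / 2)) / P.wv i.2.1)
  have hc0 : ∀ i, ∀ z, z = P.q i.1 i.2.1 i.2.2.1 (((i.2.2.2 : ℕ) + 1 : ℝ) / P.M) (P.s / 2) +
      P.wv i.2.1 * 0 → hc i z = (i.2.2.1 : ℕ) * H + P.s / 2 := by
    intro i z hz
    simp only [hc]
    rw [hz, add_sub_cancel_left, mul_zero, zero_div, g0]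
    ring
  have hc1 : ∀ i, ∀ z, z = P.q i.1 i.2.1 i.2.2.1 (((i.2.2.2 : ℕ) + 1 : ℝ) / P.M) (P.s / 2) +
      P.wv i.2.1 * 1 → hc i z = ((i.2.2.1 : ℕ) + 1) * H := by
    intro i z hz
    simp only [hc]
    rw [hz, add_sub_cancel_left, mul_one, div_self (P.wv_ne _), g1, P.norm_wv, hH]
    ring
  have key : ∀ i, ∀ z ∈ P.cop X i, (P.Lam z ≤ 0 ∨ P.N ≤ P.Lam z ∨
      ∃ j < P.N, ∃ v : ℝ, 0 ≤ v ∧ v ≤ 1 / 2 ∧ P.Lam z = (j : ℕ) + v) → P.Fb H (P.Lam z) = hc i z := by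
    intro i z hz hb
    obtain ⟨h1, h2, h3, h4⟩ := P.copy_Lam hX i hz
    have hj : ((i.2.2.1 : ℕ) : ℝ) + 1 ≤ P.N := by exact_mod_cast i.2.2.1.2
    have hj0 : (0 : ℝ) ≤ ((i.2.2.1 : ℕ) : ℝ) := Nat.cast_nonneg _
    have caseA : P.Lam z = (i.2.2.1 : ℕ) + 1 / 2 → P.Fb H (P.Lam z) = hc i z := by
      intro h
      rw [hc0 i z (h3 h), h, P.Fb_mid H i.2.2.1.2 (by norm_num) le_rfl]
      ring
    have caseB : P.Lam z = (i.2.2.1 : ℕ) + 1 → P.Fb H (P.Lam z) = hc i z := by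
      intro h
      have := P.Fb_int H (j := (i.2.2.1 : ℕ) + 1) i.2.2.1.2
      push_cast at this
      rw [hc1 i z (h4 h), h, this]
    rcases hb with hb | hb | ⟨j, hjN, v, hv0, hv1, hv⟩
    · linarith
    · exact caseB (by linarith)
    · rcases lt_trichotomy j (i.2.2.1 : ℕ) with h5 | h5 | h5
      · have : (j : ℝ) + 1 ≤ ((i.2.2.1 : ℕ) : ℝ) := by exact_mod_cast h5
        linarith
      · apply caseA
        rw [hv, h5] at h1 ⊢
        linarith
      · have : ((i.2.2.1 : ℕ) : ℝ) + 1 ≤ (j : ℝ) := by exact_mod_cast h5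
        apply caseB
        linarith
  obtain ⟨h, hl, hB, hC⟩ := LocLip.glue (ι := P.CI) (B := P.base) (C := P.cop X)
    (h0 := fun z => P.Fb H (P.Lam z)) (h := hc) P.base_closed
    (fun i => (hXc.image (by fun_prop)).isClosed)
    (P.base_locLip H)
    (fun i => hg.affine _ _ (P.wv_ne _) _)
    (fun i z hz hz' => key i z hz' (P.base_Lam hz))
    (fun i j z hz hz' => by rw [P.copy_disj hX i j hz hz'])
  refine ⟨h, hl, ?_, ?_⟩
  · rintro z hz hre
    have hL := P.Lam_left hre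
    rcases hz with hz | hz
    · rw [hB z hz]
      exact P.Fb_left H hL
    · obtain ⟨i, hi⟩ := mem_iUnion.mp hz
      rw [hC i z hi, ← key i z hi (Or.inl hL)]
      exact P.Fb_left H hL
  · rintro z hz hre
    have hL := P.Lam_right hre
    rcases hz with hz | hz
    · rw [hB z hz]
      exact P.Fb_right H hL
    · obtain ⟨i, hi⟩ := mem_iUnion.mp hz
      rw [hC i z hi, ← key i z hi (Or.inr (Or.inl hL))]
      exact P.Fb_right H hL

end Par

end Pool.Agent.H20.D1
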