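import Pool.Agent.Lib.Helper20.D1.Chain
import Pool.Agent.Lib.Helper20.D1.Pot
import Pool.Agent.Lib.Helper20.D1.Links
import Pool.Agent.Lib.Helper20.D1.Links2
import Pool.Agent.Lib.Helper20.D1.Avg

/-!
# One step and the iteration
-/

open Set Filter Topology

namespace Pool.Agent.H20.D1

/-- the column of parameters `P`. -/
theorem Par.column (P : Par) {A D A' : ℝ} {X : Set ℂ} (hA : 1 ≤ A)
    (hX : Fake A D (P.s / (4 * P.M)) X) (hM3 : 3 ≤ P.M) (hNb : 2 * (P.N : ℝ) ≤ P.b)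
    (hA' : P.N * (A + 2 / P.M + (A + 4) / P.T + (A + 2) * P.s ^ 2 / 2) + 4 * P.T ≤ A' * P.wd) :
    Column P.wd P.b A' (P.N * (P.s / 2 + D * P.el) / P.wd) (P.col X) := by
  have hw := P.wd_pos
  refine ⟨P.col_poly hX, P.col_box hX, ?_, ?_, ?_, P.col_link hA hX, ?_⟩
  · intro y hy0 hyb
    refine Or.inl (Or.inl (Or.inl ⟨?_, ?_, ?_⟩)) <;> simp [hy0, hyb]
  · intro y hy0 hyb
    refine Or.inl (Or.inl (Or.inr ⟨?_, ?_, ?_⟩)) <;> simp [hy0, hyb]
  · intro f hf
    exact (P.col_avg hA hX hM3 hNb hf).trans (mul_le_mul_of_nonneg_left hA' P.b_pos.le)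
  · obtain ⟨h, h1, h2, h3⟩ := P.exists_pot hX
    refine ⟨h, h1, h2, fun z hz hre => ?_⟩
    rw [h3 z hz hre]
    field_simp

/-- one step. -/
theorem PP_step {A D s ε : ℝ} (h : PP A D) (hA : 1 ≤ A) (hD : 1 ≤ D) (hs : 0 < s)
    (hs' : s ≤ 1 / 10) (hε : 0 < ε) (hε' : ε ≤ 1 / 100) :
    PP (A + (A + 2) * s ^ 2 / 2 + ε) (D * (1 - 3 / 4 * s ^ 2) + s / 2 - ε) := by
  have hs2 : s ^ 2 ≤ (1 / 10) ^ 2 := pow_le_pow_left₀ hs.le hs' 2
  have hs2' : 0 < s ^ 2 := by positivity
  set c := Real.sqrt (1 - s ^ 2) with hc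
  have hc2 : c ^ 2 = 1 - s ^ 2 := Real.sq_sqrt (by nlinarith)
  have hc0 : 0 < c := Real.sqrt_pos.mpr (by nlinarith)
  have hc1 : c ≤ 1 := by
    rw [hc, Real.sqrt_le_one]
    linarith
  -- parameters
  obtain ⟨T, hT⟩ := exists_nat_ge (max 2 ((A + 4) * 8 / ε))
  have hT2 : (2 : ℝ) ≤ T := (le_max_left _ _).trans hT
  have hTA : (A + 4) * 8 / ε ≤ T := (le_max_right _ _).trans hT
  obtain ⟨M, hM⟩ := exists_nat_ge (max 3 (16 / ε))
  have hM3 : (3 : ℝ) ≤ M := (le_max_left _ _).trans hM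
  have hM1 : (1 : ℝ) ≤ M := by linarith
  have hMe : 16 / ε ≤ M := (le_max_right _ _).trans hM
  obtain ⟨N, hN⟩ := exists_nat_ge (max 1 ((4 * T * 8 + (D + 1) * T * 4) / ε))
  have hN1 : (1 : ℝ) ≤ N := (le_max_left _ _).trans hN
  have hNe : (4 * T * 8 + (D + 1) * T * 4) / ε ≤ N := (le_max_right _ _).trans hN
  have hTs : 0 < T * s := mul_pos (by linarith) hs
  obtain ⟨K, hK⟩ := exists_nat_ge (max 1 (N / (T * s)))
  have hK1 : (1 : ℝ) ≤ K := (le_max_left _ _).trans hK
  have hKe : N / (T * s) ≤ K := (le_max_right _ _).trans hK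
  let P : Par :=
    { s := s, c := c, T := T, N := N, K := K, M := M, hs := hs, hs' := hs', hc := hc0
      hsc := by rw [hc2]; ring
      hT := by exact_mod_cast hT2
      hN := by exact_mod_cast hN1
      hK := by exact_mod_cast hK1
      hM := by exact_mod_cast hM1 }
  have hNpos : (0 : ℝ) < N := by linarith
  have hTpos : (0 : ℝ) < T := by linarith
  have hMpos : (0 : ℝ) < M := by linarith
  have hb : 2 * (N : ℝ) ≤ P.b := by
    change 2 * (N : ℝ) ≤ 2 * (K : ℝ) * (T * s)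
    rw [div_le_iff₀ hTs] at hKe
    linarith
  have hwd : P.wd = N + T * c := rfl
  obtain ⟨X, hX⟩ := h (P.s / (4 * P.M)) (by
    have := P.hs
    have h2 := P.Mpos
    positivity)
  have e1 : 2 / (M : ℝ) ≤ ε / 8 := by
    rw [div_le_iff₀ hε] at hMe
    rw [div_le_iff₀ hMpos]
    linarith
  have e2 : (A + 4) / (T : ℝ) ≤ ε / 8 := by
    rw [div_le_iff₀ hε] at hTA
    rw [div_le_iff₀ hTpos]
    linarith
  rw [div_le_iff₀ hε] at hNe
  have hTD : 0 ≤ (D + 1) * T := by positivity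
  have e3 : 4 * (T : ℝ) ≤ N * (ε / 8) := by nlinarith
  have e4 : (D + 1) * T ≤ N * (ε / 4) := by nlinarith
  have hcol := P.column (A' := A + (A + 2) * s ^ 2 / 2 + ε / 2) hA hX
    (by change 3 ≤ M; exact_mod_cast hM3) hb (by
    rw [hwd]
    change N * (A + 2 / M + (A + 4) / T + (A + 2) * s ^ 2 / 2) + 4 * T ≤ _
    have h1 : A + 2 / M + (A + 4) / T + (A + 2) * s ^ 2 / 2 ≤ A + (A + 2) * s ^ 2 / 2 + ε / 4 := by
      linarith
    have h2 := mul_le_mul_of_nonneg_left h1 hNpos.le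
    have h3 : 0 ≤ (A + (A + 2) * s ^ 2 / 2 + ε / 2) * (T * c) := by positivity
    nlinarith)
  have hA1 : 1 ≤ A + (A + 2) * s ^ 2 / 2 + ε / 2 := by
    have : 0 ≤ (A + 2) * s ^ 2 / 2 := by positivity
    linarith
  have hH0 : 0 ≤ D * (1 - 3 / 4 * s ^ 2) + s / 2 := by nlinarith
  have hel : 1 - 3 / 4 * s ^ 2 ≤ P.el := P.el_ge
  have hDc : D * (1 - 3 / 4 * s ^ 2) + s / 2 - ε / 2 ≤ P.N * (P.s / 2 + D * P.el) / P.wd := by
    rw [le_div_iff₀ P.wd_pos, hwd]
    change (D * (1 - 3 / 4 * s ^ 2) + s / 2 - ε / 2) * (N + T * c) ≤ N * (s / 2 + D * P.el)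
    have h1 : D * (1 - 3 / 4 * s ^ 2) + s / 2 ≤ s / 2 + D * P.el := by nlinarith
    have h2 := mul_le_mul_of_nonneg_left h1 hNpos.le
    have h3 : D * (1 - 3 / 4 * s ^ 2) + s / 2 ≤ D + 1 := by nlinarith
    have h4 : (D * (1 - 3 / 4 * s ^ 2) + s / 2) * (T * c) ≤ (D + 1) * T := by
      calc (D * (1 - 3 / 4 * s ^ 2) + s / 2) * (T * c) ≤ (D + 1) * (T * c) :=
            mul_le_mul_of_nonneg_right h3 (by positivity)
        _ ≤ (D + 1) * (T * 1) := by gcongr
        _ = _ := by ring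
    have h5 : 0 ≤ ε / 2 * (T * c) := by positivity
    nlinarith
  have hel0 := P.el_nonneg
  have hDc0 : 0 ≤ P.N * (P.s / 2 + D * P.el) / P.wd := by
    have := P.wd_pos
    have := P.hs
    positivity
  have := hcol.toPP P.wd_pos P.b_pos hA1 hDc0 (ε := ε / 2) (by positivity)
    (D' := D * (1 - 3 / 4 * s ^ 2) + s / 2 - ε) (by nlinarith) (by linarith)
  have e5 : A + (A + 2) * s ^ 2 / 2 + ε / 2 + ε / 2 = A + (A + 2) * s ^ 2 / 2 + ε := by ring
  rw [e5] at this
  exact this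

/-- fake corridors of bounded analytic length and arbitrarily large path length. -/
theorem PP_large : ∀ D : ℝ, ∃ D' ≥ D, PP 2 D' := by
  have key : ∀ k : ℕ, PP (2 - 1 / ((k : ℝ) + 1))
      (1 + 3 / 100 * ∑ i ∈ Finset.range k, 1 / ((i : ℝ) + 1)) := by
    intro k
    induction k with
    | zero =>
        have h := PP_one
        simpa using h.mono (A' := 2 - 1 / ((0 : ℝ) + 1)) (by norm_num) le_rfl (by norm_num)
    | succ k ih =>
        have hk : (0 : ℝ) < (k : ℝ) + 1 := by positivity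
        have hk1 : (1 : ℝ) ≤ (k : ℝ) + 1 := by
          have : (0 : ℝ) ≤ k := Nat.cast_nonneg k
          linarith
        set u : ℝ := 1 / ((k : ℝ) + 1) with hu
        have hu0 : 0 < u := by positivity
        have hu1 : u ≤ 1 := by rw [hu, div_le_one hk]; exact hk1
        set S : ℝ := ∑ i ∈ Finset.range k, 1 / ((i : ℝ) + 1) with hS
        have hS0 : 0 ≤ S := Finset.sum_nonneg fun i _ => by positivity
        have hSk : S ≤ k := by
          calc S ≤ ∑ i ∈ Finset.range k, (1 : ℝ) := Finset.sum_le_sum fun i _ => by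
                rw [div_le_one (by positivity)]
                have : (0 : ℝ) ≤ i := Nat.cast_nonneg i
                linarith
            _ = k := by simp
        have hSu : S * u ≤ 1 := by
          rw [hu, mul_one_div, div_le_one hk]
          linarith
        have hstep := PP_step (A := 2 - u) (D := 1 + 3 / 100 * S) (s := u / 10) (ε := u ^ 2 / 100)
          ih (by linarith) (by linarith) (by positivity) (by linarith) (by positivity)
          (by
            have : u ^ 2 ≤ 1 := pow_le_one₀ hu0.le hu1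
            linarith)
        refine hstep.mono ?_ ?_ ?_
        · -- A
          have h1 : 1 / ((((k + 1 : ℕ) : ℝ)) + 1) ≤ u - u ^ 2 / 2 := by
            rw [hu]
            push_cast
            rw [div_le_iff₀ (by positivity)]
            field_simp
            nlinarith
          have h2 : (2 - u + 2) * (u / 10) ^ 2 / 2 ≤ u ^ 2 / 50 := by
            nlinarith [pow_pos hu0 2, pow_pos hu0 3]
          nlinarith [pow_pos hu0 2]
        · -- D
          rw [Finset.sum_range_succ, ← hS, ← hu]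
          have h3 : (1 + 3 / 100 * S) * (u ^ 2) ≤ 2 * u := by
            have : (1 + 3 / 100 * S) * u ≤ 2 := by nlinarith
            nlinarith
          nlinarith [pow_pos hu0 2]
        · rw [Finset.sum_range_succ, ← hS, ← hu]
          positivity
  intro D
  have hdiv := Real.tendsto_sum_range_one_div_nat_succ_atTop
  obtain ⟨k, hk⟩ := (hdiv.eventually (eventually_ge_atTop (D * 100 / 3))).exists
  refine ⟨1 + 3 / 100 * ∑ i ∈ Finset.range k, 1 / ((i : ℝ) + 1), ?_, ?_⟩
  · have : D * 100 / 3 ≤ ∑ i ∈ Finset.range k, 1 / ((i : ℝ) + 1) := hk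
    linarith
  · refine (key k).mono ?_ le_rfl ?_
    · have : (0 : ℝ) < 1 / ((k : ℝ) + 1) := by positivity
      linarith
    · have : 0 ≤ ∑ i ∈ Finset.range k, 1 / ((i : ℝ) + 1) := Finset.sum_nonneg fun i _ => by positivity
      linarith

end Pool.Agent.H20.D1
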