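import Pool.Agent.Lib.Helper20.D1.Geo

/-!
# Cauchy on a rectangle of the column
-/

open Set Filter Topology MeasureTheory

namespace Pool.Agent.H20.D1

namespace Par

variable (P : Par)

/-- The rectangle in complex form. -/
theorem q_eq_affine (m : ℕ) (σ : Bool) (j : ℕ) (t y : ℝ) :
    P.q m σ j t (-(sg σ * y)) =
      P.q m σ j 0 0 + (⟨-P.c, sg σ * P.s⟩ : ℂ) * ((t : ℂ) + (y : ℂ) * Complex.I) := by
  have h2 := sg_sq σ
  apply Complex.ext
  · simp [q_re, Complex.mul_re]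
    ring
  · simp [q_im, Complex.mul_im]
    linear_combination (-(P.c * y)) * h2

/-- Cauchy's theorem on the rectangle `(m, σ, j)`. -/
theorem rect_cauchy {Y : Set ℂ} {f : ℂ → ℂ} (hf : D1b Y f) (m : ℕ) (σ : Bool) (j : ℕ)
    (hY : P.rect m σ j ⊆ Y) :
    (∫ t in (0 : ℝ)..((P.T : ℝ) - 1), f (P.q m σ j t (P.s / 2))) -
      (∫ t in (0 : ℝ)..((P.T : ℝ) - 1), f (P.q m σ j t 0)) =
    -((sg σ : ℂ) * Complex.I) *
      ((∫ r in (0 : ℝ)..(P.s / 2), f (P.q m σ j ((P.T : ℝ) - 1) r)) -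
        ∫ r in (0 : ℝ)..(P.s / 2), f (P.q m σ j 0 r)) := by
  obtain ⟨g, hg, hfg⟩ := hf
  have hT : (0 : ℝ) ≤ (P.T : ℝ) - 1 := by linarith [P.Tpos]
  have hs := P.hs
  let A : ℂ → ℂ := fun z => P.q m σ j 0 0 + (⟨-P.c, sg σ * P.s⟩ : ℂ) * z
  let F : ℂ → ℂ := fun z => f (A z)
  have hF : ∀ t y : ℝ, F ((t : ℂ) + (y : ℂ) * Complex.I) = f (P.q m σ j t (-(sg σ * y))) := by
    intro t y
    show f (A _) = _
    rw [P.q_eq_affine]
  let z₀ : ℂ := 0
  let w₀ : ℂ := ⟨(P.T : ℝ) - 1, -(sg σ * (P.s / 2))⟩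
  -- the closed rectangle is mapped into `Y`
  have hmap : MapsTo A (uIcc z₀.re w₀.re ×ℂ uIcc z₀.im w₀.im) Y := by
    rintro z ⟨hz1, hz2⟩
    apply hY
    have hz1' : z.re ∈ uIcc (0 : ℝ) ((P.T : ℝ) - 1) := hz1
    have hz2' : z.im ∈ uIcc (0 : ℝ) (-(sg σ * (P.s / 2))) := hz2
    rw [uIcc_of_le hT] at hz1'
    refine ⟨z.re, hz1', -(sg σ * z.im), ?_, ?_⟩
    · cases σ with
      | true =>
        rw [sg_true, one_mul, uIcc_of_ge (by linarith)] at hz2'
        rw [sg_true, one_mul]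
        exact ⟨by linarith [hz2'.2], by linarith [hz2'.1]⟩
      | false =>
        have e : -(sg false * (P.s / 2)) = P.s / 2 := by rw [sg_false]; ring
        rw [e, uIcc_of_le (by linarith)] at hz2'
        have e' : -(sg false * z.im) = z.im := by rw [sg_false]; ring
        rw [e']
        exact hz2'
    · rw [P.q_eq_affine, Complex.re_add_im]
  have hA : ∀ z, HasDerivAt A (⟨-P.c, sg σ * P.s⟩ : ℂ) z := by
    intro z
    have h1 : HasDerivAt (fun z : ℂ => (⟨-P.c, sg σ * P.s⟩ : ℂ) * z)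
        ((⟨-P.c, sg σ * P.s⟩ : ℂ) * 1) z := (hasDerivAt_id z).const_mul _
    rw [mul_one] at h1
    exact h1.const_add _
  have hc : ContinuousOn F (uIcc z₀.re w₀.re ×ℂ uIcc z₀.im w₀.im) := by
    have h1 : ContinuousOn f Y := fun a ha => (hfg a ha).1.continuousWithinAt
    exact h1.comp (fun z _ => (hA z).continuousAt.continuousWithinAt) hmap
  have hd : DifferentiableOn ℂ F (Ioo (min z₀.re w₀.re) (max z₀.re w₀.re) ×ℂ
      Ioo (min z₀.im w₀.im) (max z₀.im w₀.im)) := by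
    have hsub : (Ioo (min z₀.re w₀.re) (max z₀.re w₀.re) ×ℂ
        Ioo (min z₀.im w₀.im) (max z₀.im w₀.im)) ⊆ (uIcc z₀.re w₀.re ×ℂ uIcc z₀.im w₀.im) :=
      fun z hz => ⟨Ioo_subset_Icc_self hz.1, Ioo_subset_Icc_self hz.2⟩
    intro z hz
    have h1 := (hfg (A z) (hmap (hsub hz))).1
    have h2 := h1.comp z ((hA z).hasDerivWithinAt (s := Ioo (min z₀.re w₀.re) (max z₀.re w₀.re) ×ℂ
      Ioo (min z₀.im w₀.im) (max z₀.im w₀.im))) (hmap.mono_left hsub)
    exact h2.differentiableWithinAt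
  have key := Complex.integral_boundary_rect_eq_zero_of_continuousOn_of_differentiableOn F z₀ w₀ hc hd
  have e1 : ∀ x : ℝ, F ((x : ℂ) + (z₀.im : ℂ) * Complex.I) = f (P.q m σ j x 0) := by
    intro x
    rw [hF]
    show f (P.q m σ j x (-(sg σ * 0))) = _
    rw [mul_zero, neg_zero]
  have e2 : ∀ x : ℝ, F ((x : ℂ) + (w₀.im : ℂ) * Complex.I) = f (P.q m σ j x (P.s / 2)) := by
    intro x
    rw [hF]
    show f (P.q m σ j x (-(sg σ * -(sg σ * (P.s / 2))))) = _
    have h2 := sg_sq σ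
    have : -(sg σ * -(sg σ * (P.s / 2))) = P.s / 2 := by
      linear_combination (P.s / 2) * h2
    rw [this]
  have e3 : ∀ t : ℝ, (∫ y in z₀.im..w₀.im, F ((t : ℂ) + (y : ℂ) * Complex.I)) =
      -(sg σ : ℂ) * ∫ r in (0 : ℝ)..(P.s / 2), f (P.q m σ j t r) := by
    intro t
    simp only [hF]
    show (∫ y in (0 : ℝ)..(-(sg σ * (P.s / 2))), f (P.q m σ j t (-(sg σ * y)))) = _
    cases σ with
    | true =>
      simp only [sg_true, one_mul]
      rw [intervalIntegral.integral_comp_neg (fun r => f (P.q m true j t r)), neg_neg, neg_zero,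
        intervalIntegral.integral_symm]
      simp
    | false =>
      have e : ∀ y : ℝ, -(sg false * y) = y := fun y => by rw [sg_false]; ring
      simp only [e]
      simp
  simp only [e1, e2] at key
  rw [e3, e3] at key
  have h0 : z₀.re = 0 := rfl
  have h1 : w₀.re = (P.T : ℝ) - 1 := rfl
  rw [h0, h1] at key
  simp only [smul_eq_mul] at key
  linear_combination -key

end Par

end Pool.Agent.H20.D1
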